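import Pool.Agent.H40.TS.Defs

/-!
# Cells dual to vertices and edges of the curve: definitions and algebra (job TS-CELL)

All statements are identities or small linear algebra in `ℤ³`/`ℝ³` (expand the determinants, use
`D ^ 2 = 1`).  Hints.
* `w_dt'`: `⟨w i, dt i (i+1)⟩ = - D * det (u, t_{i+2} - t_{i+1}, t_i - t_{i+1}) = - D ^ 2`.
* `w_unique`: `u` and `dt (i+2) (i+1)` are linearly independent (`D ≠ 0`), and `w i` is a nonzero
  multiple of their cross product.
* `laplace`: `∑ i, ⟨e 0 - cint k, w i⟩ = 0` by `sum_w`, and `∑ i, ⟨t (i+1), w i⟩ = 1` by expanding.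
* `slope_opp`: `⟨a + b - cint k, w i⟩` is the same for all `a ∈ face i s`, `b ∈ face i (!s)`
  because `w i` is orthogonal to `u` and to `dt (i+2) (i+1)`.
* `face_match`: `c'.t i' = c.t i` for exactly one `i`; `w i` is the only vector orthogonal to `u` and
  to the difference of the two other `t`'s whose inner product with `t i - t j` is `-1`.
* `ray_dir`: `hom d m j` is, for `∑ m ≤ d`, an affine function of `m` with linear part
  `- ⟨·, dvec j⟩`.  So `dvec j` is orthogonal to `u` and `dt (i+2) (i+1)`; hence `w i = a • dvec j`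
  with `a` an integer (one coordinate of `dvec j` is `± 1`), and
  `-1 = ⟨w i, t i - t (i+1)⟩ = - a * hom (t i) j`, so `a ≥ 1` divides 1.
* `ray_slope`: substitute `w i = dvec j` and `hom (e 0) j = hom (t (i+1)) j = 0`.
-/

set_option autoImplicit false

namespace Pool.Agent.H40.TS

open Matrix

/-- the polynomial `p` (for `false`) or `q` (for `true`) -/
def poly (p q : TPoly) (s : Bool) : TPoly := if s then q else p

/-- the degree of `p` is 2, the degree of `q` is 3 -/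
def dg (s : Bool) : ℕ := if s then 3 else 2

/-- homogeneous coordinates of an exponent of degree at most `d` -/
def hom (d : ℕ) (m : Fin 3 → ℕ) : Fin 4 → ℕ := Fin.cons (d - ∑ i, m i) m

/-- the four directions of the rays -/
def dvec : Fin 4 → (Fin 3 → ℤ) := Fin.cons 1 (fun i => - Pi.single i 1)

/-- The monomials of `poly p q s` attaining the maximum at `z` are exactly those in `F s`. -/
def ActIs (p q : TPoly) (z : Fin 3 → ℝ) (F : Bool → Set (Fin 3 → ℕ)) : Prop :=
  ∀ s m, (poly p q s).Act z m ↔ m ∈ F s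

/-- The cell dual to a vertex: two exponents `e` of one of the polynomials (number `s`) and three
exponents `t` of the other one. -/
structure VCell where
  s : Bool
  e : Fin 2 → (Fin 3 → ℕ)
  t : Fin 3 → (Fin 3 → ℕ)

namespace VCell

variable (c : VCell)

/-- all exponents of the cell -/
def full : Bool → Set (Fin 3 → ℕ) := fun s' => if s' = c.s then Set.range c.e else Set.range c.t

/-- the exponents of the facet number `i` (drop `t i`), dual to the edge number `i` -/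
def face (i : Fin 3) : Bool → Set (Fin 3 → ℕ) :=
  fun s' => if s' = c.s then Set.range c.e else {m | ∃ j, j ≠ i ∧ m = c.t j}

def u : Fin 3 → ℤ := fun l => (c.e 1 l : ℤ) - c.e 0 l

/-- difference of two exponents of the triangle -/
def dt (i j : Fin 3) : Fin 3 → ℤ := fun l => (c.t i l : ℤ) - c.t j l

def D : ℤ := c.u ⬝ᵥ (c.dt 1 0 ⨯₃ c.dt 2 0)

/-- direction of the edge number `i` leaving the vertex -/
def w (i : Fin 3) : Fin 3 → ℤ := (- c.D) • (c.u ⨯₃ c.dt (i + 2) (i + 1))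

def Uni : Prop := c.D = 1 ∨ c.D = -1

/-- an exponent as an integer vector -/
def zv (m : Fin 3 → ℕ) : Fin 3 → ℤ := fun l => (m l : ℤ)

/-- the interior exponents `(1,1,1) + e_k` of degree 5 -/
def cint : Fin 4 → (Fin 3 → ℤ) := Fin.cons 1 (fun i => 1 + Pi.single i 1)

/-- slope of the function belonging to the `k`-th interior exponent along edge number `i` -/
def slope (i : Fin 3) (k : Fin 4) : ℤ :=
  (zv (c.e 0) + zv (c.t (i + 1)) - cint k) ⬝ᵥ c.w i

/-- the facet number `i` lies in the facet number `j` of the simplex -/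
def InFacet (i : Fin 3) (j : Fin 4) : Prop :=
  (∀ l, hom (dg c.s) (c.e l) j = 0) ∧ ∀ l, l ≠ i → hom (dg (!c.s)) (c.t l) j = 0

/-- the exponents of the cell have degrees at most 2 and 3 -/
def Deg : Prop := (∀ l, ∑ x, c.e l x ≤ dg c.s) ∧ ∀ l, ∑ x, c.t l x ≤ dg (!c.s)

theorem Cell_fin3 : ∀ i j : Fin 3, j ≠ i → j = i + 1 ∨ j = i + 2 := by decide

theorem Cell_fin3' : ∀ i : Fin 3, i + 1 ≠ i := by decide

theorem Cell_fin3'' : ∀ i : Fin 3, i + 2 ≠ i := by decide

theorem Cell_fin3c : ∀ i : Fin 3, i + 2 ≠ i + 1 := by decide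

theorem Cell_cint_dvec : ∀ j k : Fin 4, cint k ⬝ᵥ dvec j =
    (if j = 0 then 4 else -1) - if k = j then 1 else 0 := by decide

theorem Cell_dot (a b : Fin 3 → ℤ) : a ⬝ᵥ b = a 0 * b 0 + a 1 * b 1 + a 2 * b 2 := by
  simp [dotProduct, Fin.sum_univ_three]

theorem Cell_dotR (a b : Fin 3 → ℝ) : a ⬝ᵥ b = a 0 * b 0 + a 1 * b 1 + a 2 * b 2 := by
  simp [dotProduct, Fin.sum_univ_three]

theorem Cell_w0 (i : Fin 3) : c.w i 0 = - c.D * (c.u 1 * c.dt (i + 2) (i + 1) 2 -
    c.u 2 * c.dt (i + 2) (i + 1) 1) := by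
  simp [w, cross_apply]

theorem Cell_w1 (i : Fin 3) : c.w i 1 = - c.D * (c.u 2 * c.dt (i + 2) (i + 1) 0 -
    c.u 0 * c.dt (i + 2) (i + 1) 2) := by
  simp [w, cross_apply]

theorem Cell_w2 (i : Fin 3) : c.w i 2 = - c.D * (c.u 0 * c.dt (i + 2) (i + 1) 1 -
    c.u 1 * c.dt (i + 2) (i + 1) 0) := by
  simp [w, cross_apply]

theorem Cell_D : c.D = c.u 0 * (c.dt 1 0 1 * c.dt 2 0 2 - c.dt 1 0 2 * c.dt 2 0 1) +
    c.u 1 * (c.dt 1 0 2 * c.dt 2 0 0 - c.dt 1 0 0 * c.dt 2 0 2) +
    c.u 2 * (c.dt 1 0 0 * c.dt 2 0 1 - c.dt 1 0 1 * c.dt 2 0 0) := by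
  rw [D, Cell_dot, cross_apply]
  simp

theorem Cell_D2 (hc : c.Uni) : c.D * c.D = 1 := by
  rcases hc with h | h <;> rw [h] <;> norm_num

theorem Cell_Dgen (i : Fin 3) : c.u 0 * (c.dt (i + 1) i 1 * c.dt (i + 2) i 2 -
      c.dt (i + 1) i 2 * c.dt (i + 2) i 1) +
    c.u 1 * (c.dt (i + 1) i 2 * c.dt (i + 2) i 0 - c.dt (i + 1) i 0 * c.dt (i + 2) i 2) +
    c.u 2 * (c.dt (i + 1) i 0 * c.dt (i + 2) i 1 - c.dt (i + 1) i 1 * c.dt (i + 2) i 0) = c.D := by
  rw [Cell_D]
  fin_cases i <;> simp [dt] <;> ring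

theorem w_u (i : Fin 3) : c.w i ⬝ᵥ c.u = 0 := by
  rw [Cell_dot, Cell_w0, Cell_w1, Cell_w2]; ring

theorem w_dt (hc : c.Uni) (i : Fin 3) : c.w i ⬝ᵥ c.dt (i + 2) (i + 1) = 0 := by
  rw [Cell_dot, Cell_w0, Cell_w1, Cell_w2]; ring

theorem w_dt' (hc : c.Uni) (i : Fin 3) : c.w i ⬝ᵥ c.dt i (i + 1) = -1 := by
  have h1 := c.Cell_Dgen i
  have h2 := c.Cell_D2 hc
  rw [Cell_dot, Cell_w0, Cell_w1, Cell_w2]
  have h3 : ∀ l, c.dt (i + 2) (i + 1) l = c.dt (i + 2) i l - c.dt (i + 1) i l := by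
    intro l; simp [dt]
  have h4 : ∀ l, c.dt i (i + 1) l = - c.dt (i + 1) i l := by
    intro l; simp [dt]
  simp only [h3, h4]
  linear_combination (- c.D) * h1 - h2

/-- `w i` is characterised by these properties -/
theorem w_unique (hc : c.Uni) (i : Fin 3) (w : Fin 3 → ℝ)
    (h1 : w ⬝ᵥ (fun l => (c.u l : ℝ)) = 0)
    (h2 : w ⬝ᵥ (fun l => (c.dt (i + 2) (i + 1) l : ℝ)) = 0) :
    ∃ a : ℝ, w = a • (fun l => (c.w i l : ℝ)) := by
  have hD := c.Cell_Dgen i
  have h5 := c.Cell_D2 hc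
  have h3 : ∀ l, c.dt (i + 2) (i + 1) l = c.dt (i + 2) i l - c.dt (i + 1) i l := by
    intro l; simp [dt]
  have e0 := c.Cell_w0 i
  have e1 := c.Cell_w1 i
  have e2 := c.Cell_w2 i
  rw [h3, h3] at e0 e1 e2
  rw [Cell_dotR] at h1 h2
  simp only [h3] at h2
  push_cast at h2
  have hD' := congrArg (Int.cast : ℤ → ℝ) hD
  have h5' := congrArg (Int.cast : ℤ → ℝ) h5
  have e0' := congrArg (Int.cast : ℤ → ℝ) e0
  have e1' := congrArg (Int.cast : ℤ → ℝ) e1
  have e2' := congrArg (Int.cast : ℤ → ℝ) e2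
  push_cast at hD' h5' e0' e1' e2'
  generalize (c.D : ℝ) = D at *
  generalize (c.u 0 : ℝ) = u0 at *
  generalize (c.u 1 : ℝ) = u1 at *
  generalize (c.u 2 : ℝ) = u2 at *
  generalize (c.dt (i + 1) i 0 : ℝ) = a0 at *
  generalize (c.dt (i + 1) i 1 : ℝ) = a1 at *
  generalize (c.dt (i + 1) i 2 : ℝ) = a2 at *
  generalize (c.dt (i + 2) i 0 : ℝ) = b0 at *
  generalize (c.dt (i + 2) i 1 : ℝ) = b1 at *
  generalize (c.dt (i + 2) i 2 : ℝ) = b2 at *
  -- the coefficient is the inner product with `a`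
  refine ⟨w 0 * a0 + w 1 * a1 + w 2 * a2, ?_⟩
  funext l
  fin_cases l
  · simp only [Fin.zero_eta, Fin.isValue, Pi.smul_apply, smul_eq_mul]
    rw [e0']
    linear_combination (-w 0) * h5' + D * (-w 0) * hD' + D * (a1 * b2 - a2 * b1) * h1 +
      D * (u1 * a2 - u2 * a1) * h2
  · simp only [Fin.mk_one, Fin.isValue, Pi.smul_apply, smul_eq_mul]
    rw [e1']
    linear_combination (-w 1) * h5' + D * (-w 1) * hD' + D * (a2 * b0 - a0 * b2) * h1 +
      D * (u2 * a0 - u0 * a2) * h2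
  · simp only [Fin.reduceFinMk, Fin.isValue, Pi.smul_apply, smul_eq_mul]
    rw [e2']
    linear_combination (-w 2) * h5' + D * (-w 2) * hD' + D * (a0 * b1 - a1 * b0) * h1 +
      D * (u0 * a1 - u1 * a0) * h2

theorem sum_w : ∑ i, c.w i = 0 := by
  funext l
  rw [Finset.sum_apply, Fin.sum_univ_three]
  fin_cases l
  · simp only [Fin.zero_eta, Fin.isValue, Pi.zero_apply]
    rw [Cell_w0, Cell_w0, Cell_w0]
    simp [dt]; ring
  · simp only [Fin.mk_one, Fin.isValue, Pi.zero_apply]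
    rw [Cell_w1, Cell_w1, Cell_w1]
    simp [dt]; ring
  · simp only [Fin.reduceFinMk, Fin.isValue, Pi.zero_apply]
    rw [Cell_w2, Cell_w2, Cell_w2]
    simp [dt]; ring

theorem laplace (hc : c.Uni) (k : Fin 4) : ∑ i, c.slope i k = 1 := by
  have hD := c.Cell_D
  have h5 := c.Cell_D2 hc
  have a00 := c.Cell_w0 0
  have a01 := c.Cell_w1 0
  have a02 := c.Cell_w2 0
  have a10 := c.Cell_w0 1
  have a11 := c.Cell_w1 1
  have a12 := c.Cell_w2 1
  have a20 := c.Cell_w0 2
  have a21 := c.Cell_w1 2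
  have a22 := c.Cell_w2 2
  rw [Fin.sum_univ_three]
  simp only [slope, Cell_dot]
  simp only [Pi.add_apply, Pi.sub_apply, zv]
  rw [a00, a01, a02, a10, a11, a12, a20, a21, a22]
  simp only [Fin.isValue, zero_add, Fin.reduceAdd, dt] at *
  linear_combination h5 - c.D * hD

/-- the two cells at the ends of an edge have opposite slopes -/
theorem slope_opp (c' : VCell) (i i' : Fin 3) (hc : c.Uni) (hc' : c'.Uni)
    (hF : ∀ s, c.face i s = c'.face i' s) (hw : c'.w i' = - c.w i) (k : Fin 4) :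
    c'.slope i' k = - c.slope i k := by
  have key : ∀ a ∈ c.face i c.s, ∀ b ∈ c.face i (!c.s),
      (zv a + zv b - cint k) ⬝ᵥ c.w i = c.slope i k := by
    intro a ha b hb
    have h1 : zv a ⬝ᵥ c.w i = zv (c.e 0) ⬝ᵥ c.w i := by
      simp only [face, if_true] at ha
      obtain ⟨l, rfl⟩ := ha
      have := c.w_u i
      rw [Cell_dot] at this
      fin_cases l
      · rfl
      · simp only [u, zv, Cell_dot, Fin.mk_one, Fin.isValue] at this ⊢
        linarith
    have h2 : zv b ⬝ᵥ c.w i = zv (c.t (i + 1)) ⬝ᵥ c.w i := by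
      have hne : (!c.s) ≠ c.s := by cases c.s <;> decide
      simp only [face, hne, if_false] at hb
      obtain ⟨j, hj, rfl⟩ := hb
      have hj' : j = i + 1 ∨ j = i + 2 := Cell_fin3 i j hj
      rcases hj' with rfl | rfl
      · rfl
      · have := c.w_dt hc i
        rw [Cell_dot] at this
        simp only [dt, zv, Cell_dot] at this ⊢
        linarith
    rw [slope, sub_dotProduct, add_dotProduct, sub_dotProduct, add_dotProduct, h1, h2]
  have ha : c'.e 0 ∈ c'.face i' c'.s := by simp [face]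
  have hb : c'.t (i' + 1) ∈ c'.face i' (!c'.s) := by
    have hne : (!c'.s) ≠ c'.s := by cases c'.s <;> decide
    simp only [face, hne, if_false]
    exact ⟨i' + 1, Cell_fin3' i', rfl⟩
  rw [← hF] at ha hb
  rw [slope, hw, dotProduct_neg]
  congr 1
  by_cases h : c'.s = c.s
  · rw [h] at ha hb
    exact key _ ha _ hb
  · have h' : c'.s = !c.s := by
      revert h; cases c'.s <;> cases c.s <;> simp
    rw [h'] at ha hb
    rw [Bool.not_not] at hb
    rw [add_comm (zv (c'.e 0))]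
    exact key _ hb _ ha

theorem Cell_t_inj (hc : c.Uni) : Function.Injective c.t := by
  have h5 := c.Cell_D2 hc
  have h1 : ∀ i, c.t (i + 1) ≠ c.t i := by
    intro i h
    have hD := c.Cell_Dgen i
    have : ∀ l, c.dt (i + 1) i l = 0 := by intro l; simp [dt, h]
    simp only [this] at hD
    have h0 : c.D = 0 := by rw [← hD]; ring
    rw [h0] at h5; norm_num at h5
  have h2 : ∀ i, c.t (i + 2) ≠ c.t i := by
    intro i h
    have hD := c.Cell_Dgen i
    have : ∀ l, c.dt (i + 2) i l = 0 := by intro l; simp [dt, h]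
    simp only [this] at hD
    have h0 : c.D = 0 := by rw [← hD]; ring
    rw [h0] at h5; norm_num at h5
  intro a b hab
  by_contra hne
  rcases Cell_fin3 b a hne with rfl | rfl
  · exact h1 _ hab
  · exact h2 _ hab

theorem Cell_e_ne (hc : c.Uni) : c.e 0 ≠ c.e 1 := by
  intro h
  have h5 := c.Cell_D2 hc
  have hD := c.Cell_D
  have : ∀ l, c.u l = 0 := by intro l; simp [u, h]
  simp only [this] at hD
  have h0 : c.D = 0 := by rw [hD]; ring
  rw [h0] at h5; norm_num at h5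

theorem Cell_w_dt (hc : c.Uni) (i j : Fin 3) (hj : j ≠ i) : c.w i ⬝ᵥ c.dt i j = -1 := by
  rcases Cell_fin3 i j hj with rfl | rfl
  · exact c.w_dt' hc i
  · have h1 := c.w_dt' hc i
    have h2 := c.w_dt hc i
    rw [Cell_dot] at h1 h2 ⊢
    simp only [dt] at h1 h2 ⊢
    linarith

theorem Cell_w_char (hc : c.Uni) (i j j' : Fin 3) (hj : j ≠ i) (hj' : j' ≠ i) (w : Fin 3 → ℤ)
    (hjj : j ≠ j')
    (h1 : w ⬝ᵥ c.u = 0) (h2 : w ⬝ᵥ c.dt j j' = 0) (h3 : w ⬝ᵥ c.dt i j = -1) : w = c.w i := by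
  have h2' : w ⬝ᵥ c.dt (i + 2) (i + 1) = 0 := by
    rw [Cell_dot] at h2 ⊢
    simp only [dt] at h2 ⊢
    rcases Cell_fin3 i j hj with rfl | rfl <;> rcases Cell_fin3 i j' hj' with rfl | rfl
    · exact absurd rfl hjj
    · linarith
    · linarith
    · exact absurd rfl hjj
  rw [Cell_dot] at h1 h2'
  obtain ⟨a, ha⟩ := c.w_unique hc i (fun l => (w l : ℝ))
    (by rw [Cell_dotR]; exact_mod_cast h1) (by rw [Cell_dotR]; exact_mod_cast h2')
  have h4 := c.Cell_w_dt hc i j hj
  rw [Cell_dot] at h3 h4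
  have e0 := congrFun ha 0
  have e1 := congrFun ha 1
  have e2 := congrFun ha 2
  simp only [Pi.smul_apply, smul_eq_mul] at e0 e1 e2
  have h3' := congrArg (Int.cast : ℤ → ℝ) h3
  have h4' := congrArg (Int.cast : ℤ → ℝ) h4
  push_cast at h3' h4'
  rw [e0, e1, e2] at h3'
  have ha1 : a = 1 := by
    linear_combination - h3' + a * h4'
  funext l
  have := congrFun ha l
  simp only [Pi.smul_apply, smul_eq_mul, ha1, one_mul] at this
  exact_mod_cast this

/-- two cells with the same exponents have the same facets and directions, up to order -/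
theorem face_match (c' : VCell) (hc : c.Uni) (hc' : c'.Uni) (hs : c.s = c'.s)
    (he : Set.range c.e = Set.range c'.e) (ht : Set.range c.t = Set.range c'.t) (i' : Fin 3) :
    ∃ i, (∀ s, c.face i s = c'.face i' s) ∧ c.w i = c'.w i' := by
  have hmem : c'.t i' ∈ Set.range c.t := by rw [ht]; exact ⟨i', rfl⟩
  obtain ⟨i, hi⟩ := hmem
  have hset : {m | ∃ j, j ≠ i ∧ m = c.t j} = {m | ∃ j, j ≠ i' ∧ m = c'.t j} := by
    ext m
    constructor
    · rintro ⟨j, hj, rfl⟩
      have : c.t j ∈ Set.range c'.t := by rw [← ht]; exact ⟨j, rfl⟩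
      obtain ⟨j', hj'⟩ := this
      refine ⟨j', ?_, hj'.symm⟩
      rintro rfl
      exact hj (c.Cell_t_inj hc (by rw [hi, hj']))
    · rintro ⟨j, hj, rfl⟩
      have : c'.t j ∈ Set.range c.t := by rw [ht]; exact ⟨j, rfl⟩
      obtain ⟨j', hj'⟩ := this
      refine ⟨j', ?_, hj'.symm⟩
      rintro rfl
      exact hj (c'.Cell_t_inj hc' (by rw [← hi, hj']))
  refine ⟨i, ?_, ?_⟩
  · intro s
    simp only [face, hs, he, hset]
  · symm
    have hm1 : c'.t (i' + 1) ∈ {m | ∃ j, j ≠ i ∧ m = c.t j} := by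
      rw [hset]; exact ⟨i' + 1, Cell_fin3' i', rfl⟩
    have hm2 : c'.t (i' + 2) ∈ {m | ∃ j, j ≠ i ∧ m = c.t j} := by
      rw [hset]; exact ⟨i' + 2, Cell_fin3'' i', rfl⟩
    obtain ⟨j, hj, hj1⟩ := hm1
    obtain ⟨j', hj', hj2⟩ := hm2
    have hjj : j' ≠ j := by
      rintro rfl
      have := c'.Cell_t_inj hc' (hj2.trans hj1.symm)
      exact Cell_fin3c i' this
    refine c.Cell_w_char hc i j j' hj hj' _ hjj.symm ?_ ?_ ?_
    · have h0 : c'.e 0 ∈ Set.range c.e := by rw [he]; exact ⟨0, rfl⟩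
      have h1 : c'.e 1 ∈ Set.range c.e := by rw [he]; exact ⟨1, rfl⟩
      obtain ⟨a, ha⟩ := h0
      obtain ⟨b, hb⟩ := h1
      have hab : a ≠ b := by
        rintro rfl
        exact c'.Cell_e_ne hc' (ha.symm.trans hb)
      have hu := c'.w_u i'
      rw [Cell_dot] at hu ⊢
      simp only [u, ← ha, ← hb] at hu ⊢
      fin_cases a <;> fin_cases b
      · exact absurd rfl hab
      · exact hu
      · simp only [Fin.mk_one, Fin.isValue, Fin.zero_eta] at hu
        linarith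
      · exact absurd rfl hab
    · have h1 := c'.w_dt hc' i'
      rw [Cell_dot] at h1 ⊢
      simp only [dt, hj1, hj2] at h1 ⊢
      linarith
    · have h1 := c'.w_dt' hc' i'
      rw [Cell_dot] at h1 ⊢
      simp only [dt, hj1, ← hi] at h1 ⊢
      exact h1

/-- an edge whose dual cell lies in a facet is a ray in direction `dvec j` -/
theorem Cell_hom (d : ℕ) (m : Fin 3 → ℕ) (hm : ∑ x, m x ≤ d) (j : Fin 4) :
    (hom d m j : ℤ) = (if j = 0 then (d : ℤ) else 0) - zv m ⬝ᵥ dvec j := by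
  rw [Cell_dot]
  rw [Fin.sum_univ_three] at hm
  refine Fin.cases ?_ (fun j => ?_) j
  · simp [hom, dvec, zv, Fin.sum_univ_three]
    omega
  · simp only [hom, dvec, Fin.cons_succ, Fin.succ_ne_zero, if_false, zv]
    fin_cases j <;> simp

theorem ray_dir (hc : c.Uni) (hd : c.Deg) (i : Fin 3) (j : Fin 4) (h : c.InFacet i j) :
    c.w i = dvec j := by
  obtain ⟨h1, h2⟩ := h
  have a0 := Cell_hom _ _ (hd.1 0) j
  have a1 := Cell_hom _ _ (hd.1 1) j
  have b0 := Cell_hom _ _ (hd.2 i) j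
  have b1 := Cell_hom _ _ (hd.2 (i + 1)) j
  have b2 := Cell_hom _ _ (hd.2 (i + 2)) j
  rw [h1 0] at a0
  rw [h1 1] at a1
  rw [h2 _ (Cell_fin3' i)] at b1
  rw [h2 _ (Cell_fin3'' i)] at b2
  rw [Cell_dot] at a0 a1 b0 b1 b2
  simp only [zv] at a0 a1 b0 b1 b2
  obtain ⟨a, ha⟩ := c.w_unique hc i (fun l => (dvec j l : ℝ))
    (by
      rw [Cell_dotR]
      simp only [u]
      have : (dvec j 0 * ((c.e 1 0 : ℤ) - c.e 0 0) + dvec j 1 * ((c.e 1 1 : ℤ) - c.e 0 1) +
        dvec j 2 * ((c.e 1 2 : ℤ) - c.e 0 2)) = 0 := by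
        linear_combination a1 - a0
      exact_mod_cast this)
    (by
      rw [Cell_dotR]
      simp only [dt]
      have : (dvec j 0 * ((c.t (i + 2) 0 : ℤ) - c.t (i + 1) 0) +
        dvec j 1 * ((c.t (i + 2) 1 : ℤ) - c.t (i + 1) 1) +
        dvec j 2 * ((c.t (i + 2) 2 : ℤ) - c.t (i + 1) 2)) = 0 := by
        linear_combination b2 - b1
      exact_mod_cast this)
  -- the inner product of `dvec j` with `t i - t (i+1)` is `- hom (t i) j`
  set H : ℤ := (hom (dg (!c.s)) (c.t i) j : ℤ) with hH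
  have hH0 : 0 ≤ H := by rw [hH]; exact Int.natCast_nonneg _
  have hdH : dvec j 0 * ((c.t i 0 : ℤ) - c.t (i + 1) 0) +
      dvec j 1 * ((c.t i 1 : ℤ) - c.t (i + 1) 1) +
      dvec j 2 * ((c.t i 2 : ℤ) - c.t (i + 1) 2) = - H := by
    linear_combination b0 - b1
  have hw := c.w_dt' hc i
  rw [Cell_dot] at hw
  simp only [dt] at hw
  have e0 := congrFun ha 0
  have e1 := congrFun ha 1
  have e2 := congrFun ha 2
  simp only [Pi.smul_apply, smul_eq_mul] at e0 e1 e2
  have hw' := congrArg (Int.cast : ℤ → ℝ) hw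
  have hdH' := congrArg (Int.cast : ℤ → ℝ) hdH
  push_cast at hw' hdH'
  rw [e0, e1, e2] at hdH'
  have haH : a = H := by
    linear_combination - hdH' + a * hw'
  -- the vector `dvec j` is primitive
  have hint : ∀ l, dvec j l = H * c.w i l := by
    intro l
    have := congrFun ha l
    simp only [Pi.smul_apply, smul_eq_mul, haH] at this
    exact_mod_cast this
  have hH1 : H = 1 := by
    have hdvd : ∃ l, dvec j l = 1 ∨ dvec j l = -1 := by
      refine Fin.cases ?_ (fun j => ?_) j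
      · exact ⟨0, Or.inl (by simp [dvec])⟩
      · exact ⟨j, Or.inr (by simp [dvec])⟩
    obtain ⟨l, hl⟩ := hdvd
    have hl2 := hint l
    rcases hl with hl | hl
    · rw [hl] at hl2
      exact Int.eq_one_of_dvd_one hH0 ⟨_, hl2⟩
    · rw [hl] at hl2
      exact Int.eq_one_of_dvd_one hH0 ⟨- c.w i l, by linarith⟩
  funext l
  rw [hint l, hH1, one_mul]

theorem ray_slope (hc : c.Uni) (hd : c.Deg) (i : Fin 3) (j : Fin 4) (h : c.InFacet i j)
    (k : Fin 4) : c.slope i k = 1 + if k = j then 1 else 0 := by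
  have hw := c.ray_dir hc hd i j h
  obtain ⟨h1, h2⟩ := h
  have a0 := Cell_hom _ _ (hd.1 0) j
  have b1 := Cell_hom _ _ (hd.2 (i + 1)) j
  rw [h1 0] at a0
  rw [h2 _ (Cell_fin3' i)] at b1
  rw [slope, hw, sub_dotProduct, add_dotProduct]
  have hdd : (dg c.s : ℤ) + dg (!c.s) = 5 := by
    cases c.s <;> simp [dg]
  rw [Cell_cint_dvec]
  by_cases hj : j = 0
  · simp only [hj, if_true] at a0 b1 ⊢
    push_cast at a0 b1
    linarith
  · simp only [hj, if_false] at a0 b1 ⊢
    push_cast at a0 b1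
    linarith

end VCell

end Pool.Agent.H40.TS
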