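import Pool.Agent.H40.TS.Trap

/-! # The finite check: no sprawling cell

The check is a boolean function on six exponents, run by the kernel over all pairs and triples up to
order; the statement is invariant under reordering of the cell.
-/

set_option autoImplicit false

namespace Pool.Agent.H40.TS

open Matrix

/-- the exponents of the facet number `i` of the cell `c`, first those of `p`, then those of `q` -/
def VCell.corner (c : VCell) (i : Fin 3) (s : Bool) (l : Fin 2) : Fin 3 → ℕ :=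
  if s = c.s then c.e l else (if l = 0 then c.t (i + 1) else c.t (i + 2))

/-- the conclusion of the check -/
def Check_Good (c : VCell) : Prop :=
    ∃ i, (∃ j, c.InFacet i j) ∨
      ((∀ k, 1 ≤ c.slope i k) ∧ ∃ J : Finset (Fin 4), J ≠ Finset.univ ∧
        TrapCond (c.corner i false 0) (c.corner i false 1) (c.corner i true 0)
          (c.corner i true 1) J ∧
        ∃ a : Fin 4 → ℕ, (∀ j, j ∉ J → a j = 0) ∧ c.w i = ∑ j, (a j : ℤ) • dvec j)

/-! ### Invariance -/

theorem Check_uniq_swap1 {a a' b b' : Fin 3 → ℕ} {J : Finset (Fin 4)} (h : Uniq a a' b b' J) :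
    Uniq a' a b b' J := by
  unfold Uniq at *
  tauto

theorem Check_uniq_swap2 {a a' b b' : Fin 3 → ℕ} {J : Finset (Fin 4)} (h : Uniq a a' b b' J) :
    Uniq a a' b' b J := by
  unfold Uniq at *
  tauto

theorem Check_trap_swap1 {a a' b b' : Fin 3 → ℕ} {J : Finset (Fin 4)}
    (h : TrapCond a a' b b' J) : TrapCond a' a b b' J := by
  rcases h with ⟨h1, h2⟩ | ⟨h1, h2, h3⟩
  · exact Or.inl ⟨h1, fun J' h h' => Check_uniq_swap1 (h2 J' h h')⟩
  · refine Or.inr ⟨h1, ?_, fun j hj => Check_uniq_swap1 (h3 j hj)⟩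
    tauto

theorem Check_trap_swap2 {a a' b b' : Fin 3 → ℕ} {J : Finset (Fin 4)}
    (h : TrapCond a a' b b' J) : TrapCond a a' b' b J := by
  rcases h with ⟨h1, h2⟩ | ⟨h1, h2, h3⟩
  · exact Or.inl ⟨h1, fun J' h h' => Check_uniq_swap2 (h2 J' h h')⟩
  · refine Or.inr ⟨h1, ?_, fun j hj => Check_uniq_swap2 (h3 j hj)⟩
    tauto

theorem Check_fin3 : ∀ i j : Fin 3, j ≠ i ↔ j = i + 1 ∨ j = i + 2 := by decide

theorem Check_fin2 : ∀ l : Fin 2, l = 0 ∨ l = 1 := by decide

theorem Check_face (c : VCell) (i : Fin 3) (s : Bool) :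
    c.face i s = {c.corner i s 0, c.corner i s 1} := by
  by_cases h : s = c.s
  · ext m
    simp only [VCell.face, VCell.corner, h, if_true, Set.mem_range, Set.mem_insert_iff,
      Set.mem_singleton_iff]
    constructor
    · rintro ⟨l, rfl⟩
      rcases Check_fin2 l with rfl | rfl
      · exact Or.inl rfl
      · exact Or.inr rfl
    · rintro (rfl | rfl)
      · exact ⟨0, rfl⟩
      · exact ⟨1, rfl⟩
  · ext m
    simp only [VCell.face, VCell.corner, h, if_false, Set.mem_setOf_eq, Set.mem_insert_iff,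
      Set.mem_singleton_iff, Fin.isValue, if_true, one_ne_zero]
    constructor
    · rintro ⟨j, hj, rfl⟩
      rcases (Check_fin3 i j).1 hj with rfl | rfl
      · exact Or.inl rfl
      · exact Or.inr rfl
    · rintro (rfl | rfl)
      · exact ⟨i + 1, (Check_fin3 _ _).2 (Or.inl rfl), rfl⟩
      · exact ⟨i + 2, (Check_fin3 _ _).2 (Or.inr rfl), rfl⟩

theorem Check_pair {α : Type} {x y x' y' : α} (h : ({x, y} : Set α) = {x', y'}) :
    (x = x' ∧ y = y') ∨ (x = y' ∧ y = x') := by
  rwa [Set.pair_eq_pair_iff] at h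

theorem Check_inFacet (c : VCell) (i : Fin 3) (j : Fin 4) : c.InFacet i j ↔
    ∀ s, ∀ m ∈ c.face i s, hom (dg s) m j = 0 := by
  constructor
  · rintro ⟨h1, h2⟩ s m hm
    by_cases h : s = c.s
    · subst h
      simp only [VCell.face, if_true] at hm
      obtain ⟨l, rfl⟩ := hm
      exact h1 l
    · have h' : s = !c.s := by revert h; cases s <;> cases c.s <;> simp
      simp only [VCell.face, h, if_false] at hm
      obtain ⟨l, hl, rfl⟩ := hm
      rw [h']
      exact h2 l hl
  · intro h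
    have hne : (!c.s) ≠ c.s := by cases c.s <;> decide
    refine ⟨fun l => h c.s _ ?_, fun l hl => h (!c.s) _ ?_⟩
    · simp only [VCell.face, if_true]; exact ⟨l, rfl⟩
    · simp only [VCell.face, hne, if_false]; exact ⟨l, hl, rfl⟩

theorem Check_slope_eq (c : VCell) (hc : c.Uni) (i : Fin 3) (k : Fin 4) :
    ∀ a ∈ c.face i false, ∀ b ∈ c.face i true,
      (VCell.zv a + VCell.zv b - VCell.cint k) ⬝ᵥ c.w i = c.slope i k := by
  have key : ∀ a ∈ c.face i c.s, ∀ b ∈ c.face i (!c.s),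
      (VCell.zv a + VCell.zv b - VCell.cint k) ⬝ᵥ c.w i = c.slope i k := by
    intro a ha b hb
    have h1 : VCell.zv a ⬝ᵥ c.w i = VCell.zv (c.e 0) ⬝ᵥ c.w i := by
      simp only [VCell.face, if_true] at ha
      obtain ⟨l, rfl⟩ := ha
      have := c.w_u i
      rw [VCell.Cell_dot] at this
      fin_cases l
      · rfl
      · simp only [VCell.u, VCell.zv, VCell.Cell_dot, Fin.mk_one, Fin.isValue] at this ⊢
        linarith
    have h2 : VCell.zv b ⬝ᵥ c.w i = VCell.zv (c.t (i + 1)) ⬝ᵥ c.w i := by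
      have hne : (!c.s) ≠ c.s := by cases c.s <;> decide
      simp only [VCell.face, hne, if_false] at hb
      obtain ⟨j, hj, rfl⟩ := hb
      rcases (Check_fin3 i j).1 hj with rfl | rfl
      · rfl
      · have := c.w_dt hc i
        rw [VCell.Cell_dot] at this
        simp only [VCell.dt, VCell.zv, VCell.Cell_dot] at this ⊢
        linarith
    rw [VCell.slope, sub_dotProduct, add_dotProduct, sub_dotProduct, add_dotProduct, h1, h2]
  intro a ha b hb
  cases hs : c.s
  · rw [hs] at key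
    exact key a ha b hb
  · rw [hs] at key
    rw [add_comm (VCell.zv a)]
    exact key b hb a ha

theorem Check_transfer (c c' : VCell) (hc : c.Uni) (hc' : c'.Uni) (hs : c.s = c'.s)
    (he : Set.range c.e = Set.range c'.e) (ht : Set.range c.t = Set.range c'.t)
    (h : Check_Good c') : Check_Good c := by
  obtain ⟨i', h⟩ := h
  obtain ⟨i, hf, hw⟩ := c.face_match c' hc hc' hs he ht i'
  refine ⟨i, ?_⟩
  rcases h with ⟨j, hj⟩ | ⟨hk, J, hJ, hT, a, ha, hwa⟩
  · left
    refine ⟨j, ?_⟩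
    rw [Check_inFacet] at hj ⊢
    intro s m hm
    rw [hf] at hm
    exact hj s m hm
  · right
    refine ⟨?_, J, hJ, ?_, a, ha, by rw [hw, hwa]⟩
    · intro k
      have h1 := Check_slope_eq c hc i k (c.corner i false 0) (by rw [Check_face]; simp)
        (c.corner i true 0) (by rw [Check_face]; simp)
      have h2 := Check_slope_eq c' hc' i' k (c.corner i false 0)
        (by rw [← hf, Check_face]; simp) (c.corner i true 0) (by rw [← hf, Check_face]; simp)
      rw [hw, h2] at h1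
      rw [← h1]
      exact hk k
    · have hF := hf false
      have hF' := hf true
      rw [Check_face, Check_face] at hF hF'
      rcases Check_pair hF with ⟨h1, h2⟩ | ⟨h1, h2⟩ <;>
        rcases Check_pair hF' with ⟨h3, h4⟩ | ⟨h3, h4⟩ <;> rw [h1, h2, h3, h4]
      · exact hT
      · exact Check_trap_swap2 hT
      · exact Check_trap_swap1 hT
      · exact Check_trap_swap1 (Check_trap_swap2 hT)

theorem Check_dvec : dvec = ![![1, 1, 1], ![-1, 0, 0], ![0, -1, 0], ![0, 0, -1]] := by decide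

theorem Check_cint : VCell.cint = ![![1, 1, 1], ![2, 1, 1], ![1, 2, 1], ![1, 1, 2]] := by decide

/-- the direction in terms of the slopes -/
theorem Check_w_eq (c : VCell) (i : Fin 3) (s0 : ℤ) :
    c.w i = ∑ j, (c.slope i j - s0) • dvec j := by
  have h0 : ∀ k, c.slope i k = (VCell.zv (c.e 0) + VCell.zv (c.t (i + 1))) ⬝ᵥ c.w i -
      VCell.cint k ⬝ᵥ c.w i := fun k => by rw [VCell.slope, sub_dotProduct]
  simp only [h0]
  generalize (VCell.zv (c.e 0) + VCell.zv (c.t (i + 1))) ⬝ᵥ c.w i = b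
  generalize c.w i = w
  funext l
  rw [Finset.sum_apply, Fin.sum_univ_four]
  simp only [VCell.Cell_dot _ w, Check_cint, Check_dvec]
  fin_cases l <;> simp <;> ring

/-! ### The boolean check -/

/-- exponents as triples -/
def Check_toF (m : ℕ × ℕ × ℕ) : Fin 3 → ℕ := ![m.1, m.2.1, m.2.2]

/-- homogeneous coordinates -/
def Check_h (d : ℕ) (m : ℕ × ℕ × ℕ) : ℕ → ℕ
  | 0 => d - (m.1 + m.2.1 + m.2.2)
  | 1 => m.1
  | 2 => m.2.1
  | _ => m.2.2

theorem Check_h_eq (d : ℕ) (m : ℕ × ℕ × ℕ) (j : Fin 4) :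
    hom d (Check_toF m) j = Check_h d m j.val := by
  refine Fin.cases ?_ (fun j => ?_) j
  · simp [hom, Check_toF, Check_h, Fin.sum_univ_three]
  · fin_cases j <;> simp [hom, Check_toF, Check_h]

/-- all coordinates in the list vanish -/
def Check_z (d : ℕ) (m : ℕ × ℕ × ℕ) (J : List ℕ) : Bool := J.all fun j => Check_h d m j == 0

def Check_u (a a' b b' : ℕ × ℕ × ℕ) (J : List ℕ) : Bool :=
  (Check_z 2 a J != Check_z 2 a' J) || (Check_z 3 b J != Check_z 3 b' J)

def Check_t3 (a a' b b' : ℕ × ℕ × ℕ) (x y z : ℕ) : Bool :=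
  Check_u a a' b b' [x] && Check_u a a' b b' [y] && Check_u a a' b b' [z] &&
  Check_u a a' b b' [x, y] && Check_u a a' b b' [x, z] && Check_u a a' b b' [y, z]

def Check_t2 (a a' b b' : ℕ × ℕ × ℕ) (x y : ℕ) : Bool :=
  ((Check_z 2 a [x, y] && Check_z 2 a' [x, y]) || (Check_z 3 b [x, y] && Check_z 3 b' [x, y])) &&
  Check_u a a' b b' [x] && Check_u a a' b b' [y]


theorem Check_z_iff (d : ℕ) (m : ℕ × ℕ × ℕ) (J : List ℕ) (F : Finset (Fin 4))
    (h1 : ∀ n ∈ J, ∃ j ∈ F, j.val = n) (h2 : ∀ j ∈ F, j.val ∈ J) :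
    Check_z d m J = true ↔ ZeroOn d (Check_toF m) F := by
  unfold Check_z ZeroOn
  rw [List.all_eq_true]
  constructor
  · intro h j hj
    rw [Check_h_eq]
    exact beq_iff_eq.1 (h _ (h2 j hj))
  · intro h n hn
    obtain ⟨j, hj, rfl⟩ := h1 n hn
    have := h j hj
    rw [Check_h_eq] at this
    exact beq_iff_eq.2 this

theorem Check_u_sound (a a' b b' : ℕ × ℕ × ℕ) (J : List ℕ) (F : Finset (Fin 4))
    (h1 : ∀ n ∈ J, ∃ j ∈ F, j.val = n) (h2 : ∀ j ∈ F, j.val ∈ J)
    (h : Check_u a a' b b' J = true) :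
    Uniq (Check_toF a) (Check_toF a') (Check_toF b) (Check_toF b') F := by
  unfold Uniq
  rw [← Check_z_iff 2 a J F h1 h2, ← Check_z_iff 2 a' J F h1 h2, ← Check_z_iff 3 b J F h1 h2,
    ← Check_z_iff 3 b' J F h1 h2]
  unfold Check_u at h
  revert h
  cases Check_z 2 a J <;> cases Check_z 2 a' J <;> cases Check_z 3 b J <;>
    cases Check_z 3 b' J <;> simp

theorem Check_t3_sound (a a' b b' : ℕ × ℕ × ℕ) (x y z : Fin 4) (hxy : x ≠ y) (hxz : x ≠ z)
    (hyz : y ≠ z) (h : Check_t3 a a' b b' x y z = true) :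
    TrapCond (Check_toF a) (Check_toF a') (Check_toF b) (Check_toF b') {x, y, z} := by
  unfold Check_t3 at h
  simp only [Bool.and_eq_true] at h
  obtain ⟨⟨⟨⟨⟨hx, hy⟩, hz⟩, hxy'⟩, hxz'⟩, hyz'⟩ := h
  left
  refine ⟨by rw [Finset.card_eq_three]; exact ⟨x, y, z, hxy, hxz, hyz, rfl⟩, ?_⟩
  have hcases : ∀ J' : Finset (Fin 4), J' ⊂ {x, y, z} → J'.Nonempty →
      J' = {x} ∨ J' = {y} ∨ J' = {z} ∨ J' = {x, y} ∨ J' = {x, z} ∨ J' = {y, z} := by
    clear hx hy hz hxy' hxz' hyz'
    revert x y z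
    decide
  intro J' h1 h2
  rcases hcases J' h1 h2 with rfl | rfl | rfl | rfl | rfl | rfl
  · exact Check_u_sound _ _ _ _ _ _ (by simp) (by simp) hx
  · exact Check_u_sound _ _ _ _ _ _ (by simp) (by simp) hy
  · exact Check_u_sound _ _ _ _ _ _ (by simp) (by simp) hz
  · exact Check_u_sound _ _ _ _ _ _ (by simp) (by simp) hxy'
  · exact Check_u_sound _ _ _ _ _ _ (by simp) (by simp) hxz'
  · exact Check_u_sound _ _ _ _ _ _ (by simp) (by simp) hyz'

theorem Check_t2_sound (a a' b b' : ℕ × ℕ × ℕ) (x y : Fin 4) (hxy : x ≠ y)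
    (h : Check_t2 a a' b b' x y = true) :
    TrapCond (Check_toF a) (Check_toF a') (Check_toF b) (Check_toF b') {x, y} := by
  unfold Check_t2 at h
  simp only [Bool.and_eq_true, Bool.or_eq_true] at h
  obtain ⟨⟨h1, hx⟩, hy⟩ := h
  right
  refine ⟨Finset.card_pair hxy, ?_, ?_⟩
  · have hz : ∀ d m, Check_z d m [x.val, y.val] = true ↔ ZeroOn d (Check_toF m) {x, y} :=
      fun d m => Check_z_iff d m _ _ (by simp) (by simp)
    rwa [hz, hz, hz, hz] at h1
  · intro j hj
    rw [Finset.mem_insert, Finset.mem_singleton] at hj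
    rcases hj with rfl | rfl
    · exact Check_u_sound _ _ _ _ _ _ (by simp) (by simp) hx
    · exact Check_u_sound _ _ _ _ _ _ (by simp) (by simp) hy

theorem Check_witness (c : VCell) (i : Fin 3) (J : Finset (Fin 4)) (k0 : Fin 4) (hk0 : k0 ∉ J)
    (h1 : ∀ j, c.slope i k0 ≤ c.slope i j) (h2 : ∀ j, j ∉ J → c.slope i j = c.slope i k0)
    (hpos : 1 ≤ c.slope i k0)
    (hT : TrapCond (c.corner i false 0) (c.corner i false 1) (c.corner i true 0)
          (c.corner i true 1) J) : Check_Good c := by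
  refine ⟨i, Or.inr ⟨fun k => hpos.trans (h1 k), J, ?_, hT,
    fun j => (c.slope i j - c.slope i k0).toNat, ?_, ?_⟩⟩
  · rintro rfl
    exact hk0 (Finset.mem_univ _)
  · intro j hj
    simp only [h2 j hj, sub_self]; rfl
  · rw [Check_w_eq c i (c.slope i k0)]
    refine Finset.sum_congr rfl fun j _ => ?_
    rw [Int.toNat_of_nonneg (sub_nonneg.2 (h1 j))]

/-- inner product of triples -/
def Check_dt (a b : ℤ × ℤ × ℤ) : ℤ := a.1 * b.1 + a.2.1 * b.2.1 + a.2.2 * b.2.2

/-- cross product of triples -/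
def Check_cr (a b : ℤ × ℤ × ℤ) : ℤ × ℤ × ℤ :=
  (a.2.1 * b.2.2 - a.2.2 * b.2.1, a.2.2 * b.1 - a.1 * b.2.2, a.1 * b.2.1 - a.2.1 * b.1)

/-- difference of exponents -/
def Check_sb (a b : ℕ × ℕ × ℕ) : ℤ × ℤ × ℤ :=
  ((a.1 : ℤ) - b.1, (a.2.1 : ℤ) - b.2.1, (a.2.2 : ℤ) - b.2.2)

/-- the test of the trap with given slopes -/
def Check_tr (a a' b b' : ℕ × ℕ × ℕ) (p0 p1 p2 p3 : ℤ) : Bool :=
  (decide (1 ≤ p3 ∧ p3 ≤ p0 ∧ p3 ≤ p1 ∧ p3 ≤ p2) && Check_t3 a a' b b' 0 1 2) ||
  (decide (1 ≤ p2 ∧ p2 ≤ p0 ∧ p2 ≤ p1 ∧ p2 ≤ p3) && Check_t3 a a' b b' 0 1 3) ||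
  (decide (1 ≤ p1 ∧ p1 ≤ p0 ∧ p1 ≤ p2 ∧ p1 ≤ p3) && Check_t3 a a' b b' 0 2 3) ||
  (decide (1 ≤ p0 ∧ p0 ≤ p1 ∧ p0 ≤ p2 ∧ p0 ≤ p3) && Check_t3 a a' b b' 1 2 3) ||
  (decide (1 ≤ p2 ∧ p2 = p3 ∧ p2 ≤ p0 ∧ p2 ≤ p1) && Check_t2 a a' b b' 0 1) ||
  (decide (1 ≤ p1 ∧ p1 = p3 ∧ p1 ≤ p0 ∧ p1 ≤ p2) && Check_t2 a a' b b' 0 2) ||
  (decide (1 ≤ p1 ∧ p1 = p2 ∧ p1 ≤ p0 ∧ p1 ≤ p3) && Check_t2 a a' b b' 0 3) ||
  (decide (1 ≤ p0 ∧ p0 = p3 ∧ p0 ≤ p1 ∧ p0 ≤ p2) && Check_t2 a a' b b' 1 2) ||
  (decide (1 ≤ p0 ∧ p0 = p2 ∧ p0 ≤ p1 ∧ p0 ≤ p3) && Check_t2 a a' b b' 1 3) ||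
  (decide (1 ≤ p0 ∧ p0 = p1 ∧ p0 ≤ p2 ∧ p0 ≤ p3) && Check_t2 a a' b b' 2 3)

theorem Check_tr_sound (c : VCell) (i : Fin 3) (a a' b b' : ℕ × ℕ × ℕ)
    (ha : c.corner i false 0 = Check_toF a) (ha' : c.corner i false 1 = Check_toF a')
    (hb : c.corner i true 0 = Check_toF b) (hb' : c.corner i true 1 = Check_toF b')
    (h : Check_tr a a' b b' (c.slope i 0) (c.slope i 1) (c.slope i 2) (c.slope i 3) = true) :
    Check_Good c := by
  unfold Check_tr at h
  simp only [Bool.or_eq_true, Bool.and_eq_true, decide_eq_true_eq] at h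
  have h4 : ∀ {P : Fin 4 → Prop}, P 0 → P 1 → P 2 → P 3 → ∀ j, P j := by
    intro P h0 h1 h2 h3 j
    fin_cases j
    · exact h0
    · exact h1
    · exact h2
    · exact h3
  rcases h with ((((((((h | h) | h) | h) | h) | h) | h) | h) | h) | h
  · refine Check_witness c i {0, 1, 2} 3 (by decide) (h4 (by omega) (by omega) (by omega) (by omega))
      (h4 (fun hh => absurd (by decide) hh) (fun hh => absurd (by decide) hh) (fun hh => absurd (by decide) hh) (fun _ => rfl)) (by omega) ?_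
    rw [ha, ha', hb, hb']
    exact Check_t3_sound _ _ _ _ 0 1 2 (by decide) (by decide) (by decide) h.2
  · refine Check_witness c i {0, 1, 3} 2 (by decide) (h4 (by omega) (by omega) (by omega) (by omega))
      (h4 (fun hh => absurd (by decide) hh) (fun hh => absurd (by decide) hh) (fun _ => rfl) (fun hh => absurd (by decide) hh)) (by omega) ?_
    rw [ha, ha', hb, hb']
    exact Check_t3_sound _ _ _ _ 0 1 3 (by decide) (by decide) (by decide) h.2
  · refine Check_witness c i {0, 2, 3} 1 (by decide) (h4 (by omega) (by omega) (by omega) (by omega))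
      (h4 (fun hh => absurd (by decide) hh) (fun _ => rfl) (fun hh => absurd (by decide) hh) (fun hh => absurd (by decide) hh)) (by omega) ?_
    rw [ha, ha', hb, hb']
    exact Check_t3_sound _ _ _ _ 0 2 3 (by decide) (by decide) (by decide) h.2
  · refine Check_witness c i {1, 2, 3} 0 (by decide) (h4 (by omega) (by omega) (by omega) (by omega))
      (h4 (fun _ => rfl) (fun hh => absurd (by decide) hh) (fun hh => absurd (by decide) hh) (fun hh => absurd (by decide) hh)) (by omega) ?_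
    rw [ha, ha', hb, hb']
    exact Check_t3_sound _ _ _ _ 1 2 3 (by decide) (by decide) (by decide) h.2
  · refine Check_witness c i {0, 1} 2 (by decide) (h4 (by omega) (by omega) (by omega) (by omega))
      (h4 (fun hh => absurd (by decide) hh) (fun hh => absurd (by decide) hh) (fun _ => rfl) (fun _ => by omega)) (by omega) ?_
    rw [ha, ha', hb, hb']
    exact Check_t2_sound _ _ _ _ 0 1 (by decide) h.2
  · refine Check_witness c i {0, 2} 1 (by decide) (h4 (by omega) (by omega) (by omega) (by omega))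
      (h4 (fun hh => absurd (by decide) hh) (fun _ => rfl) (fun hh => absurd (by decide) hh) (fun _ => by omega)) (by omega) ?_
    rw [ha, ha', hb, hb']
    exact Check_t2_sound _ _ _ _ 0 2 (by decide) h.2
  · refine Check_witness c i {0, 3} 1 (by decide) (h4 (by omega) (by omega) (by omega) (by omega))
      (h4 (fun hh => absurd (by decide) hh) (fun _ => rfl) (fun _ => by omega) (fun hh => absurd (by decide) hh)) (by omega) ?_
    rw [ha, ha', hb, hb']
    exact Check_t2_sound _ _ _ _ 0 3 (by decide) h.2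
  · refine Check_witness c i {1, 2} 0 (by decide) (h4 (by omega) (by omega) (by omega) (by omega))
      (h4 (fun _ => rfl) (fun hh => absurd (by decide) hh) (fun hh => absurd (by decide) hh) (fun _ => by omega)) (by omega) ?_
    rw [ha, ha', hb, hb']
    exact Check_t2_sound _ _ _ _ 1 2 (by decide) h.2
  · refine Check_witness c i {1, 3} 0 (by decide) (h4 (by omega) (by omega) (by omega) (by omega))
      (h4 (fun _ => rfl) (fun hh => absurd (by decide) hh) (fun _ => by omega) (fun hh => absurd (by decide) hh)) (by omega) ?_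
    rw [ha, ha', hb, hb']
    exact Check_t2_sound _ _ _ _ 1 3 (by decide) h.2
  · refine Check_witness c i {2, 3} 0 (by decide) (h4 (by omega) (by omega) (by omega) (by omega))
      (h4 (fun _ => rfl) (fun _ => by omega) (fun hh => absurd (by decide) hh) (fun hh => absurd (by decide) hh)) (by omega) ?_
    rw [ha, ha', hb, hb']
    exact Check_t2_sound _ _ _ _ 2 3 (by decide) h.2

/-- the test of one facet: `e0, e1` of the polynomial `s`, `x, y` of the other one -/
def Check_germ (s : Bool) (D : ℤ) (u : ℤ × ℤ × ℤ) (e0 e1 x y : ℕ × ℕ × ℕ) : Bool :=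
  ([0, 1, 2, 3].any fun j => Check_h (dg s) e0 j == 0 && Check_h (dg s) e1 j == 0 &&
    Check_h (dg (!s)) x j == 0 && Check_h (dg (!s)) y j == 0) ||
  (let w := Check_cr u (Check_sb y x)
   let b := - D * (Check_dt ((e0.1 : ℤ) + x.1 - 1, (e0.2.1 : ℤ) + x.2.1 - 1,
    (e0.2.2 : ℤ) + x.2.2 - 1) w)
   if s then Check_tr x y e0 e1 b (b + D * w.1) (b + D * w.2.1) (b + D * w.2.2)
   else Check_tr e0 e1 x y b (b + D * w.1) (b + D * w.2.1) (b + D * w.2.2))

/-- the test of one cell -/
def Check_cell (s : Bool) (e0 e1 t0 t1 t2 : ℕ × ℕ × ℕ) : Bool :=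
  let u := Check_sb e1 e0
  let D := Check_dt u (Check_cr (Check_sb t1 t0) (Check_sb t2 t0))
  if D = 1 ∨ D = -1 then
    Check_germ s D u e0 e1 t1 t2 || Check_germ s D u e0 e1 t2 t0 || Check_germ s D u e0 e1 t0 t1
  else true

/-- the cell with given exponents -/
def Check_mk (s : Bool) (e0 e1 t0 t1 t2 : ℕ × ℕ × ℕ) : VCell :=
  ⟨s, ![Check_toF e0, Check_toF e1], ![Check_toF t0, Check_toF t1, Check_toF t2]⟩

theorem Check_D (s : Bool) (e0 e1 t0 t1 t2 : ℕ × ℕ × ℕ) :
    (Check_mk s e0 e1 t0 t1 t2).D =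
      Check_dt (Check_sb e1 e0) (Check_cr (Check_sb t1 t0) (Check_sb t2 t0)) := by
  rw [VCell.Cell_D]
  simp [Check_mk, VCell.u, VCell.dt, Check_toF, Check_dt, Check_sb, Check_cr]

theorem Check_germ_sound (c : VCell) (i : Fin 3) (e0 e1 x y : ℕ × ℕ × ℕ)
    (h0 : c.e 0 = Check_toF e0) (h1 : c.e 1 = Check_toF e1)
    (hx : c.t (i + 1) = Check_toF x) (hy : c.t (i + 2) = Check_toF y)
    (h : Check_germ c.s c.D (Check_sb e1 e0) e0 e1 x y = true) : Check_Good c := by
  unfold Check_germ at h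
  rw [Bool.or_eq_true] at h
  rcases h with h | h
  · rw [List.any_eq_true] at h
    obtain ⟨j, hj, h⟩ := h
    have hj4 : j < 4 := by
      simp only [List.mem_cons, List.not_mem_nil, or_false] at hj
      omega
    simp only [Bool.and_eq_true, beq_iff_eq] at h
    refine ⟨i, Or.inl ⟨⟨j, hj4⟩, ?_, ?_⟩⟩
    · intro l
      rcases Check_fin2 l with rfl | rfl
      · rw [h0, Check_h_eq]; exact h.1.1.1
      · rw [h1, Check_h_eq]; exact h.1.1.2
    · intro l hl
      rcases (Check_fin3 i l).1 hl with rfl | rfl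
      · rw [hx, Check_h_eq]; exact h.1.2
      · rw [hy, Check_h_eq]; exact h.2
  · have hsl : ∀ k, c.slope i k = (VCell.zv (c.e 0) + VCell.zv (c.t (i + 1))) ⬝ᵥ c.w i -
        VCell.cint k ⬝ᵥ c.w i := fun k => by rw [VCell.slope, sub_dotProduct]
    have hu : ∀ l, c.u l = (Check_toF e1 l : ℤ) - Check_toF e0 l := by
      intro l; simp only [VCell.u, h0, h1]
    have hd : ∀ l, c.dt (i + 2) (i + 1) l = (Check_toF y l : ℤ) - Check_toF x l := by
      intro l; simp only [VCell.dt, hx, hy]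
    have e0' := c.Cell_w0 i
    have e1' := c.Cell_w1 i
    have e2' := c.Cell_w2 i
    simp only [hu, hd] at e0' e1' e2'
    simp only [Check_toF, cons_val_zero, cons_val_one, Fin.isValue, cons_val] at e0' e1' e2'
    set b : ℤ := - c.D * (Check_dt ((e0.1 : ℤ) + x.1 - 1, (e0.2.1 : ℤ) + x.2.1 - 1,
      (e0.2.2 : ℤ) + x.2.2 - 1) (Check_cr (Check_sb e1 e0) (Check_sb y x))) with hb
    have s0 : c.slope i 0 = b := by
      rw [hsl, Check_cint, h0, hx, add_dotProduct, VCell.Cell_dot, VCell.Cell_dot, VCell.Cell_dot,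
        e0', e1', e2', hb]
      simp [VCell.zv, Check_toF, Check_dt, Check_cr, Check_sb]
      ring
    have s1 : c.slope i 1 = b + c.D * (Check_cr (Check_sb e1 e0) (Check_sb y x)).1 := by
      rw [hsl, Check_cint, h0, hx, add_dotProduct, VCell.Cell_dot, VCell.Cell_dot, VCell.Cell_dot,
        e0', e1', e2', hb]
      simp [VCell.zv, Check_toF, Check_dt, Check_cr, Check_sb]
      ring
    have s2 : c.slope i 2 = b + c.D * (Check_cr (Check_sb e1 e0) (Check_sb y x)).2.1 := by
      rw [hsl, Check_cint, h0, hx, add_dotProduct, VCell.Cell_dot, VCell.Cell_dot, VCell.Cell_dot,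
        e0', e1', e2', hb]
      simp [VCell.zv, Check_toF, Check_dt, Check_cr, Check_sb]
      ring
    have s3 : c.slope i 3 = b + c.D * (Check_cr (Check_sb e1 e0) (Check_sb y x)).2.2 := by
      rw [hsl, Check_cint, h0, hx, add_dotProduct, VCell.Cell_dot, VCell.Cell_dot, VCell.Cell_dot,
        e0', e1', e2', hb]
      simp [VCell.zv, Check_toF, Check_dt, Check_cr, Check_sb]
      ring
    cases hs : c.s
    · rw [hs] at h
      simp only [Bool.false_eq_true, if_false] at h
      rw [← hb, ← s1, ← s2, ← s3, ← s0] at h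
      refine Check_tr_sound c i e0 e1 x y ?_ ?_ ?_ ?_ h
      · simp [VCell.corner, hs, h0]
      · simp [VCell.corner, hs, h1]
      · simp [VCell.corner, hs, hx]
      · simp [VCell.corner, hs, hy]
    · rw [hs] at h
      simp only [if_true] at h
      rw [← hb, ← s1, ← s2, ← s3, ← s0] at h
      refine Check_tr_sound c i x y e0 e1 ?_ ?_ ?_ ?_ h
      · simp [VCell.corner, hs, hx]
      · simp [VCell.corner, hs, hy]
      · simp [VCell.corner, hs, h0]
      · simp [VCell.corner, hs, h1]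

theorem Check_cell_sound (s : Bool) (e0 e1 t0 t1 t2 : ℕ × ℕ × ℕ)
    (hu : (Check_mk s e0 e1 t0 t1 t2).Uni) (h : Check_cell s e0 e1 t0 t1 t2 = true) :
    Check_Good (Check_mk s e0 e1 t0 t1 t2) := by
  unfold Check_cell at h
  have hD := Check_D s e0 e1 t0 t1 t2
  unfold VCell.Uni at hu
  rw [hD] at hu
  simp only [hu, if_true] at h
  rw [← hD] at h
  simp only [Bool.or_eq_true] at h
  rcases h with (h | h) | h
  · exact Check_germ_sound _ 0 e0 e1 t1 t2 rfl rfl rfl rfl h
  · exact Check_germ_sound _ 1 e0 e1 t2 t0 rfl rfl rfl rfl h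
  · exact Check_germ_sound _ 2 e0 e1 t0 t1 rfl rfl rfl rfl h

/-! ### The loops -/

/-- all pairs of different entries, in the order of the list -/
def Check_pairs {α : Type} (p : α → α → Bool) : List α → Bool
  | [] => true
  | a :: l => l.all (p a) && Check_pairs p l

/-- all triples of entries, in the order of the list -/
def Check_triples {α : Type} (p : α → α → α → Bool) : List α → Bool
  | [] => true
  | a :: l => Check_pairs (p a) l && Check_triples p l

theorem Check_pairs_sound {α : Type} (p : α → α → Bool) (l : List α) (h : Check_pairs p l = true)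
    (a b : α) (ha : a ∈ l) (hb : b ∈ l) (hab : a ≠ b) : p a b = true ∨ p b a = true := by
  induction l with
  | nil => simp at ha
  | cons x l ih =>
    simp only [Check_pairs, Bool.and_eq_true, List.all_eq_true] at h
    rw [List.mem_cons] at ha hb
    rcases ha with rfl | ha <;> rcases hb with rfl | hb
    · exact absurd rfl hab
    · exact Or.inl (h.1 _ hb)
    · exact Or.inr (h.1 _ ha)
    · exact ih h.2 ha hb

theorem Check_triples_sound {α : Type} (p : α → α → α → Bool) (l : List α)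
    (h : Check_triples p l = true) (a b c : α) (ha : a ∈ l) (hb : b ∈ l) (hc : c ∈ l)
    (hab : a ≠ b) (hac : a ≠ c) (hbc : b ≠ c) :
    p a b c = true ∨ p a c b = true ∨ p b a c = true ∨ p b c a = true ∨ p c a b = true ∨
      p c b a = true := by
  induction l with
  | nil => simp at ha
  | cons x l ih =>
    simp only [Check_triples, Bool.and_eq_true] at h
    rw [List.mem_cons] at ha hb hc
    rcases ha with rfl | ha
    · have hb' : b ∈ l := hb.resolve_left (Ne.symm hab)
      have hc' : c ∈ l := hc.resolve_left (Ne.symm hac)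
      rcases Check_pairs_sound _ _ h.1 b c hb' hc' hbc with h1 | h1 <;> tauto
    · rcases hb with rfl | hb
      · have hc' : c ∈ l := hc.resolve_left (Ne.symm hbc)
        rcases Check_pairs_sound _ _ h.1 a c ha hc' hac with h1 | h1 <;> tauto
      · rcases hc with rfl | hc
        · rcases Check_pairs_sound _ _ h.1 a b ha hb hab with h1 | h1 <;> tauto
        · exact ih h.2 ha hb hc

/-- the exponents of degree at most `d` -/
def Check_L (d : ℕ) : List (ℕ × ℕ × ℕ) :=
  (List.range (d + 1)).flatMap fun x => (List.range (d + 1 - x)).flatMap fun y =>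
    (List.range (d + 1 - x - y)).map fun z => (x, y, z)

theorem Check_mem_L (d : ℕ) (m : Fin 3 → ℕ) (h : ∑ x, m x ≤ d) :
    (m 0, m 1, m 2) ∈ Check_L d := by
  rw [Fin.sum_univ_three] at h
  unfold Check_L
  simp only [List.mem_flatMap, List.mem_range, List.mem_map]
  exact ⟨m 0, by omega, m 1, by omega, m 2, by omega, rfl⟩

theorem Check_toF_eq (m : Fin 3 → ℕ) : Check_toF (m 0, m 1, m 2) = m := by
  funext l
  fin_cases l <;> rfl

/-- `e + t` lies in the boundary -/
def Check_bd (s : Bool) (e t : ℕ × ℕ × ℕ) : Bool :=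
  [0, 1, 2, 3].any fun j => Check_h (dg s) e j == 0 && Check_h (dg (!s)) t j == 0

/-- the whole check -/
def Check_all (s : Bool) : Bool :=
  Check_pairs (fun e0 e1 => Check_triples (fun t0 t1 t2 => Check_cell s e0 e1 t0 t1 t2)
    ((Check_L (dg (!s))).filter fun t => Check_bd s e0 t && Check_bd s e1 t)) (Check_L (dg s))

theorem Check_all_false : Check_all false = true := by decide +kernel

theorem Check_all_true : Check_all true = true := by decide +kernel

/-- a cell with the exponents of `c` in another order -/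
theorem Check_reorder (c : VCell) (hu : c.Uni) (f0 f1 x0 x1 x2 : Fin 3 → ℕ)
    (he : Set.range c.e = {f0, f1}) (ht : Set.range c.t = {x0, x1, x2})
    (hx : x0 ≠ x1) (hx' : x0 ≠ x2) (hx'' : x1 ≠ x2) (hf : f0 ≠ f1)
    (h : Check_cell c.s (f0 0, f0 1, f0 2) (f1 0, f1 1, f1 2) (x0 0, x0 1, x0 2)
      (x1 0, x1 1, x1 2) (x2 0, x2 1, x2 2) = true) : Check_Good c := by
  set c' := Check_mk c.s (f0 0, f0 1, f0 2) (f1 0, f1 1, f1 2) (x0 0, x0 1, x0 2)
    (x1 0, x1 1, x1 2) (x2 0, x2 1, x2 2) with hc'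
  have e0 : c'.e 0 = f0 := Check_toF_eq f0
  have e1 : c'.e 1 = f1 := Check_toF_eq f1
  have t0 : c'.t 0 = x0 := Check_toF_eq x0
  have t1 : c'.t 1 = x1 := Check_toF_eq x1
  have t2 : c'.t 2 = x2 := Check_toF_eq x2
  have he' : Set.range c.e = Set.range c'.e := by
    rw [he]
    ext m
    simp only [Set.mem_insert_iff, Set.mem_singleton_iff, Set.mem_range]
    constructor
    · rintro (rfl | rfl)
      · exact ⟨0, e0⟩
      · exact ⟨1, e1⟩
    · rintro ⟨l, rfl⟩
      rcases Check_fin2 l with rfl | rfl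
      · exact Or.inl e0
      · exact Or.inr e1
  have ht' : Set.range c.t = Set.range c'.t := by
    rw [ht]
    ext m
    simp only [Set.mem_insert_iff, Set.mem_singleton_iff, Set.mem_range]
    constructor
    · rintro (rfl | rfl | rfl)
      · exact ⟨0, t0⟩
      · exact ⟨1, t1⟩
      · exact ⟨2, t2⟩
    · rintro ⟨l, rfl⟩
      fin_cases l
      · exact Or.inl t0
      · exact Or.inr (Or.inl t1)
      · exact Or.inr (Or.inr t2)
  have hu' : c'.Uni := by
    -- both determinants agree up to sign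
    have hme : ∀ l, c'.e l ∈ Set.range c.e := fun l => by rw [he']; exact ⟨l, rfl⟩
    have hmt : ∀ l, c'.t l ∈ Set.range c.t := fun l => by rw [ht']; exact ⟨l, rfl⟩
    choose a ha using hme
    choose b hb using hmt
    have hab : a 0 ≠ a 1 := by
      intro h; apply hf; rw [← e0, ← e1, ← ha 0, ← ha 1, h]
    have hb01 : b 0 ≠ b 1 := by
      intro h; apply hx; rw [← t0, ← t1, ← hb 0, ← hb 1, h]
    have hb02 : b 0 ≠ b 2 := by
      intro h; apply hx'; rw [← t0, ← t2, ← hb 0, ← hb 2, h]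
    have hb12 : b 1 ≠ b 2 := by
      intro h; apply hx''; rw [← t1, ← t2, ← hb 1, ← hb 2, h]
    have hu2 : ∀ l, c'.u l = (c.e (a 1) l : ℤ) - c.e (a 0) l := by
      intro l; simp only [VCell.u, ← ha]
    have hd2 : ∀ i j l, c'.dt i j l = (c.t (b i) l : ℤ) - c.t (b j) l := by
      intro i j l; simp only [VCell.dt, ← hb]
    have hD := c.Cell_D
    have hD' := c'.Cell_D
    simp only [hu2, hd2] at hD'
    simp only [VCell.u, VCell.dt] at hD
    generalize a 0 = a0 at *
    generalize a 1 = a1 at *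
    generalize b 0 = b0 at *
    generalize b 1 = b1 at *
    generalize b 2 = b2 at *
    have hDD : c'.D = c.D ∨ c'.D = - c.D := by
      rw [hD, hD']
      clear hD hD' hu2 hd2 ha hb
      have ha01 : (a0 = 0 ∧ a1 = 1) ∨ (a0 = 1 ∧ a1 = 0) := by
        revert hab; revert a0 a1; decide
      have hb' : (b0 = 0 ∧ b1 = 1 ∧ b2 = 2) ∨ (b0 = 0 ∧ b1 = 2 ∧ b2 = 1) ∨
          (b0 = 1 ∧ b1 = 0 ∧ b2 = 2) ∨ (b0 = 1 ∧ b1 = 2 ∧ b2 = 0) ∨
          (b0 = 2 ∧ b1 = 0 ∧ b2 = 1) ∨ (b0 = 2 ∧ b1 = 1 ∧ b2 = 0) := by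
        revert hb01 hb02 hb12; revert b0 b1 b2; decide
      rcases ha01 with ⟨rfl, rfl⟩ | ⟨rfl, rfl⟩ <;>
        rcases hb' with ⟨rfl, rfl, rfl⟩ | ⟨rfl, rfl, rfl⟩ | ⟨rfl, rfl, rfl⟩ | ⟨rfl, rfl, rfl⟩ |
          ⟨rfl, rfl, rfl⟩ | ⟨rfl, rfl, rfl⟩ <;>
        first
        | exact Or.inl rfl
        | exact Or.inl (by ring1)
        | exact Or.inr (by ring1)
    rcases hu with h1 | h1 <;> rcases hDD with h2 | h2
    · left; rw [h2, h1]
    · right; rw [h2, h1]
    · right; rw [h2, h1]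
    · left; rw [h2, h1]; norm_num
  exact Check_transfer c c' hu hu' rfl he' ht' (Check_cell_sound _ _ _ _ _ _ hu' h)

/-- For a cell whose six sums of exponents all lie in the boundary, one of the three edges is a
ray or is a trap with positive slopes. -/
theorem sprawl_check (c : VCell) (hu : c.Uni) (hd : c.Deg)
    (hb : ∀ l l', ∃ j, hom (dg c.s) (c.e l) j = 0 ∧ hom (dg (!c.s)) (c.t l') j = 0) :
    ∃ i, (∃ j, c.InFacet i j) ∨
      ((∀ k, 1 ≤ c.slope i k) ∧ ∃ J : Finset (Fin 4), J ≠ Finset.univ ∧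
        TrapCond (c.corner i false 0) (c.corner i false 1) (c.corner i true 0)
          (c.corner i true 1) J ∧
        ∃ a : Fin 4 → ℕ, (∀ j, j ∉ J → a j = 0) ∧ c.w i = ∑ j, (a j : ℤ) • dvec j) := by
  change Check_Good c
  have hall : Check_all c.s = true := by
    cases c.s
    · exact Check_all_false
    · exact Check_all_true
  unfold Check_all at hall
  have hE : ∀ l, (c.e l 0, c.e l 1, c.e l 2) ∈ Check_L (dg c.s) := fun l =>
    Check_mem_L _ _ (hd.1 l)
  have hinj : ∀ f g : Fin 3 → ℕ, (f 0, f 1, f 2) = (g 0, g 1, g 2) → f = g := by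
    intro f g h
    rw [← Check_toF_eq f, ← Check_toF_eq g, h]
  have he := c.Cell_e_ne hu
  have htinj := c.Cell_t_inj hu
  have hbd : ∀ l l', Check_bd c.s (c.e l 0, c.e l 1, c.e l 2) (c.t l' 0, c.t l' 1, c.t l' 2) = true := by
    intro l l'
    obtain ⟨j, h1, h2⟩ := hb l l'
    rw [← Check_toF_eq (c.e l), Check_h_eq] at h1
    rw [← Check_toF_eq (c.t l'), Check_h_eq] at h2
    unfold Check_bd
    rw [List.any_eq_true]
    refine ⟨j.val, ?_, by rw [h1, h2]; rfl⟩
    have := j.isLt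
    simp only [List.mem_cons, List.not_mem_nil, or_false]
    omega
  have hre : Set.range c.e = {c.e 0, c.e 1} := by
    ext m
    simp only [Set.mem_insert_iff, Set.mem_singleton_iff, Set.mem_range]
    constructor
    · rintro ⟨l, rfl⟩
      rcases Check_fin2 l with rfl | rfl
      · exact Or.inl rfl
      · exact Or.inr rfl
    · rintro (rfl | rfl)
      · exact ⟨0, rfl⟩
      · exact ⟨1, rfl⟩
  have hrt : Set.range c.t = {c.t 0, c.t 1, c.t 2} := by
    ext m
    simp only [Set.mem_insert_iff, Set.mem_singleton_iff, Set.mem_range]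
    constructor
    · rintro ⟨l, rfl⟩
      fin_cases l
      · exact Or.inl rfl
      · exact Or.inr (Or.inl rfl)
      · exact Or.inr (Or.inr rfl)
    · rintro (rfl | rfl | rfl)
      · exact ⟨0, rfl⟩
      · exact ⟨1, rfl⟩
      · exact ⟨2, rfl⟩
  have ht01 : c.t 0 ≠ c.t 1 := fun h => absurd (htinj h) (by decide)
  have ht02 : c.t 0 ≠ c.t 2 := fun h => absurd (htinj h) (by decide)
  have ht12 : c.t 1 ≠ c.t 2 := fun h => absurd (htinj h) (by decide)
  -- the loop over the triples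
  have key : ∀ f0 f1 : Fin 3 → ℕ, Set.range c.e = {f0, f1} → f0 ≠ f1 →
      (∀ l', Check_bd c.s (f0 0, f0 1, f0 2) (c.t l' 0, c.t l' 1, c.t l' 2) = true) →
      (∀ l', Check_bd c.s (f1 0, f1 1, f1 2) (c.t l' 0, c.t l' 1, c.t l' 2) = true) →
      Check_triples (fun t0 t1 t2 => Check_cell c.s (f0 0, f0 1, f0 2) (f1 0, f1 1, f1 2) t0 t1 t2)
        ((Check_L (dg (!c.s))).filter fun t => Check_bd c.s (f0 0, f0 1, f0 2) t &&
          Check_bd c.s (f1 0, f1 1, f1 2) t) = true → Check_Good c := by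
    intro f0 f1 hf hne hb0 hb1 h
    have hT : ∀ l, (c.t l 0, c.t l 1, c.t l 2) ∈ (Check_L (dg (!c.s))).filter fun t =>
        Check_bd c.s (f0 0, f0 1, f0 2) t && Check_bd c.s (f1 0, f1 1, f1 2) t := by
      intro l
      rw [List.mem_filter]
      exact ⟨Check_mem_L _ _ (hd.2 l), by rw [hb0, hb1]; rfl⟩
    rcases Check_triples_sound _ _ h _ _ _ (hT 0) (hT 1) (hT 2) (fun h => ht01 (hinj _ _ h))
      (fun h => ht02 (hinj _ _ h)) (fun h => ht12 (hinj _ _ h)) with h | h | h | h | h | h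
    · exact Check_reorder c hu f0 f1 _ _ _ hf hrt ht01 ht02 ht12 hne h
    · exact Check_reorder c hu f0 f1 _ _ _ hf (by rw [hrt, Set.pair_comm (c.t 1)]) ht02 ht01
        ht12.symm hne h
    · exact Check_reorder c hu f0 f1 _ _ _ hf (by rw [hrt, Set.insert_comm]) ht01.symm ht12 ht02
        hne h
    · exact Check_reorder c hu f0 f1 _ _ _ hf
        (by rw [hrt, Set.insert_comm, Set.pair_comm (c.t 0)]) ht12 ht01.symm ht02.symm hne h
    · exact Check_reorder c hu f0 f1 _ _ _ hf
        (by rw [hrt, Set.pair_comm (c.t 1), Set.insert_comm]) ht02.symm ht12.symm ht01 hne h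
    · exact Check_reorder c hu f0 f1 _ _ _ hf
        (by rw [hrt, Set.insert_comm, Set.pair_comm (c.t 0), Set.insert_comm]) ht12.symm
        ht02.symm ht01.symm hne h
  rcases Check_pairs_sound _ _ hall _ _ (hE 0) (hE 1) (fun h => he (hinj _ _ h)) with h | h
  · exact key _ _ hre he (hbd 0) (hbd 1) h
  · exact key _ _ (by rw [hre, Set.pair_comm]) he.symm (hbd 1) (hbd 0) h

end Pool.Agent.H40.TS
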