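import Mathlib

/-!
# Two counting lemmas for trivalent graphs with rays (job TS-COUNT)

`exists_ray`: sum `laplace` over `x ∈ S`: `∑_{x ∈ S} ∑_i slope x i k = |S|`.  Internal germs (those
leading to `u ∈ S`) cancel in pairs (involution `(x, i) ↦ (u, i')`, well defined by `sym` and
`simple`), the germ from `y` to `v` contributes `- slope v i0 k ≤ -1` and occurs exactly once (by
`sym` there is `i'` with `nb y i' = some v`, unique by `simple`), the rays contribute
`(number R of rays of S) + (number R_k of rays in direction k)`.  So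
`|S| = - slope v i0 k + R + R_k ≤ -1 + R + R_k`.  The number of germs is
`3 |S| = (internal) + 1 + R` and `internal ≥ 2 |S|`, so `R ≤ |S| - 1` and `R_k ≥ 2 > 0`.
`parity`: suppose `has v i0`.  The number of pairs `(x, i)` with `x ∈ S`, `has x i` is even (0 or 2 for
each `x`, `two`).  By `sym` and `simple` the internal pairs are matched by a fixed point free
involution (`irrefl`), so their number is even.  No pair is a ray; the only remaining pair is the
germ from `y` to `v`, which belongs to `has` by `sym`.  So the number is odd.  Contradiction.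
-/

set_option autoImplicit false

namespace Pool.Agent.H40.TS

open Classical in
/-- The germs of the side `S`: internal ones cancel, one leads to `v`, the others are rays. -/
theorem Count_sum {V R : Type} [AddCommGroup R] (nb : V → Fin 3 → Option V) (S : Finset V)
    (v y : V) (i1 : Fin 3) (F : V → Fin 3 → R)
    (sym : ∀ x ∈ S, ∀ i, ∀ u ∈ S, nb x i = some u →
      ∃ i', nb u i' = some x ∧ F x i + F u i' = 0)
    (simple : ∀ x ∈ S, ∀ i i' u, nb x i = some u → nb x i' = some u → i = i')
    (irrefl : ∀ x ∈ S, ∀ i, nb x i ≠ some x)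
    (hv : v ∉ S) (hy : y ∈ S) (h1 : nb y i1 = some v)
    (hcl : ∀ x ∈ S, ∀ i u, nb x i = some u → u ∈ S ∨ (x = y ∧ u = v)) :
    ∑ x ∈ S, ∑ i, F x i = F y i1 +
      ∑ z ∈ (S ×ˢ (Finset.univ : Finset (Fin 3))).filter (fun z => nb z.1 z.2 = none),
        F z.1 z.2 := by
  rw [← Finset.sum_product' S Finset.univ F]
  rw [← Finset.sum_filter_add_sum_filter_not (S ×ˢ (Finset.univ : Finset (Fin 3)))
    (fun z => ∃ u ∈ S, nb z.1 z.2 = some u)]
  have hA : ∑ z ∈ (S ×ˢ (Finset.univ : Finset (Fin 3))).filter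
      (fun z => ∃ u ∈ S, nb z.1 z.2 = some u), F z.1 z.2 = 0 := by
    have key : ∀ z ∈ (S ×ˢ (Finset.univ : Finset (Fin 3))).filter
      (fun z => ∃ u ∈ S, nb z.1 z.2 = some u), ∃ z' : V × Fin 3,
        z'.1 ∈ S ∧ nb z.1 z.2 = some z'.1 ∧ nb z'.1 z'.2 = some z.1 ∧
        F z.1 z.2 + F z'.1 z'.2 = 0 := by
      intro z hz
      rw [Finset.mem_filter, Finset.mem_product] at hz
      obtain ⟨⟨hz1, _⟩, u, hu, hzu⟩ := hz
      obtain ⟨i', h2, h3⟩ := sym z.1 hz1 z.2 u hu hzu
      exact ⟨(u, i'), hu, hzu, h2, h3⟩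
    choose g hg1 hg2 hg3 hg4 using key
    refine Finset.sum_involution (fun z hz => g z hz) (fun z hz => hg4 z hz) ?_ ?_ ?_
    · intro z hz _ h
      have h2 := hg2 z hz
      rw [h] at h2
      rw [Finset.mem_filter, Finset.mem_product] at hz
      exact irrefl z.1 hz.1.1 z.2 h2
    · intro z hz
      rw [Finset.mem_filter, Finset.mem_product]
      refine ⟨⟨hg1 z hz, Finset.mem_univ _⟩, z.1, ?_, hg3 z hz⟩
      rw [Finset.mem_filter, Finset.mem_product] at hz
      exact hz.1.1
    · intro z hz
      have hmem : g z hz ∈ (S ×ˢ (Finset.univ : Finset (Fin 3))).filter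
          (fun z => ∃ u ∈ S, nb z.1 z.2 = some u) := by
        rw [Finset.mem_filter, Finset.mem_product]
        refine ⟨⟨hg1 z hz, Finset.mem_univ _⟩, z.1, ?_, hg3 z hz⟩
        rw [Finset.mem_filter, Finset.mem_product] at hz
        exact hz.1.1
      have e1 := hg2 (g z hz) hmem
      rw [hg3 z hz] at e1
      have e2 : z.1 = (g (g z hz) hmem).1 := Option.some.inj e1
      have e3 := hg3 (g z hz) hmem
      rw [← e2] at e3
      have hz' := hz
      rw [Finset.mem_filter, Finset.mem_product] at hz'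
      have e4 := simple z.1 hz'.1.1 _ _ _ (hg2 z hz) e3
      exact Prod.ext e2.symm e4.symm
  rw [hA, zero_add]
  have hmemB : (y, i1) ∈ (S ×ˢ (Finset.univ : Finset (Fin 3))).filter
      (fun z => ¬ ∃ u ∈ S, nb z.1 z.2 = some u) := by
    rw [Finset.mem_filter, Finset.mem_product]
    refine ⟨⟨hy, Finset.mem_univ _⟩, ?_⟩
    rintro ⟨u, hu, h⟩
    simp only at h
    rw [h1] at h
    exact hv (Option.some.inj h ▸ hu)
  rw [← Finset.add_sum_erase _ _ hmemB]
  congr 1
  refine Finset.sum_congr ?_ fun _ _ => rfl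
  ext z
  rw [Finset.mem_erase, Finset.mem_filter, Finset.mem_filter, Finset.mem_product]
  constructor
  · rintro ⟨hne, hz, hn⟩
    refine ⟨hz, ?_⟩
    rcases hnb : nb z.1 z.2 with _ | u
    · rfl
    · exfalso
      rcases hcl z.1 hz.1 z.2 u hnb with h | ⟨h2, h3⟩
      · exact hn ⟨u, h, hnb⟩
      · apply hne
        rw [h3, h2] at hnb
        exact Prod.ext h2 (simple y hy _ _ _ hnb h1)
  · rintro ⟨hz, hn⟩
    refine ⟨?_, hz, ?_⟩
    · rintro rfl
      simp only at hn
      rw [h1] at hn
      exact absurd hn (by simp)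
    · rintro ⟨u, _, h⟩
      rw [hn] at h
      exact absurd h (by simp)

open Classical in
/-- Counting slopes on the side `S` of a bridge: if the side contains a cycle (in the form
`hcount`) and the slope of the `k`-th function into the side is positive, then the side contains a
ray in direction `k`. -/
theorem exists_ray {V : Type} (nb : V → Fin 3 → Option V) (slope : V → Fin 3 → Fin 4 → ℤ)
    (rayDir : V → Fin 3 → Fin 4) (S : Finset V) (v y : V) (i0 : Fin 3)
    (laplace : ∀ x ∈ S, ∀ k, ∑ i, slope x i k = 1)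
    (sym : ∀ x ∈ insert v S, ∀ i, ∀ u ∈ insert v S, nb x i = some u →
      ∃ i', nb u i' = some x ∧ ∀ k, slope u i' k = - slope x i k)
    (simple : ∀ x ∈ insert v S, ∀ i i' u, nb x i = some u → nb x i' = some u → i = i')
    (irrefl : ∀ x ∈ S, ∀ i, nb x i ≠ some x)
    (ray : ∀ x ∈ S, ∀ i, nb x i = none → ∀ k, slope x i k = 1 + if k = rayDir x i then 1 else 0)
    (hv : v ∉ S) (hy : y ∈ S) (h0 : nb v i0 = some y)
    (hcl : ∀ x ∈ S, ∀ i u, nb x i = some u → u ∈ S ∨ (x = y ∧ u = v))
    (hcount : 2 * S.card ≤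
      ((S ×ˢ (Finset.univ : Finset (Fin 3))).filter
        (fun z => ∃ u ∈ S, nb z.1 z.2 = some u)).card)
    (k : Fin 4) (hk : 1 ≤ slope v i0 k) :
    ∃ x ∈ S, ∃ i, nb x i = none ∧ rayDir x i = k := by
  obtain ⟨i1, h1, h1'⟩ := sym v (Finset.mem_insert_self _ _) i0 y (Finset.mem_insert_of_mem hy) h0
  have hsimple : ∀ x ∈ S, ∀ i i' u, nb x i = some u → nb x i' = some u → i = i' :=
    fun x hx => simple x (Finset.mem_insert_of_mem hx)
  have hsum := Count_sum nb S v y i1 (fun x i => slope x i k)
    (fun x hx i u hu h => by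
      obtain ⟨i', h2, h3⟩ := sym x (Finset.mem_insert_of_mem hx) i u (Finset.mem_insert_of_mem hu) h
      exact ⟨i', h2, by simp only [h3, add_neg_cancel]⟩)
    hsimple irrefl hv hy h1 hcl
  have hL : ∑ x ∈ S, ∑ i, slope x i k = S.card := by
    rw [Finset.sum_congr rfl fun x hx => laplace x hx k]
    simp
  set C := (S ×ˢ (Finset.univ : Finset (Fin 3))).filter (fun z => nb z.1 z.2 = none) with hC
  have hCs : ∑ z ∈ C, slope z.1 z.2 k = (C.card : ℤ) +
      (C.filter (fun z => k = rayDir z.1 z.2)).card := by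
    have e1 : ∑ z ∈ C, slope z.1 z.2 k = ∑ z ∈ C, (1 + if k = rayDir z.1 z.2 then (1 : ℤ) else 0) := by
      refine Finset.sum_congr rfl fun z hz => ?_
      rw [hC, Finset.mem_filter, Finset.mem_product] at hz
      exact ray z.1 hz.1.1 z.2 hz.2 k
    rw [e1, Finset.sum_add_distrib, Finset.sum_boole]
    simp
  have hcard : (3 * S.card : ℤ) = 1 + C.card +
      ((S ×ˢ (Finset.univ : Finset (Fin 3))).filter (fun z => ∃ u ∈ S, nb z.1 z.2 = some u)).card := by
    have hpart : S ×ˢ (Finset.univ : Finset (Fin 3)) = insert (y, i1) (C ∪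
        (S ×ˢ (Finset.univ : Finset (Fin 3))).filter (fun z => ∃ u ∈ S, nb z.1 z.2 = some u)) := by
      ext z
      rw [Finset.mem_insert, Finset.mem_union, hC, Finset.mem_filter, Finset.mem_filter,
        Finset.mem_product]
      constructor
      · intro hz
        rcases hnb : nb z.1 z.2 with _ | u
        · exact Or.inr (Or.inl ⟨hz, rfl⟩)
        · rcases hcl z.1 hz.1 z.2 u hnb with h | ⟨h2, h3⟩
          · exact Or.inr (Or.inr ⟨hz, u, h, rfl⟩)
          · left
            rw [h3, h2] at hnb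
            exact Prod.ext h2 (hsimple y hy _ _ _ hnb h1)
      · rintro (rfl | h | h)
        · exact ⟨hy, Finset.mem_univ _⟩
        · exact h.1
        · exact h.1
    have hc1 : (S ×ˢ (Finset.univ : Finset (Fin 3))).card = 3 * S.card := by
      rw [Finset.card_product, Finset.card_univ, Fintype.card_fin, mul_comm]
    have hnot : (y, i1) ∉ C ∪ (S ×ˢ (Finset.univ : Finset (Fin 3))).filter
        (fun z => ∃ u ∈ S, nb z.1 z.2 = some u) := by
      rw [Finset.mem_union, hC, Finset.mem_filter, Finset.mem_filter]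
      simp only [h1]
      rintro (⟨_, h⟩ | ⟨_, u, hu, h⟩)
      · exact absurd h (by simp)
      · exact hv (Option.some.inj h ▸ hu)
    have hdisj : Disjoint C ((S ×ˢ (Finset.univ : Finset (Fin 3))).filter
        (fun z => ∃ u ∈ S, nb z.1 z.2 = some u)) := by
      rw [Finset.disjoint_left]
      intro z hz hz'
      rw [hC, Finset.mem_filter] at hz
      rw [Finset.mem_filter] at hz'
      obtain ⟨_, u, _, h⟩ := hz'
      rw [hz.2] at h
      exact absurd h (by simp)
    have := congrArg Finset.card hpart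
    rw [hc1, Finset.card_insert_of_notMem hnot, Finset.card_union_of_disjoint hdisj] at this
    have h2 := congrArg (Nat.cast : ℕ → ℤ) this
    push_cast at h2
    linarith
  have hpos : 0 < (C.filter (fun z => k = rayDir z.1 z.2)).card := by
    rw [hL, hCs, h1'] at hsum
    have h3 : (2 * S.card : ℤ) ≤ ((S ×ˢ (Finset.univ : Finset (Fin 3))).filter
      (fun z => ∃ u ∈ S, nb z.1 z.2 = some u)).card := by exact_mod_cast hcount
    omega
  rw [Finset.card_pos] at hpos
  obtain ⟨z, hz⟩ := hpos
  rw [Finset.mem_filter, hC, Finset.mem_filter, Finset.mem_product] at hz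
  exact ⟨z.1, hz.1.1.1, z.2, hz.1.2, hz.2.symm⟩

open Classical in
/-- Parity: if every vertex meeting the cycle set `has` meets it in exactly two germs, none of
which is a ray, then the bridge `v - y` does not belong to it. -/
theorem parity {V : Type} (nb : V → Fin 3 → Option V) (has : V → Fin 3 → Prop) (S : Finset V)
    (v y : V) (i0 : Fin 3)
    (sym : ∀ x ∈ insert v S, ∀ i, ∀ u ∈ insert v S, nb x i = some u →
      ∃ i', nb u i' = some x ∧ (has x i ↔ has u i'))
    (simple : ∀ x ∈ insert v S, ∀ i i' u, nb x i = some u → nb x i' = some u → i = i')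
    (irrefl : ∀ x ∈ S, ∀ i, nb x i ≠ some x)
    (two : ∀ x ∈ S, (∃ i, has x i) → (Finset.univ.filter (has x)).card = 2)
    (notray : ∀ x ∈ S, ∀ i, has x i → nb x i ≠ none)
    (hv : v ∉ S) (hy : y ∈ S) (h0 : nb v i0 = some y)
    (hcl : ∀ x ∈ S, ∀ i u, nb x i = some u → u ∈ S ∨ (x = y ∧ u = v)) : ¬ has v i0 := by
  intro hhas
  obtain ⟨i1, h1, h1'⟩ := sym v (Finset.mem_insert_self _ _) i0 y (Finset.mem_insert_of_mem hy) h0
  have hsum := Count_sum nb S v y i1 (fun x i => if has x i then (1 : ZMod 2) else 0)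
    (fun x hx i u hu h => by
      obtain ⟨i', h2, h3⟩ := sym x (Finset.mem_insert_of_mem hx) i u (Finset.mem_insert_of_mem hu) h
      refine ⟨i', h2, ?_⟩
      simp only [h3]
      split_ifs <;> decide)
    (fun x hx => simple x (Finset.mem_insert_of_mem hx)) irrefl hv hy h1 hcl
  have hL : ∑ x ∈ S, ∑ i, (if has x i then (1 : ZMod 2) else 0) = 0 := by
    refine Finset.sum_eq_zero fun x hx => ?_
    by_cases hex : ∃ i, has x i
    · rw [Finset.sum_boole, two x hx hex]
      decide
    · push Not at hex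
      exact Finset.sum_eq_zero fun i _ => by rw [if_neg (hex i)]
  have hR : ∑ z ∈ (S ×ˢ (Finset.univ : Finset (Fin 3))).filter (fun z => nb z.1 z.2 = none),
      (if has z.1 z.2 then (1 : ZMod 2) else 0) = 0 := by
    refine Finset.sum_eq_zero fun z hz => ?_
    rw [Finset.mem_filter, Finset.mem_product] at hz
    rw [if_neg]
    intro h
    exact notray z.1 hz.1.1 z.2 h hz.2
  rw [hL, hR, if_pos (h1'.1 hhas), add_zero] at hsum
  exact absurd hsum (by decide)

end Pool.Agent.H40.TS
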