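import Mathlib

/-!
# Skeletons of smooth tropical complete intersections of degrees 2 and 3: definitions
-/

set_option autoImplicit false

namespace Pool.Agent.H40.TS

open MeasureTheory

/-- A tropical polynomial in three variables (max convention): a finite set of exponents and
real coefficients. -/
structure TPoly where
  supp : Finset (Fin 3 → ℕ)
  coeff : (Fin 3 → ℕ) → ℝ

/-- The value at `x` of the monomial with exponent `m`. -/
def TPoly.val (p : TPoly) (m : Fin 3 → ℕ) (x : Fin 3 → ℝ) : ℝ :=
  p.coeff m + ∑ i, (m i : ℝ) * x i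

/-- The maximum defining `p(x)` is attained at the exponent `m`. -/
def TPoly.Act (p : TPoly) (x : Fin 3 → ℝ) (m : Fin 3 → ℕ) : Prop :=
  m ∈ p.supp ∧ ∀ m' ∈ p.supp, p.val m' x ≤ p.val m x

/-- The tropical surface `T(p)`: the maximum is attained at least twice. -/
def TPoly.surface (p : TPoly) : Set (Fin 3 → ℝ) :=
  {x | ∃ m m', m ≠ m' ∧ p.Act x m ∧ p.Act x m'}

/-- an exponent as a point of `ℝ³` -/
def emb (m : Fin 3 → ℕ) : Fin 3 → ℝ := fun i => (m i : ℝ)

/-- `p` has degree `d`: its Newton polytope is `conv {0, d e₁, d e₂, d e₃}`. -/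
def TPoly.HasDegree (p : TPoly) (d : ℕ) : Prop :=
  convexHull ℝ (emb '' (p.supp : Set (Fin 3 → ℕ))) =
    convexHull ℝ (emb '' {m : Fin 3 → ℕ | m = 0 ∨ ∃ i, m = Pi.single i d})

/-- A labelled exponent: `(false, a)` stands for an exponent of `p`, `(true, b)` for one of `q`. -/
abbrev Kind := Bool × (Fin 3 → ℕ)

/-- The point of the Cayley configuration: `(a, 0)` or `(b, 1)`. -/
def cayPt (k : Kind) : Fin 4 → ℝ :=
  ![(k.2 0 : ℝ), (k.2 1 : ℝ), (k.2 2 : ℝ), if k.1 then 1 else 0]

/-- the points of the Cayley configuration of `p` and `q` -/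
def cayConf (p q : TPoly) : Set Kind :=
  {k | (k.1 = false ∧ k.2 ∈ p.supp) ∨ (k.1 = true ∧ k.2 ∈ q.supp)}

/-- the height of the lift of a point of the Cayley configuration -/
def cayHeight (p q : TPoly) (k : Kind) : ℝ := if k.1 then q.coeff k.2 else p.coeff k.2

/-- value of the linear functional `(y, 1)` on the lifted point -/
def cayVal (p q : TPoly) (k : Kind) (y : Fin 4 → ℝ) : ℝ :=
  cayHeight p q k + ∑ i, cayPt k i * y i

/-- The labelled exponents whose lifts lie on the upper face with outer normal `(y, 1)`. -/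
def upperFace (p q : TPoly) (y : Fin 4 → ℝ) : Set Kind :=
  {k | k ∈ cayConf p q ∧ ∀ k' ∈ cayConf p q, cayVal p q k' y ≤ cayVal p q k y}

/-- The cell of the induced subdivision of the Cayley polytope: projection of the upper face. -/
def cell (p q : TPoly) (y : Fin 4 → ℝ) : Set (Fin 4 → ℝ) :=
  convexHull ℝ (cayPt '' upperFace p q y)

/-- Smoothness: every maximal (that is, full-dimensional) cell of the induced subdivision of the
Cayley polytope has Euclidean volume `1/24`. -/
def Smooth (p q : TPoly) : Prop :=
  ∀ y, volume (cell p q y) ≠ 0 → volume (cell p q y) = ENNReal.ofReal (1 / 24)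

/-- the tropical curve -/
def curve (p q : TPoly) : Set (Fin 3 → ℝ) := p.surface ∩ q.surface

/-- near `x` the set `C` is a straight line -/
def LocallyLine (C : Set (Fin 3 → ℝ)) (x : Fin 3 → ℝ) : Prop :=
  ∃ u : Fin 3 → ℝ, u ≠ 0 ∧ ∃ ε : ℝ, 0 < ε ∧
    ∀ y, dist y x < ε → (y ∈ C ↔ ∃ s : ℝ, y = x + s • u)

/-- the vertices of `C`: the points of `C` near which `C` is not a straight line -/
def IsVertex (C : Set (Fin 3 → ℝ)) (x : Fin 3 → ℝ) : Prop := x ∈ C ∧ ¬ LocallyLine C x

/-- The graph of the bounded edges of `C`: two vertices are joined if the open segment between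
them lies in `C` and contains no vertex. -/
def edgeGraph (C : Set (Fin 3 → ℝ)) : SimpleGraph (Fin 3 → ℝ) where
  Adj x y := x ≠ y ∧ IsVertex C x ∧ IsVertex C y ∧ ∀ z ∈ openSegment ℝ x y, z ∈ C ∧ ¬ IsVertex C z
  symm := ⟨fun x y h => ⟨h.1.symm, h.2.2.1, h.2.1, by rw [openSegment_symm]; exact h.2.2.2⟩⟩
  loopless := ⟨fun _ h => h.1 rfl⟩

/-- no leaf: every edge can be continued -/
def Leafless {V : Type} (G : SimpleGraph V) : Prop :=
  ∀ x y, G.Adj x y → ∃ z, z ≠ x ∧ G.Adj y z

/-- The result of repeatedly deleting leaf edges: the largest leafless subgraph. -/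
def core {V : Type} (G : SimpleGraph V) : SimpleGraph V := sSup {H | H ≤ G ∧ Leafless H}

/-- A finite multigraph (loops and multiple edges allowed) on the vertices `Fin n`, with edges
`Fin m`. -/
structure MGraph where
  n : ℕ
  m : ℕ
  fst : Fin m → Fin n
  snd : Fin m → Fin n

namespace MGraph

variable (M : MGraph)

/-- the valence (a loop counts twice) -/
def valence (v : Fin M.n) : ℕ :=
  (Finset.univ.filter (fun e => M.fst e = v)).card + (Finset.univ.filter (fun e => M.snd e = v)).card

def Trivalent : Prop := ∀ v, M.valence v = 3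

/-- `u` and `v` are the ends of an edge -/
def Step (u v : Fin M.n) : Prop :=
  ∃ e, (M.fst e = u ∧ M.snd e = v) ∨ (M.fst e = v ∧ M.snd e = u)

def Connected : Prop := 0 < M.n ∧ ∀ u v, Relation.ReflTransGen M.Step u v

/-- Deleting some vertex `w` leaves three connected components; `f` is the component map. -/
def Sprawling : Prop :=
  ∃ (w : Fin M.n) (f : Fin M.n → Fin 3), (∀ i, ∃ u, u ≠ w ∧ f u = i) ∧
    ∀ u v, u ≠ w → v ≠ w →
      (f u = f v ↔ Relation.ReflTransGen (fun a b => a ≠ w ∧ b ≠ w ∧ M.Step a b) u v)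

end MGraph

/-- `x` and `y` are the entries number `k` and `k + 1` of the list `l` -/
def Consec {V : Type} (l : List V) (k : ℕ) (x y : V) : Prop := l[k]? = some x ∧ l[k + 1]? = some y

/-- `K` is a subdivision of the multigraph `M`: the edges of `M` are replaced by paths with
pairwise disjoint interiors which use every edge of `K` exactly once. -/
structure Subdivision {V : Type} (K : SimpleGraph V) (M : MGraph) where
  φ : Fin M.n → V
  path : Fin M.m → List V
  φ_inj : Function.Injective φ
  len : ∀ e, 2 ≤ (path e).length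
  head : ∀ e, (path e)[0]? = some (φ (M.fst e))
  last : ∀ e, (path e)[(path e).length - 1]? = some (φ (M.snd e))
  adj : ∀ e k x y, Consec (path e) k x y → K.Adj x y
  cover : ∀ x y, K.Adj x y → ∃ e k, Consec (path e) k x y ∨ Consec (path e) k y x
  once : ∀ e k e' k' x y, Consec (path e) k x y →
    (Consec (path e') k' x y ∨ Consec (path e') k' y x) → e = e' ∧ k = k'
  inner_φ : ∀ e k v, 0 < k → k + 1 < (path e).length → (path e)[k]? ≠ some (φ v)
  inner : ∀ e k e' k' x, 0 < k → k + 1 < (path e).length → 0 < k' →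
    k' + 1 < (path e').length → (path e)[k]? = some x → (path e')[k']? = some x →
    e = e' ∧ k = k'

/-- The skeleton of the curve (delete rays, repeatedly delete leaf edges, smooth over the
vertices of valence two) is the multigraph `M` (which has no vertex of valence two). -/
def IsSkeleton (p q : TPoly) (M : MGraph) : Prop :=
  Nonempty (Subdivision (core (edgeGraph (curve p q))) M)

/-- `M` occurs as the skeleton of a smooth tropical complete intersection curve of degrees
2 and 3. -/
def Occurs (M : MGraph) : Prop :=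
  ∃ p q : TPoly, p.HasDegree 2 ∧ q.HasDegree 3 ∧ Smooth p q ∧ IsSkeleton p q M

end Pool.Agent.H40.TS
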