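import Pool.Agent.H40.TS.Line

/-!
# Edges and rays of the curve (job TS-GERM)

* `germ_cases`: let `F = face i` and `z t = x + t • w i`.  For small `t > 0` the active exponents
  at `z t` are those of `F` (`near_vertex`).  Along the line the members of `F` keep equal values,
  and the set of `t ≥ 0` where all members of `F` are active is an interval.
  (a) If it is `[0, ∞)`: for every `t > 0` the active exponents at `z t` contain `F`; by
  `point_cases` they are `F` or five; five can happen for at most one `t > 0`, but then the fifth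
  exponent would beat `F` on one side (its value minus the value of `F` is affine in `t` and vanishes
  once, not constant since near `0` it is negative), contradiction; so `ActIs = face i` for all
  `t > 0`.  Moreover for each `m` in the support `⟨m, w i⟩ ≤ ⟨f, w i⟩` for `f ∈ F` of the same
  polynomial; as the supports contain the vertices of the simplices, `F` lies in the face of
  `2Δ`, `3Δ` where `w i` is maximal; it is a proper face (`w i ≠ 0`) and the same face for both, so
  it is contained in a facet number `j`: `InFacet i j`.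
  (b) Otherwise let `T > 0` be the last `t` where `F` is active; at `y = z T` a further exponent is
  active, so `y` is a vertex with cell `c'` (`point_cases`), `F` is the face number `i'` of `c'`
  (drop the exponent which was not active before), for `0 < t < T` the active exponents are `F`, and
  `c'.w i' = - c.w i`: both are orthogonal to the two differences of `F`, so proportional
  (`w_unique`), both are primitive (`w_dt'`), and the sign is given by `w_dt'`.
  `InFacet i j` is impossible in case (b): by `ray_dir` `w i = dvec j`, and along `dvec j` exponents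
  with vanishing coordinate `j` never lose against others.
* `edgeTo_unique`, `adj_iff`, `edge_inj`, `edges_disjoint`, `edge_ray_disjoint`: the end of an edge is
  the first point of the germ with five active exponents; a vertex never has exactly four.  For
  `edges_disjoint`: at a common point the four active exponents agree; the set of points where
  exactly these four are active is convex, contained in a line, relatively open, and its two end
  points are the two vertices.
* `finite_vertices`: the five exponents of the cell determine the vertex (the four differences are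
  affine equations with a unique solution), and there are finitely many cells.
* `cell_faces`: from the two descriptions of the active exponents and the cardinalities 2 and 3.
-/

set_option autoImplicit false

namespace Pool.Agent.H40.TS

open Matrix

/-! ### auxiliary lemmas -/

/-- inner product of an exponent and a vector -/
def germIp (m : Fin 3 → ℕ) (v : Fin 3 → ℝ) : ℝ := ∑ l, (m l : ℝ) * v l

theorem germ_val_line (P : TPoly) (m : Fin 3 → ℕ) (x v : Fin 3 → ℝ) (t : ℝ) :
    P.val m (x + t • v) = P.val m x + t * germIp m v := by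
  simp only [TPoly.val, germIp, Fin.sum_univ_three, Pi.add_apply, Pi.smul_apply, smul_eq_mul]
  ring

theorem germ_val_eq {P : TPoly} {m m' : Fin 3 → ℕ} {x : Fin 3 → ℝ} (h : P.Act x m)
    (h' : P.Act x m') : P.val m x = P.val m' x :=
  le_antisymm (h'.2 m h.1) (h.2 m' h'.1)

theorem germ_lt_of_not_act {P : TPoly} {m f : Fin 3 → ℕ} {x : Fin 3 → ℝ} (hm : m ∈ P.supp)
    (hf : P.Act x f) (h : ¬ P.Act x m) : P.val m x < P.val f x := by
  by_contra hcon
  push Not at hcon
  exact h ⟨hm, fun m' hm' => (hf.2 m' hm').trans hcon⟩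

theorem germ_act_of_eq {P : TPoly} {m f : Fin 3 → ℕ} {x : Fin 3 → ℝ} (hm : m ∈ P.supp)
    (hf : P.Act x f) (h : P.val m x = P.val f x) : P.Act x m :=
  ⟨hm, fun m' hm' => (hf.2 m' hm').trans h.ge⟩

theorem germ_act_between {P : TPoly} {f : Fin 3 → ℕ} {x v : Fin 3 → ℝ} {t0 t1 t : ℝ}
    (h0 : P.Act (x + t0 • v) f) (h1 : P.Act (x + t1 • v) f) (ht0 : t0 ≤ t) (ht1 : t ≤ t1) :
    P.Act (x + t • v) f := by
  refine ⟨h0.1, fun m hm => ?_⟩
  have e0 := h0.2 m hm
  have e1 := h1.2 m hm
  rw [germ_val_line, germ_val_line] at e0 e1 ⊢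
  rcases le_total (germIp m v) (germIp f v) with h | h
  · nlinarith [mul_nonneg (sub_nonneg.2 ht0) (sub_nonneg.2 h)]
  · nlinarith [mul_nonneg (sub_nonneg.2 ht1) (sub_nonneg.2 h)]

theorem germ_act_sub {P : TPoly} {f m : Fin 3 → ℕ} {x v : Fin 3 → ℝ} {t0 t1 t : ℝ}
    (h0 : P.Act (x + t0 • v) f) (h1 : P.Act (x + t1 • v) f) (ht0 : t0 < t) (ht1 : t < t1)
    (hm : P.Act (x + t • v) m) : P.Act (x + t0 • v) m := by
  have hf := germ_act_between h0 h1 ht0.le ht1.le
  have e := germ_val_eq hm hf
  have e0 := h0.2 m hm.1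
  have e1 := h1.2 m hm.1
  refine germ_act_of_eq hm.1 h0 (le_antisymm e0 ?_)
  rw [germ_val_line, germ_val_line] at e e0 e1 ⊢
  have hB : germIp m v ≤ germIp f v := by
    by_contra hcon
    push Not at hcon
    nlinarith [mul_pos (sub_pos.2 ht1) (sub_pos.2 hcon)]
  nlinarith [mul_nonneg (sub_pos.2 ht0).le (sub_nonneg.2 hB)]

/-- all exponents of `F` are active at `z` -/
def GermAll (p q : TPoly) (z : Fin 3 → ℝ) (F : Bool → Set (Fin 3 → ℕ)) : Prop :=
  ∀ s, ∀ m ∈ F s, (poly p q s).Act z m

theorem germ_actIs_between {p q : TPoly} {F : Bool → Set (Fin 3 → ℕ)}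
    (hF : ∀ s, (F s).Nonempty) {x v : Fin 3 → ℝ} {t0 t1 t : ℝ}
    (h0 : ActIs p q (x + t0 • v) F) (h1 : GermAll p q (x + t1 • v) F)
    (ht0 : t0 < t) (ht1 : t < t1) : ActIs p q (x + t • v) F := by
  intro s m
  constructor
  · intro hm
    obtain ⟨f, hf⟩ := hF s
    exact (h0 s m).1 (germ_act_sub ((h0 s f).2 hf) (h1 s f hf) ht0 ht1 hm)
  · intro hm
    exact germ_act_between ((h0 s m).2 hm) (h1 s m hm) ht0.le ht1.le

theorem germ_exists_act (P : TPoly) (h : P.supp.Nonempty) (x : Fin 3 → ℝ) : ∃ m, P.Act x m := by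
  obtain ⟨m, hm, h2⟩ := Finset.exists_max_image P.supp (fun m => P.val m x) h
  exact ⟨m, hm, h2⟩

theorem germ_bool (a b : Bool) (h : a ≠ b) : a = !b := by
  cases a <;> cases b <;> simp_all

theorem germ_face_s (c : VCell) (i : Fin 3) : c.face i c.s = Set.range c.e := by
  simp [VCell.face]

theorem germ_face_ns (c : VCell) (i : Fin 3) : c.face i (!c.s) = {m | ∃ j, j ≠ i ∧ m = c.t j} := by
  simp [VCell.face]

theorem germ_full_s (c : VCell) : c.full c.s = Set.range c.e := by
  simp [VCell.full]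

theorem germ_full_ns (c : VCell) : c.full (!c.s) = Set.range c.t := by
  simp [VCell.full]

theorem germ_e_ne {c : VCell} (hc : c.Uni) : c.e 0 ≠ c.e 1 := by
  intro h
  have hu : c.u = 0 := by
    funext l
    simp [VCell.u, h]
  have hD : c.D = 0 := by simp [VCell.D, hu]
  rcases hc with h1 | h1 <;> omega

theorem germ_t_inj {c : VCell} (hc : c.Uni) : Function.Injective c.t := by
  have key : ∀ i, c.t i ≠ c.t (i + 1) := by
    intro i h
    have h1 := VCell.w_dt' c hc i
    have h2 : c.dt i (i + 1) = 0 := by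
      funext l
      simp [VCell.dt, h]
    rw [h2] at h1
    simp at h1
  intro i j hij
  have k0 := key 0
  have k1 := key 1
  have k2 := key 2
  simp only [Fin.isValue, zero_add] at k0 k1 k2
  have e2 : (1 : Fin 3) + 1 = 2 := by decide
  have e3 : (2 : Fin 3) + 1 = 0 := by decide
  rw [e2] at k1
  rw [e3] at k2
  fin_cases i <;> fin_cases j <;> simp_all

theorem germ_face_pair {c : VCell} (hc : c.Uni) (i : Fin 3) (s : Bool) :
    ∃ m m', m ≠ m' ∧ c.face i s = {m, m'} := by
  by_cases hs : s = c.s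
  · subst hs
    refine ⟨c.e 0, c.e 1, germ_e_ne hc, ?_⟩
    rw [germ_face_s]
    ext m
    simp [Fin.exists_fin_two, eq_comm]
  · obtain rfl := germ_bool s c.s hs
    have hfin : ∀ i : Fin 3, ∃ j k, j ≠ k ∧ j ≠ i ∧ k ≠ i ∧ ∀ l, l ≠ i → l = j ∨ l = k := by decide
    obtain ⟨j, k, hjk, hj, hk, hl⟩ := hfin i
    refine ⟨c.t j, c.t k, fun h => hjk (germ_t_inj hc h), ?_⟩
    rw [germ_face_ns]
    ext m
    constructor
    · rintro ⟨l, hl', rfl⟩
      rcases hl l hl' with rfl | rfl
      · left; rfl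
      · right; rfl
    · rintro (rfl | h)
      · exact ⟨j, hj, rfl⟩
      · rw [Set.mem_singleton_iff] at h
        exact ⟨k, hk, h⟩

theorem germ_face_nonempty (c : VCell) (i : Fin 3) (s : Bool) : (c.face i s).Nonempty := by
  by_cases hs : s = c.s
  · subst hs
    rw [germ_face_s]
    exact ⟨c.e 0, 0, rfl⟩
  · obtain rfl := germ_bool s c.s hs
    rw [germ_face_ns]
    have hfin : ∀ i : Fin 3, ∃ j, j ≠ i := by decide
    obtain ⟨j, hj⟩ := hfin i
    exact ⟨c.t j, j, hj, rfl⟩

theorem germ_face_sub_full (c : VCell) (i : Fin 3) (s : Bool) : c.face i s ⊆ c.full s := by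
  intro m hm
  by_cases hs : s = c.s
  · subst hs
    rw [germ_face_s] at hm
    rwa [germ_full_s]
  · obtain rfl := germ_bool s c.s hs
    rw [germ_face_ns] at hm
    rw [germ_full_ns]
    obtain ⟨j, -, rfl⟩ := hm
    exact ⟨j, rfl⟩

/-- The members of `F` have equal inner products with `v`. -/
def GermPar (F : Bool → Set (Fin 3 → ℕ)) (v : Fin 3 → ℝ) : Prop :=
  ∀ s, ∀ m ∈ F s, ∀ m' ∈ F s, germIp m v = germIp m' v

theorem germ_ip_dt (c : VCell) (i' j j' : Fin 3) (c' : VCell) :
    germIp (c.t j) (c'.rw i') - germIp (c.t j') (c'.rw i') = ((c'.w i' ⬝ᵥ c.dt j j' : ℤ) : ℝ) := by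
  simp only [germIp, Fin.sum_univ_three, VCell.rw, VCell.dt, dotProduct]
  push_cast
  ring

theorem germ_ip_u (c : VCell) (i' : Fin 3) (c' : VCell) :
    germIp (c.e 1) (c'.rw i') - germIp (c.e 0) (c'.rw i') = ((c'.w i' ⬝ᵥ c.u : ℤ) : ℝ) := by
  simp only [germIp, Fin.sum_univ_three, VCell.rw, VCell.u, dotProduct]
  push_cast
  ring

theorem germ_fin_ne : ∀ i j : Fin 3, j ≠ i → j = i + 1 ∨ j = i + 2 := by decide

theorem germ_par_face {c : VCell} (hc : c.Uni) (i : Fin 3) : GermPar (c.face i) (c.rw i) := by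
  intro s m hm m' hm'
  by_cases hs : s = c.s
  · subst hs
    rw [germ_face_s] at hm hm'
    have h1 := germ_ip_u c i c
    rw [VCell.w_u] at h1
    simp only [Int.cast_zero] at h1
    obtain ⟨a, rfl⟩ := hm
    obtain ⟨b, rfl⟩ := hm'
    fin_cases a <;> fin_cases b <;> simp <;> linarith
  · obtain rfl := germ_bool s c.s hs
    rw [germ_face_ns] at hm hm'
    have h1 := germ_ip_dt c i (i + 2) (i + 1) c
    rw [VCell.w_dt c hc] at h1
    simp only [Int.cast_zero] at h1
    obtain ⟨a, ha, rfl⟩ := hm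
    obtain ⟨b, hb, rfl⟩ := hm'
    rcases germ_fin_ne i a ha with rfl | rfl <;> rcases germ_fin_ne i b hb with rfl | rfl <;>
      linarith

theorem germ_par_unique {c : VCell} (hc : c.Uni) (i : Fin 3) {v : Fin 3 → ℝ}
    (h : GermPar (c.face i) v) : ∃ a : ℝ, v = a • c.rw i := by
  refine VCell.w_unique c hc i v ?_ ?_
  · have h1 := h c.s (c.e 1) (by rw [germ_face_s]; exact ⟨1, rfl⟩) (c.e 0)
      (by rw [germ_face_s]; exact ⟨0, rfl⟩)
    simp only [germIp, Fin.sum_univ_three] at h1
    simp only [dotProduct, Fin.sum_univ_three, VCell.u]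
    push_cast
    linarith
  · have hfin : ∀ i : Fin 3, i + 2 ≠ i ∧ i + 1 ≠ i := by decide
    have h1 := h (!c.s) (c.t (i + 2)) (by rw [germ_face_ns]; exact ⟨i + 2, (hfin i).1, rfl⟩)
      (c.t (i + 1)) (by rw [germ_face_ns]; exact ⟨i + 1, (hfin i).2, rfl⟩)
    simp only [germIp, Fin.sum_univ_three] at h1
    simp only [dotProduct, Fin.sum_univ_three, VCell.dt]
    push_cast
    linarith

theorem germ_rw_ne {c : VCell} (hc : c.Uni) (i : Fin 3) : c.rw i ≠ 0 := by
  intro h
  have h1 := germ_ip_dt c i i (i + 1) c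
  rw [VCell.w_dt' c hc, h] at h1
  simp [germIp] at h1

theorem germ_par_congr {F F' : Bool → Set (Fin 3 → ℕ)} (h : ∀ s, F s = F' s) {v : Fin 3 → ℝ}
    (hF : GermPar F v) : GermPar F' v := by
  intro s
  rw [← h s]
  exact hF s

theorem germ_actIs_congr {p q : TPoly} {z : Fin 3 → ℝ} {F F' : Bool → Set (Fin 3 → ℕ)}
    (h : ∀ s, F s = F' s) (hF : ActIs p q z F) : ActIs p q z F' := by
  intro s m
  rw [hF s m, h s]

theorem germ_actIs_unique {p q : TPoly} {z : Fin 3 → ℝ} {F F' : Bool → Set (Fin 3 → ℕ)}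
    (hF : ActIs p q z F) (hF' : ActIs p q z F') : ∀ s, F s = F' s := by
  intro s
  ext m
  rw [← hF s m, hF' s m]

/-- equal faces have parallel directions -/
theorem germ_parallel {c c' : VCell} (hc : c.Uni) (hc' : c'.Uni) {i i' : Fin 3}
    (h : ∀ s, c.face i s = c'.face i' s) : ∃ a : ℝ, a ≠ 0 ∧ c'.rw i' = a • c.rw i := by
  have h1 : GermPar (c.face i) (c'.rw i') :=
    germ_par_congr (fun s => (h s).symm) (germ_par_face hc' i')
  obtain ⟨a, ha⟩ := germ_par_unique hc i h1
  refine ⟨a, ?_, ha⟩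
  rintro rfl
  rw [zero_smul] at ha
  exact germ_rw_ne hc' i' ha

/-! ### the germs -/

theorem germ_supp {p q : TPoly} (hp : p.HasDegree 2) (hq : q.HasDegree 3) (s : Bool) :
    (∀ m ∈ (poly p q s).supp, ∑ i, m i ≤ dg s) ∧ 0 ∈ (poly p q s).supp ∧
      ∀ i, Pi.single i (dg s) ∈ (poly p q s).supp := by
  cases s
  · exact (hasDegree_iff p 2).1 hp
  · exact (hasDegree_iff q 3).1 hq

theorem germ_all_of_cell {p q : TPoly} {x : Fin 3 → ℝ} {c : VCell} (h : IsCell p q x c)
    (i : Fin 3) : GermAll p q x (c.face i) :=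
  fun s m hm => (h.1 s m).2 (germ_face_sub_full c i s hm)

theorem germ_hom0 (d : ℕ) (f : Fin 3 → ℕ) : hom d f 0 = d - ∑ l, f l := rfl
theorem germ_hom1 (d : ℕ) (f : Fin 3 → ℕ) : hom d f 1 = f 0 := rfl
theorem germ_hom2 (d : ℕ) (f : Fin 3 → ℕ) : hom d f 2 = f 1 := rfl
theorem germ_hom3 (d : ℕ) (f : Fin 3 → ℕ) : hom d f 3 = f 2 := rfl

theorem germ_dvec0 : dvec 0 = 1 := rfl
theorem germ_dvec1 : dvec 1 = - Pi.single 0 1 := rfl
theorem germ_dvec2 : dvec 2 = - Pi.single 1 1 := rfl
theorem germ_dvec3 : dvec 3 = - Pi.single 2 1 := rfl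

/-- case (a): the face is contained in a facet -/
theorem germ_inFacet {p q : TPoly} (hp : p.HasDegree 2) (hq : q.HasDegree 3)
    {x : Fin 3 → ℝ} {c : VCell} (h : IsCell p q x c) (i : Fin 3)
    (hall : ∀ t : ℝ, 0 < t → GermAll p q (x + t • c.rw i) (c.face i)) :
    ∃ j, c.InFacet i j := by
  have hx := germ_all_of_cell h i
  -- inner products are maximal
  have hmax : ∀ s, ∀ f ∈ c.face i s, ∀ m ∈ (poly p q s).supp,
      germIp m (c.rw i) ≤ germIp f (c.rw i) := by
    intro s f hf m hm
    by_contra hcon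
    push Not at hcon
    have h0 := (hx s f hf).2 m hm
    have hB : 0 < germIp m (c.rw i) - germIp f (c.rw i) := sub_pos.2 hcon
    have hA : 0 < (poly p q s).val f x - (poly p q s).val m x + 1 := by linarith
    have ht := div_pos hA hB
    have h1 := (hall _ ht s f hf).2 m hm
    rw [germ_val_line, germ_val_line] at h1
    have h2 : ((poly p q s).val f x - (poly p q s).val m x + 1) /
        (germIp m (c.rw i) - germIp f (c.rw i)) *
        (germIp m (c.rw i) - germIp f (c.rw i)) =
        (poly p q s).val f x - (poly p q s).val m x + 1 := div_mul_cancel₀ _ hB.ne'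
    rw [mul_sub] at h2
    linarith
  let V : Fin 4 → ℝ := ![0, c.rw i 0, c.rw i 1, c.rw i 2]
  obtain ⟨k, hk⟩ := Finite.exists_max V
  obtain ⟨j, hj⟩ : ∃ j, V j < V k := by
    by_contra hcon
    push Not at hcon
    have he : ∀ j, V j = V 0 := fun j => by
      have h1 := le_antisymm (hk j) (hcon j)
      have h2 := le_antisymm (hk 0) (hcon 0)
      rw [h1, h2]
    apply germ_rw_ne h.2 i
    funext l
    have e1 := he 1
    have e2 := he 2
    have e3 := he 3
    simp [V] at e1 e2 e3
    fin_cases l <;> simp [e1, e2, e3]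
  have key : ∀ s, ∀ f ∈ c.face i s, hom (dg s) f j = 0 := by
    intro s f hf
    obtain ⟨hs1, hs2, hs3⟩ := germ_supp hp hq s
    have hdeg := hs1 f (hx s f hf).1
    have hM : (dg s : ℝ) * V k ≤ germIp f (c.rw i) := by
      have e0 := hmax s f hf 0 hs2
      have e1 := hmax s f hf _ (hs3 0)
      have e2 := hmax s f hf _ (hs3 1)
      have e3 := hmax s f hf _ (hs3 2)
      simp [germIp, Fin.sum_univ_three, Pi.single_apply] at e0 e1 e2 e3
      simp only [germIp, Fin.sum_univ_three]
      fin_cases k <;> simp [V] <;> linarith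
    have hsum : (∑ l, f l) + (dg s - ∑ l, f l) = dg s := Nat.add_sub_cancel' hdeg
    have hip : germIp f (c.rw i) = ∑ l, (hom (dg s) f l : ℝ) * V l := by
      simp [germIp, Fin.sum_univ_three, Fin.sum_univ_four, hom, V]
      rfl
    have hsum2 : ∑ l, (hom (dg s) f l : ℝ) = dg s := by
      rw [Fin.sum_univ_four, germ_hom1, germ_hom2, germ_hom3]
      have h0 : hom (dg s) f 0 + f 0 + f 1 + f 2 = dg s := by
        rw [germ_hom0, Fin.sum_univ_three]
        rw [Fin.sum_univ_three] at hdeg
        omega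
      exact_mod_cast h0
    have hz : ∑ l, (hom (dg s) f l : ℝ) * (V k - V l) ≤ 0 := by
      have : ∑ l, (hom (dg s) f l : ℝ) * (V k - V l) =
          (∑ l, (hom (dg s) f l : ℝ)) * V k - ∑ l, (hom (dg s) f l : ℝ) * V l := by
        rw [Finset.sum_mul, ← Finset.sum_sub_distrib]
        exact Finset.sum_congr rfl (fun l _ => by ring)
      rw [this, hsum2, ← hip]
      linarith
    have hj2 : (hom (dg s) f j : ℝ) * (V k - V j) ≤ 0 :=
      (Finset.single_le_sum (f := fun l => (hom (dg s) f l : ℝ) * (V k - V l))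
        (fun l _ => mul_nonneg (Nat.cast_nonneg _) (sub_nonneg.2 (hk l)))
        (Finset.mem_univ j)).trans hz
    by_contra hne
    have hpos : (0 : ℝ) < hom (dg s) f j := by
      exact_mod_cast Nat.pos_of_ne_zero hne
    have := mul_pos hpos (sub_pos.2 hj)
    linarith
  refine ⟨j, fun l => key c.s _ (by rw [germ_face_s]; exact ⟨l, rfl⟩), fun l hl =>
    key (!c.s) _ (by rw [germ_face_ns]; exact ⟨l, hl, rfl⟩)⟩

theorem germ_fin4 : ∀ j : Fin 4, j = 0 ∨ j = 1 ∨ j = 2 ∨ j = 3 := by decide

theorem germ_dvec_le (d : ℕ) (m f : Fin 3 → ℕ) (j : Fin 4) (hm : ∑ l, m l ≤ d)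
    (hf : hom d f j = 0) :
    germIp m (fun l => (dvec j l : ℝ)) ≤ germIp f (fun l => (dvec j l : ℝ)) := by
  have hm' : (m 0 : ℝ) + m 1 + m 2 ≤ d := by
    rw [Fin.sum_univ_three] at hm
    exact_mod_cast hm
  rcases germ_fin4 j with rfl | rfl | rfl | rfl
  · rw [germ_hom0, Fin.sum_univ_three] at hf
    have hf' : (d : ℝ) ≤ f 0 + f 1 + f 2 := by
      have : d ≤ f 0 + f 1 + f 2 := by omega
      exact_mod_cast this
    simp [germIp, germ_dvec0, Fin.sum_univ_three]
    linarith
  · rw [germ_hom1] at hf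
    simp [germIp, germ_dvec1, hf, Pi.single_apply]
  · rw [germ_hom2] at hf
    simp [germIp, germ_dvec2, hf, Pi.single_apply]
  · rw [germ_hom3] at hf
    simp [germIp, germ_dvec3, hf, Pi.single_apply]

theorem germ_add_smul (x v : Fin 3 → ℝ) (a b : ℝ) : x + a • v + b • v = x + (a + b) • v := by
  rw [add_assoc, add_smul]

theorem germ_par_val {p q : TPoly} {F : Bool → Set (Fin 3 → ℕ)} {y v : Fin 3 → ℝ}
    (hF : GermPar F v) (hy : GermAll p q y F) (s : Bool) {m m' : Fin 3 → ℕ} (hm : m ∈ F s)
    (hm' : m' ∈ F s) (t : ℝ) :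
    (poly p q s).val m (y + t • v) = (poly p q s).val m' (y + t • v) := by
  rw [germ_val_line, germ_val_line, hF s m hm m' hm',
    germ_val_eq (hy s m hm) (hy s m' hm')]

theorem germ_norm_dist (x v : Fin 3 → ℝ) (t : ℝ) : dist (x + t • v) x = |t| * ‖v‖ := by
  rw [dist_eq_norm, add_sub_cancel_left, norm_smul, Real.norm_eq_abs]

/-- if exactly the exponents of a face are active at `y`, they stay active a little longer -/
theorem germ_extend {p q : TPoly} (hp : p.HasDegree 2) (hq : q.HasDegree 3)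
    {F : Bool → Set (Fin 3 → ℕ)} {y v : Fin 3 → ℝ} (hpar : GermPar F v)
    (hy : ActIs p q y F) : ∃ δ : ℝ, 0 < δ ∧ GermAll p q (y + δ • v) F := by
  obtain ⟨ε, hε, hnear⟩ := act_near p q y
  have hall : GermAll p q y F := fun s m hm => (hy s m).2 hm
  have hpos : 0 < ‖v‖ + 1 := by positivity
  refine ⟨ε / 2 / (‖v‖ + 1), by positivity, ?_⟩
  intro s m hm
  set z := y + (ε / 2 / (‖v‖ + 1)) • v with hz
  have hd : dist z y < ε := by
    rw [hz, germ_norm_dist, abs_of_pos (by positivity), div_mul_eq_mul_div, div_lt_iff₀ hpos]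
    nlinarith [norm_nonneg v]
  obtain ⟨m', hm'⟩ := germ_exists_act (poly p q s) ⟨0, (germ_supp hp hq s).2.1⟩ z
  have hm'F := (hy s m').1 (hnear z hd s m' hm')
  exact germ_act_of_eq (hall s m hm).1 hm' (germ_par_val hpar hall s hm hm'F _)

theorem germ_mem_curve {p q : TPoly} {c : VCell} (hc : c.Uni) {i : Fin 3} {y : Fin 3 → ℝ}
    (hy : GermAll p q y (c.face i)) : y ∈ curve p q := by
  constructor
  · obtain ⟨m, m', hne, hF⟩ := germ_face_pair hc i false
    refine ⟨m, m', hne, hy false m ?_, hy false m' ?_⟩ <;> rw [hF] <;> simp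
  · obtain ⟨m, m', hne, hF⟩ := germ_face_pair hc i true
    refine ⟨m, m', hne, hy true m ?_, hy true m' ?_⟩ <;> rw [hF] <;> simp

theorem germ_pair_eq {α : Type} {a b c d : α} (hab : a ≠ b) (h : ({a, b} : Set α) ⊆ {c, d}) :
    ({a, b} : Set α) = {c, d} := by
  have ha : a = c ∨ a = d := by simpa using h (show a ∈ ({a, b} : Set α) by simp)
  have hb : b = c ∨ b = d := by simpa using h (show b ∈ ({a, b} : Set α) by simp)
  rcases ha with rfl | rfl <;> rcases hb with rfl | rfl
  · exact absurd rfl hab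
  · rfl
  · exact Set.pair_comm _ _
  · exact absurd rfl hab

theorem germ_face_eq_of_sub {c c' : VCell} (hc : c.Uni) (hc' : c'.Uni) {i i' : Fin 3} {s : Bool}
    (h : c.face i s ⊆ c'.face i' s) : c.face i s = c'.face i' s := by
  obtain ⟨a, b, hab, e1⟩ := germ_face_pair hc i s
  obtain ⟨a', b', hab', e2⟩ := germ_face_pair hc' i' s
  rw [e1, e2] at h ⊢
  exact germ_pair_eq hab h

theorem germ_third : ∀ j k : Fin 3, j ≠ k →
    ∃ i, j ≠ i ∧ k ≠ i ∧ ∀ l, l ≠ i → l = j ∨ l = k := by decide

theorem germ_face_of_full {c c' : VCell} (hc : c.Uni) (hc' : c'.Uni) {i : Fin 3}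
    (h : ∀ s, c.face i s ⊆ c'.full s) : ∃ i', ∀ s, c.face i s = c'.face i' s := by
  obtain ⟨a, b, hab, e1⟩ := germ_face_pair hc i (!c'.s)
  have h1 := h (!c'.s)
  rw [e1, germ_full_ns] at h1
  obtain ⟨j, rfl⟩ : a ∈ Set.range c'.t := h1 (by simp)
  obtain ⟨k, rfl⟩ : b ∈ Set.range c'.t := h1 (by simp)
  have hjk : j ≠ k := fun h => hab (by rw [h])
  obtain ⟨i', hj, hk, hl⟩ := germ_third j k hjk
  refine ⟨i', ?_⟩
  intro s
  apply germ_face_eq_of_sub hc hc'
  by_cases hs : s = c'.s
  · subst hs
    have h2 := h c'.s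
    rw [germ_full_s] at h2
    rwa [germ_face_s]
  · obtain rfl := germ_bool s c'.s hs
    rw [e1, germ_face_ns]
    rintro m (rfl | hm)
    · exact ⟨j, hj, rfl⟩
    · rw [Set.mem_singleton_iff] at hm
      exact ⟨k, hk, hm⟩

/-- two cells with a common face have opposite or equal directions -/
theorem germ_dir {c c' : VCell} (hc : c.Uni) (hc' : c'.Uni) {i i' : Fin 3}
    (h : ∀ s, c.face i s = c'.face i' s)
    (hpos : 0 < germIp (c'.t i') (c.rw i) - germIp (c'.t (i' + 1)) (c.rw i)) :
    c'.w i' = - c.w i := by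
  obtain ⟨a, -, ha⟩ := germ_parallel hc' hc (fun s => (h s).symm)
  obtain ⟨b, -, hb⟩ := germ_parallel hc hc' h
  -- `a` and `b` are integers
  have ha2 : a = -((c.w i ⬝ᵥ c'.dt i' (i' + 1) : ℤ) : ℝ) := by
    have h1 := germ_ip_dt c' i' i' (i' + 1) c'
    rw [VCell.w_dt' c' hc'] at h1
    have h2 := germ_ip_dt c' i i' (i' + 1) c
    rw [← h2, ha]
    simp only [germIp, Fin.sum_univ_three, Pi.smul_apply, smul_eq_mul] at h1 ⊢
    push_cast at h1
    linear_combination a * h1
  have hb2 : b = -((c'.w i' ⬝ᵥ c.dt i (i + 1) : ℤ) : ℝ) := by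
    have h1 := germ_ip_dt c i i (i + 1) c
    rw [VCell.w_dt' c hc] at h1
    have h2 := germ_ip_dt c i' i (i + 1) c'
    rw [← h2, hb]
    simp only [germIp, Fin.sum_univ_three, Pi.smul_apply, smul_eq_mul] at h1 ⊢
    push_cast at h1
    linear_combination b * h1
  have hneg : a < 0 := by
    have h2 := germ_ip_dt c' i i' (i' + 1) c
    rw [h2] at hpos
    rw [ha2]
    linarith
  have hab : a * b = 1 := by
    have h3 : c.rw i = (a * b) • c.rw i := by
      rw [mul_smul, ← hb, ← ha]
    have h4 : (1 - a * b) • c.rw i = 0 := by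
      rw [sub_smul, one_smul, ← h3, sub_self]
    rcases smul_eq_zero.1 h4 with h5 | h5
    · linarith
    · exact absurd h5 (germ_rw_ne hc i)
  have ha1 : a = -1 := by
    set n : ℤ := c.w i ⬝ᵥ c'.dt i' (i' + 1) with hn
    set k : ℤ := c'.w i' ⬝ᵥ c.dt i (i + 1) with hk
    have hnk : n * k = 1 := by
      have : (n : ℝ) * k = 1 := by
        rw [ha2, hb2] at hab
        linarith
      exact_mod_cast this
    rcases Int.eq_one_or_neg_one_of_mul_eq_one hnk with h1 | h1
    · rw [ha2, h1]; simp
    · rw [ha2, h1] at hneg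
      norm_num at hneg
  rw [ha1] at ha
  funext l
  have h5 := congrFun ha l
  simp only [VCell.rw, Pi.smul_apply, smul_eq_mul] at h5
  have h6 : c.w i l = - c'.w i' l := by
    have : (c.w i l : ℝ) = ((- c'.w i' l : ℤ) : ℝ) := by
      push_cast
      linarith
    exact_mod_cast this
  simp [h6]

theorem germ_closed (p q : TPoly) (F : Bool → Set (Fin 3 → ℕ)) (x v : Fin 3 → ℝ) :
    IsClosed {t : ℝ | GermAll p q (x + t • v) F} := by
  have : {t : ℝ | GermAll p q (x + t • v) F} =
      ⋂ s : Bool, ⋂ m : Fin 3 → ℕ, ⋂ _ : m ∈ F s, ({t : ℝ | m ∈ (poly p q s).supp} ∩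
        ⋂ m' : Fin 3 → ℕ, ⋂ _ : m' ∈ (poly p q s).supp,
          {t : ℝ | (poly p q s).val m' x + t * germIp m' v ≤
            (poly p q s).val m x + t * germIp m v}) := by
    ext t
    simp only [Set.mem_ofPred_eq, Set.mem_iInter, Set.mem_inter_iff, GermAll, TPoly.Act,
      germ_val_line]
  rw [this]
  refine isClosed_iInter fun s => isClosed_iInter fun m => isClosed_iInter fun _ => ?_
  refine IsClosed.inter isClosed_const ?_
  refine isClosed_iInter fun m' => isClosed_iInter fun _ => ?_
  exact isClosed_le (by fun_prop) (by fun_prop)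

/-- `x` and `y` are the ends of the edge number `i` of the cell `c` of `x` -/
def EdgeTo (p q : TPoly) (x : Fin 3 → ℝ) (c : VCell) (i : Fin 3) (y : Fin 3 → ℝ) : Prop :=
  ∃ T : ℝ, 0 < T ∧ y = x + T • c.rw i ∧
    ∀ t : ℝ, 0 < t → t < T → ActIs p q (x + t • c.rw i) (c.face i)

theorem germ_fin_succ : ∀ i : Fin 3, i + 1 ≠ i := by decide

/-- The germ number `i` at `x` is a ray or leads to another vertex. -/
theorem germ_cases (p q : TPoly) (hp : p.HasDegree 2) (hq : q.HasDegree 3) (hS : Smooth p q)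
    {x : Fin 3 → ℝ} {c : VCell} (h : IsCell p q x c) (i : Fin 3) :
    ((∃ j, c.InFacet i j) ∧ ∀ t : ℝ, 0 < t → ActIs p q (x + t • c.rw i) (c.face i)) ∨
    ((∀ j, ¬ c.InFacet i j) ∧ ∃ y c' i', EdgeTo p q x c i y ∧ IsCell p q y c' ∧
      EdgeTo p q y c' i' x ∧ (∀ s, c.face i s = c'.face i' s) ∧ c'.w i' = - c.w i) := by
  obtain ⟨ε, hε, hgerm, -⟩ := near_vertex h
  have hx := germ_all_of_cell h i
  have hFne := germ_face_nonempty c i
  have hx0 : GermAll p q (x + (0 : ℝ) • c.rw i) (c.face i) := by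
    rw [zero_smul, add_zero]; exact hx
  have hbetween : ∀ t1 : ℝ, GermAll p q (x + t1 • c.rw i) (c.face i) → ∀ t : ℝ, 0 < t → t < t1 →
      ActIs p q (x + t • c.rw i) (c.face i) := by
    intro t1 h1 t ht ht1
    have hm : 0 < min t ε / 2 := by positivity
    have hm1 : min t ε / 2 < t := by
      have := min_le_left t ε
      linarith
    have hm2 : min t ε / 2 < ε := by
      have := min_le_right t ε
      linarith
    exact germ_actIs_between hFne (hgerm i _ hm hm2) h1 hm1 ht1
  by_cases hcase : ∀ t : ℝ, 0 < t → GermAll p q (x + t • c.rw i) (c.face i)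
  · left
    exact ⟨germ_inFacet hp hq h i hcase,
      fun t ht => hbetween (t + 1) (hcase _ (by linarith)) t ht (by linarith)⟩
  · right
    push Not at hcase
    obtain ⟨t1, ht1, hnot⟩ := hcase
    refine ⟨?_, ?_⟩
    · intro j hj
      apply hnot
      have hdeg := deg_of_actIs hp hq h.1
      have hw := VCell.ray_dir c h.2 hdeg i j hj
      have hv : c.rw i = fun l => (dvec j l : ℝ) := by
        funext l
        simp only [VCell.rw, hw]
      have hzero : ∀ s, ∀ f ∈ c.face i s, hom (dg s) f j = 0 := by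
        intro s f hf
        by_cases hs : s = c.s
        · subst hs
          rw [germ_face_s] at hf
          obtain ⟨l, rfl⟩ := hf
          exact hj.1 l
        · obtain rfl := germ_bool s c.s hs
          rw [germ_face_ns] at hf
          obtain ⟨l, hl, rfl⟩ := hf
          exact hj.2 l hl
      intro s f hf
      refine ⟨(hx s f hf).1, fun m hm => ?_⟩
      rw [germ_val_line, germ_val_line]
      have e1 := (hx s f hf).2 m hm
      have e2 := germ_dvec_le (dg s) m f j ((germ_supp hp hq s).1 m hm) (hzero s f hf)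
      rw [← hv] at e2
      nlinarith
    · -- the last parameter
      set S : Set ℝ := {t : ℝ | GermAll p q (x + t • c.rw i) (c.face i)} with hSdef
      have hScl : IsClosed S := germ_closed p q _ x _
      have hS0 : (0 : ℝ) ∈ S := hx0
      have hSb : ∀ t ∈ S, t ≤ t1 := by
        intro t ht
        by_contra hcon
        push Not at hcon
        exact hnot (fun s m hm => germ_act_between (hx0 s m hm) (ht s m hm) ht1.le hcon.le)
      have hbdd : BddAbove S := ⟨t1, hSb⟩
      have hTS : sSup S ∈ S := hScl.csSup_mem ⟨0, hS0⟩ hbdd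
      set T := sSup S with hT
      have hTmax : ∀ t ∈ S, t ≤ T := fun t ht => le_csSup hbdd ht
      have hTpos : 0 < T := by
        have h1 : ε / 2 ∈ S := fun s m hm => (hgerm i (ε / 2) (by linarith) (by linarith) s m).2 hm
        have := hTmax _ h1
        linarith
      have hface := hbetween T hTS
      have hTall : GermAll p q (x + T • c.rw i) (c.face i) := hTS
      have hcurve : x + T • c.rw i ∈ curve p q := germ_mem_curve h.2 hTall
      rcases point_cases p q hp hq hS _ hcurve with ⟨c', hc', -⟩ | ⟨c', i', hact, hu', -⟩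
      · obtain ⟨i', hi'⟩ := germ_face_of_full h.2 hc'.2 (i := i)
          (fun s m hm => (hc'.1 s m).1 (hTall s m hm))
        -- the sign
        have hns : (!c'.s) ≠ c'.s := by cases c'.s <;> simp
        have hfin : i' + 1 ≠ i' := germ_fin_succ i'
        have hF1 : c'.t (i' + 1) ∈ c.face i (!c'.s) := by
          rw [hi', germ_face_ns]
          exact ⟨i' + 1, hfin, rfl⟩
        have hF2 : c'.t i' ∉ c.face i (!c'.s) := by
          rw [hi', germ_face_ns]
          rintro ⟨j, hj, hj2⟩
          exact hj (germ_t_inj hc'.2 hj2).symm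
        have hT1 : (poly p q (!c'.s)).Act (x + T • c.rw i) (c'.t i') := by
          rw [hc'.1, germ_full_ns]
          exact ⟨i', rfl⟩
        have hT2 := hTall (!c'.s) _ hF1
        have hpos : 0 < germIp (c'.t i') (c.rw i) - germIp (c'.t (i' + 1)) (c.rw i) := by
          have hhalf := hface (T / 2) (by linarith) (by linarith)
          have h1 : ¬ (poly p q (!c'.s)).Act (x + (T / 2) • c.rw i) (c'.t i') := by
            rw [hhalf]
            exact hF2
          have h2 : (poly p q (!c'.s)).Act (x + (T / 2) • c.rw i) (c'.t (i' + 1)) := by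
            rw [hhalf]
            exact hF1
          have h3 := germ_lt_of_not_act hT1.1 h2 h1
          have h4 := germ_val_eq hT1 hT2
          rw [germ_val_line, germ_val_line] at h3 h4
          nlinarith
        have hdir := germ_dir h.2 hc'.2 hi' hpos
        have hrw : c'.rw i' = - c.rw i := by
          funext l
          simp [VCell.rw, hdir]
        refine ⟨x + T • c.rw i, c', i', ⟨T, hTpos, rfl, hface⟩, hc', ⟨T, hTpos, ?_, ?_⟩, hi', hdir⟩
        · rw [hrw, smul_neg, add_neg_cancel_right]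
        · intro t ht htT
          have h1 := hface (T - t) (by linarith) (by linarith)
          have h2 : x + T • c.rw i + t • c'.rw i' = x + (T - t) • c.rw i := by
            rw [hrw, smul_neg, sub_smul]
            abel
          rw [h2]
          exact germ_actIs_congr hi' h1
      · exfalso
        have hsub : ∀ s, c.face i s = c'.face i' s := fun s =>
          germ_face_eq_of_sub h.2 hu' (fun m hm => (hact s m).1 (hTall s m hm))
        have hactF := germ_actIs_congr (fun s => (hsub s).symm) hact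
        obtain ⟨δ, hδ, hext⟩ := germ_extend hp hq (germ_par_face h.2 i) hactF
        rw [germ_add_smul] at hext
        have := hTmax _ hext
        linarith

theorem germ_not_vertex {p q : TPoly} {z : Fin 3 → ℝ} {c : VCell} (hc : c.Uni) {i : Fin 3}
    (h : ActIs p q z (c.face i)) : ¬ IsVertex (curve p q) z :=
  fun hv => hv.2 (locallyLine_of_face hc h)

theorem edgeTo_unique {p q : TPoly} (hp : p.HasDegree 2) (hq : q.HasDegree 3) (hS : Smooth p q)
    {x y y' : Fin 3 → ℝ} {c : VCell} {i : Fin 3} (h : IsCell p q x c)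
    (hy : IsVertex (curve p q) y) (hy' : IsVertex (curve p q) y')
    (h1 : EdgeTo p q x c i y) (h2 : EdgeTo p q x c i y') : y = y' := by
  obtain ⟨T, hT, rfl, hTa⟩ := h1
  obtain ⟨T', hT', rfl, hTa'⟩ := h2
  rcases lt_trichotomy T T' with hlt | heq | hlt
  · exact absurd hy (germ_not_vertex h.2 (hTa' T hT hlt))
  · rw [heq]
  · exact absurd hy' (germ_not_vertex h.2 (hTa T' hT' hlt))

theorem germ_mem_openSegment {x v z : Fin 3 → ℝ} {T : ℝ} (hT : 0 < T) :
    z ∈ openSegment ℝ x (x + T • v) ↔ ∃ t : ℝ, 0 < t ∧ t < T ∧ z = x + t • v := by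
  rw [openSegment_eq_image']
  constructor
  · rintro ⟨θ, hθ, rfl⟩
    refine ⟨θ * T, mul_pos hθ.1 hT, by nlinarith [hθ.2], ?_⟩
    simp [mul_smul]
  · rintro ⟨t, ht, htT, rfl⟩
    refine ⟨t / T, ⟨div_pos ht hT, (div_lt_one hT).2 htT⟩, ?_⟩
    simp only [add_sub_cancel_left]
    rw [← mul_smul, div_mul_cancel₀ _ hT.ne']

theorem adj_iff (p q : TPoly) (hp : p.HasDegree 2) (hq : q.HasDegree 3) (hS : Smooth p q)
    {x y : Fin 3 → ℝ} {c : VCell} (h : IsCell p q x c) :
    (edgeGraph (curve p q)).Adj x y ↔ IsVertex (curve p q) y ∧ ∃ i, EdgeTo p q x c i y := by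
  constructor
  · rintro ⟨hne, hvx, hvy, hseg⟩
    refine ⟨hvy, ?_⟩
    obtain ⟨ε, hε, -, hnear⟩ := near_vertex h
    have hn : 0 < ‖y - x‖ + 1 := by positivity
    set δ : ℝ := min (1 / 2) (ε / 2 / (‖y - x‖ + 1)) with hδ
    have hδ0 : 0 < δ := by positivity
    have hδ1 : δ < 1 := lt_of_le_of_lt (min_le_left _ _) (by norm_num)
    have hy : x + (1 : ℝ) • (y - x) = y := by rw [one_smul]; abel
    have hzs : x + δ • (y - x) ∈ openSegment ℝ x y := by
      have h1 := (germ_mem_openSegment (x := x) (v := y - x) (z := x + δ • (y - x)) one_pos).2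
        ⟨δ, hδ0, hδ1, rfl⟩
      rwa [hy] at h1
    have hd : dist (x + δ • (y - x)) x < ε := by
      rw [germ_norm_dist, abs_of_pos hδ0]
      have h1 : δ ≤ ε / 2 / (‖y - x‖ + 1) := min_le_right _ _
      calc δ * ‖y - x‖ ≤ ε / 2 / (‖y - x‖ + 1) * ‖y - x‖ :=
            mul_le_mul_of_nonneg_right h1 (norm_nonneg _)
        _ < ε := by
            rw [div_mul_eq_mul_div, div_lt_iff₀ hn]
            nlinarith [norm_nonneg (y - x)]
    have hyx : y - x ≠ 0 := sub_ne_zero.2 hne.symm
    rcases hnear _ (hseg _ hzs).1 hd with h1 | ⟨i, t, ht, h1⟩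
    · exfalso
      have h2 : δ • (y - x) = 0 := by
        rwa [add_eq_left] at h1
      rcases smul_eq_zero.1 h2 with h3 | h3
      · exact hδ0.ne' h3
      · exact hyx h3
    · refine ⟨i, ?_⟩
      have h2 : δ • (y - x) = t • c.rw i := add_left_cancel h1
      have hT : 0 < t / δ := div_pos ht hδ0
      have h3 : y = x + (t / δ) • c.rw i := by
        have h4 : y - x = (t / δ) • c.rw i := by
          rw [div_eq_inv_mul, mul_smul, ← h2, ← mul_smul, inv_mul_cancel₀ hδ0.ne', one_smul]
        rw [← h4]; abel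
      refine ⟨t / δ, hT, h3, ?_⟩
      intro r hr hrT
      rcases germ_cases p q hp hq hS h i with ⟨-, hall⟩ | ⟨-, y', c', i', ⟨T', hT', hy', hact⟩, hc', -⟩
      · exact hall r hr
      · have hvy' : IsVertex (curve p q) y' := (isVertex_iff p q hp hq hS y').2 ⟨c', hc'⟩
        apply hact r hr
        by_contra hcon
        push Not at hcon
        apply (hseg y' _).2 hvy'
        rw [h3, germ_mem_openSegment hT]
        exact ⟨T', hT', lt_of_le_of_lt hcon hrT, hy'⟩
  · rintro ⟨hvy, i, T, hT, rfl, hact⟩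
    refine ⟨?_, (isVertex_iff p q hp hq hS x).2 ⟨c, h⟩, hvy, ?_⟩
    · intro h1
      have h2 : T • c.rw i = 0 := by
        rwa [left_eq_add] at h1
      rcases smul_eq_zero.1 h2 with h3 | h3
      · exact hT.ne' h3
      · exact germ_rw_ne h.2 i h3
    · intro z hz
      obtain ⟨t, ht, htT, rfl⟩ := (germ_mem_openSegment hT).1 hz
      exact ⟨mem_curve_of_face h.2 (hact t ht htT), germ_not_vertex h.2 (hact t ht htT)⟩

theorem germ_face_inj {c : VCell} (hc : c.Uni) {i i' : Fin 3}
    (h : ∀ s, c.face i s = c.face i' s) : i = i' := by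
  by_contra hne
  have h1 : c.t i' ∈ c.face i (!c.s) := by
    rw [germ_face_ns]
    exact ⟨i', Ne.symm hne, rfl⟩
  rw [h, germ_face_ns] at h1
  obtain ⟨j, hj, hj2⟩ := h1
  exact hj (germ_t_inj hc hj2).symm

/-- distinct edges at `x` have distinct other ends -/
theorem edge_inj {p q : TPoly} {x y : Fin 3 → ℝ} {c : VCell} {i i' : Fin 3}
    (h : IsCell p q x c) (h1 : EdgeTo p q x c i y) (h2 : EdgeTo p q x c i' y) : i = i' := by
  obtain ⟨T, hT, hy, hact⟩ := h1
  obtain ⟨T', hT', hy', hact'⟩ := h2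
  have e : T • c.rw i = T' • c.rw i' := by
    rw [hy] at hy'
    exact add_left_cancel hy'
  have h1 := hact (T / 2) (by linarith) (by linarith)
  have h2 := hact' (T' / 2) (by linarith) (by linarith)
  have h3 : x + (T / 2) • c.rw i = x + (T' / 2) • c.rw i' := by
    have e1 : (T / 2) • c.rw i = (1 / 2 : ℝ) • (T • c.rw i) := by
      rw [← mul_smul]; congr 1; ring
    have e2 : (T' / 2) • c.rw i' = (1 / 2 : ℝ) • (T' • c.rw i') := by
      rw [← mul_smul]; congr 1; ring
    rw [e1, e2, e]
  rw [h3] at h1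
  exact germ_face_inj h.2 (germ_actIs_unique h1 h2)

/-- the five exponents of a cell determine the vertex -/
theorem germ_cell_point {p q : TPoly} {x x' : Fin 3 → ℝ} {c : VCell} (h : IsCell p q x c)
    (h' : IsCell p q x' c) : x = x' := by
  have hF : ∀ s, ∀ m ∈ c.full s, ∀ m' ∈ c.full s,
      germIp m (x - x') = germIp m' (x - x') := by
    intro s m hm m' hm'
    have e1 := germ_val_eq ((h.1 s m).2 hm) ((h.1 s m').2 hm')
    have e2 := germ_val_eq ((h'.1 s m).2 hm) ((h'.1 s m').2 hm')
    simp only [TPoly.val, Fin.sum_univ_three] at e1 e2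
    simp only [germIp, Fin.sum_univ_three, Pi.sub_apply]
    linarith
  obtain ⟨a, ha⟩ := germ_par_unique h.2 0 (v := x - x')
    (fun s m hm m' hm' => hF s m (germ_face_sub_full c 0 s hm) m' (germ_face_sub_full c 0 s hm'))
  have h1 := germ_ip_dt c 0 0 (0 + 1) c
  rw [VCell.w_dt' c h.2] at h1
  have h2 := hF (!c.s) (c.t 0) (by rw [germ_full_ns]; exact ⟨0, rfl⟩) (c.t (0 + 1))
    (by rw [germ_full_ns]; exact ⟨0 + 1, rfl⟩)
  rw [ha] at h2
  have h3 : a = 0 := by
    simp only [germIp, Fin.sum_univ_three, Pi.smul_apply, smul_eq_mul] at h1 h2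
    push_cast at h1
    simp only [zero_add] at h1 h2
    linear_combination a * h1 - h2
  rw [h3, zero_smul] at ha
  exact sub_eq_zero.1 ha

theorem finite_vertices (p q : TPoly) (hp : p.HasDegree 2) (hq : q.HasDegree 3)
    (hS : Smooth p q) : {x | IsVertex (curve p q) x}.Finite := by
  classical
  set A : Finset (Fin 3 → ℕ) := p.supp ∪ q.supp with hA
  have hAs : ∀ s, (poly p q s).supp ⊆ A := by
    intro s
    cases s
    · exact Finset.subset_union_left
    · exact Finset.subset_union_right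
  let g : Bool × (Fin 2 → A) × (Fin 3 → A) → VCell :=
    fun y => ⟨y.1, fun l => (y.2.1 l : Fin 3 → ℕ), fun l => (y.2.2 l : Fin 3 → ℕ)⟩
  have hgfin : (Set.range g).Finite := Set.finite_range g
  have hex : ∀ x, IsVertex (curve p q) x → ∃ c ∈ Set.range g, IsCell p q x c := by
    intro x hx
    obtain ⟨c, hc⟩ := (isVertex_iff p q hp hq hS x).1 hx
    refine ⟨c, ?_, hc⟩
    have he : ∀ l, c.e l ∈ A := fun l =>
      hAs c.s ((hc.1 c.s (c.e l)).2 (by rw [germ_full_s]; exact ⟨l, rfl⟩)).1
    have ht : ∀ l, c.t l ∈ A := fun l =>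
      hAs (!c.s) ((hc.1 (!c.s) (c.t l)).2 (by rw [germ_full_ns]; exact ⟨l, rfl⟩)).1
    exact ⟨(c.s, fun l => ⟨c.e l, he l⟩, fun l => ⟨c.t l, ht l⟩), rfl⟩
  have hsub : {x | IsVertex (curve p q) x} ⊆ ⋃ c ∈ Set.range g, {x | IsCell p q x c} := by
    intro x hx
    obtain ⟨c, hc1, hc2⟩ := hex x hx
    exact Set.mem_biUnion hc1 hc2
  refine Set.Finite.subset (hgfin.biUnion fun c _ => ?_) hsub
  apply Set.Subsingleton.finite
  intro x hx x' hx'
  exact germ_cell_point hx hx'

theorem germ_three_ne_two {α : Type} {a b x y z : α} (hxy : x ≠ y) (hyz : y ≠ z) (hxz : x ≠ z)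
    (h : ({x, y, z} : Set α) ⊆ {a, b}) : False := by
  have hx : x = a ∨ x = b := by simpa using h (show x ∈ ({x, y, z} : Set α) by simp)
  have hy : y = a ∨ y = b := by simpa using h (show y ∈ ({x, y, z} : Set α) by simp)
  have hz : z = a ∨ z = b := by simpa using h (show z ∈ ({x, y, z} : Set α) by simp)
  rcases hx with rfl | rfl <;> rcases hy with rfl | rfl <;> rcases hz with rfl | rfl <;>
    first | exact hxy rfl | exact hyz rfl | exact hxz rfl

/-- cells of a vertex are unique up to order: the faces are the same sets -/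
theorem cell_faces {p q : TPoly} {x : Fin 3 → ℝ} {c c' : VCell} (h : IsCell p q x c)
    (h' : IsCell p q x c') : c.s = c'.s ∧ Set.range c.e = Set.range c'.e ∧
      Set.range c.t = Set.range c'.t := by
  have hf := germ_actIs_unique h.1 h'.1
  have hs : c.s = c'.s := by
    by_contra hne
    have h1 := hf c'.s
    have h2 : c'.s = !c.s := germ_bool _ _ (Ne.symm hne)
    rw [germ_full_s, h2, germ_full_ns] at h1
    have e1 : Set.range c'.e = {c'.e 0, c'.e 1} := by
      ext m
      simp [Fin.exists_fin_two, eq_comm]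
    have e2 : ({c.t 0, c.t 1, c.t 2} : Set (Fin 3 → ℕ)) ⊆ Set.range c.t := by
      rintro m (rfl | rfl | hm)
      · exact ⟨0, rfl⟩
      · exact ⟨1, rfl⟩
      · rw [Set.mem_singleton_iff] at hm
        exact ⟨2, hm.symm⟩
    have hinj := germ_t_inj h.2
    rw [h1, e1] at e2
    exact germ_three_ne_two (hinj.ne (by decide)) (hinj.ne (by decide)) (hinj.ne (by decide)) e2
  refine ⟨hs, ?_, ?_⟩
  · have h1 := hf c.s
    rw [germ_full_s, hs, germ_full_s] at h1
    exact h1
  · have h1 := hf (!c.s)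
    rw [germ_full_ns, hs, germ_full_ns] at h1
    exact h1

/-- the ends of an edge and the direction -/
theorem germ_edge_data (p q : TPoly) (hp : p.HasDegree 2) (hq : q.HasDegree 3) (hS : Smooth p q)
    {x y a : Fin 3 → ℝ} (h1 : (edgeGraph (curve p q)).Adj x y) (ha : a ∈ openSegment ℝ x y) :
    ∃ (c : VCell) (i : Fin 3) (r s : ℝ), c.Uni ∧ ActIs p q a (c.face i) ∧ 0 < r ∧ 0 < s ∧
      x = a + (-r) • c.rw i ∧ y = a + s • c.rw i := by
  obtain ⟨c, hc⟩ := (isVertex_iff p q hp hq hS x).1 h1.2.1
  obtain ⟨-, i, T, hT, hy, hact⟩ := (adj_iff p q hp hq hS hc).1 h1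
  rw [hy, germ_mem_openSegment hT] at ha
  obtain ⟨t, ht, htT, rfl⟩ := ha
  refine ⟨c, i, t, T - t, hc.2, hact t ht htT, ht, by linarith, ?_, ?_⟩
  · rw [germ_add_smul, add_neg_cancel, zero_smul, add_zero]
  · rw [germ_add_smul, hy]
    congr 2
    ring

theorem germ_open_iff {a v : Fin 3 → ℝ} {r s b : ℝ} (hr : 0 < r) (hs : 0 < s)
    (h1 : -r < b) (h2 : b < s) :
    a + b • v ∈ openSegment ℝ (a + (-r) • v) (a + s • v) := by
  have e : a + s • v = (a + (-r) • v) + (r + s) • v := by
    rw [germ_add_smul]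
    congr 2
    ring
  rw [e, germ_mem_openSegment (by linarith)]
  refine ⟨r + b, by linarith, by linarith, ?_⟩
  rw [germ_add_smul]
  congr 2
  ring

/-- two edges with a common interior point are equal -/
theorem edges_disjoint (p q : TPoly) (hp : p.HasDegree 2) (hq : q.HasDegree 3)
    (hS : Smooth p q) {x y z z' a : Fin 3 → ℝ}
    (h1 : (edgeGraph (curve p q)).Adj x y) (h2 : (edgeGraph (curve p q)).Adj z z')
    (ha : a ∈ openSegment ℝ x y) (ha' : a ∈ openSegment ℝ z z') :
    (z = x ∧ z' = y) ∨ (z = y ∧ z' = x) := by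
  obtain ⟨c, i, r, s, hc, hact, hr, hs, hx, hy⟩ := germ_edge_data p q hp hq hS h1 ha
  obtain ⟨c', i', r', s', hc', hact', hr', hs', hz, hz'⟩ := germ_edge_data p q hp hq hS h2 ha'
  obtain ⟨k, hk, hkv⟩ := germ_parallel hc hc' (germ_actIs_unique hact hact')
  set v := c.rw i with hv
  rw [hkv, ← mul_smul] at hz hz'
  have no1 : ∀ b : ℝ, IsVertex (curve p q) (a + b • v) → ¬ (-r < b ∧ b < s) := by
    rintro b hb ⟨hb1, hb2⟩
    have := h1.2.2.2 _ (by rw [hx, hy]; exact germ_open_iff hr hs hb1 hb2)
    exact this.2 hb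
  have hvx : IsVertex (curve p q) (a + (-r) • v) := by rw [← hx]; exact h1.2.1
  have hvy : IsVertex (curve p q) (a + s • v) := by rw [← hy]; exact h1.2.2.1
  have hvz : IsVertex (curve p q) (a + (-r' * k) • v) := by rw [← hz]; exact h2.2.1
  have hvz' : IsVertex (curve p q) (a + (s' * k) • v) := by rw [← hz']; exact h2.2.2.1
  have n1 := no1 _ hvz
  have n2 := no1 _ hvz'
  rcases lt_or_gt_of_ne hk with hk0 | hk0
  · -- `k < 0`
    have hA : 0 < -r' * k := by nlinarith
    have hB : 0 < -(s' * k) := by nlinarith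
    have no2 : ∀ b : ℝ, IsVertex (curve p q) (a + b • v) → ¬ (s' * k < b ∧ b < -r' * k) := by
      rintro b hb ⟨hb1, hb2⟩
      have := h2.2.2.2 (a + b • v) (by
        rw [hz, hz', openSegment_symm]
        have := germ_open_iff (a := a) (v := v) (b := b) hB hA (by linarith) hb2
        rwa [neg_neg] at this)
      exact this.2 hb
    have m1 := no2 _ hvx
    have m2 := no2 _ hvy
    right
    have e1 : -r' * k = s := by
      apply le_antisymm
      · by_contra hcon
        push Not at hcon
        exact m2 ⟨by linarith, hcon⟩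
      · by_contra hcon
        push Not at hcon
        exact n1 ⟨by linarith, hcon⟩
    have e2 : s' * k = -r := by
      apply le_antisymm
      · by_contra hcon
        push Not at hcon
        exact n2 ⟨hcon, by linarith⟩
      · by_contra hcon
        push Not at hcon
        exact m1 ⟨hcon, by linarith⟩
    rw [hz, hz', hx, hy, e1, e2]
    exact ⟨rfl, rfl⟩
  · have hA : 0 < r' * k := by positivity
    have hB : 0 < s' * k := by positivity
    have no2 : ∀ b : ℝ, IsVertex (curve p q) (a + b • v) → ¬ (-r' * k < b ∧ b < s' * k) := by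
      rintro b hb ⟨hb1, hb2⟩
      have := h2.2.2.2 (a + b • v) (by
        rw [hz, hz']
        have := germ_open_iff (a := a) (v := v) (b := b) hA hB (by linarith) hb2
        rwa [← neg_mul] at this)
      exact this.2 hb
    have m1 := no2 _ hvx
    have m2 := no2 _ hvy
    left
    have e1 : -r' * k = -r := by
      apply le_antisymm
      · by_contra hcon
        push Not at hcon
        exact n1 ⟨hcon, by linarith⟩
      · by_contra hcon
        push Not at hcon
        exact m1 ⟨hcon, by linarith⟩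
    have e2 : s' * k = s := by
      apply le_antisymm
      · by_contra hcon
        push Not at hcon
        exact m2 ⟨by linarith, hcon⟩
      · by_contra hcon
        push Not at hcon
        exact n2 ⟨by linarith, hcon⟩
    rw [hz, hz', hx, hy, e1, e2]
    exact ⟨rfl, rfl⟩

/-- an edge and a ray have no common interior point -/
theorem edge_ray_disjoint (p q : TPoly) (hp : p.HasDegree 2) (hq : q.HasDegree 3)
    (hS : Smooth p q) {x y z a : Fin 3 → ℝ} {c : VCell} {i : Fin 3}
    (h1 : (edgeGraph (curve p q)).Adj x y) (hz : IsCell p q z c)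
    (h2 : ∀ t : ℝ, 0 < t → ActIs p q (z + t • c.rw i) (c.face i))
    (ha : a ∈ openSegment ℝ x y) (ha' : ∃ t : ℝ, 0 < t ∧ a = z + t • c.rw i) : False := by
  obtain ⟨t, ht, hat⟩ := ha'
  obtain ⟨c', i', r', s', hc', hact', hr', hs', hx, hy⟩ := germ_edge_data p q hp hq hS h1 ha
  have hact := h2 t ht
  rw [← hat] at hact
  obtain ⟨k, hk, hkv⟩ := germ_parallel hz.2 hc' (germ_actIs_unique hact hact')
  rw [hkv, ← mul_smul, hat, germ_add_smul] at hx hy
  rcases lt_or_gt_of_ne hk with hk0 | hk0
  · have h3 : 0 < t + -r' * k := by nlinarith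
    have h4 := germ_not_vertex hz.2 (h2 _ h3)
    rw [← hx] at h4
    exact h4 h1.2.1
  · have h3 : 0 < t + s' * k := by positivity
    have h4 := germ_not_vertex hz.2 (h2 _ h3)
    rw [← hy] at h4
    exact h4 h1.2.2.1

end Pool.Agent.H40.TS
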