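import Pool.Agent.H40.TS.Point

/-!
# Local structure of the curve and vertices (job TS-LINE)

* `act_near`: continuity; the supports are finite.
* `near_vertex`: near `x` only `e 0, e 1, t 0, t 1, t 2` can be active.  For `z = x + v` close to `x`
  the point `z` is in the curve iff `⟨u, v⟩ = 0` and the maximum of the `⟨t j, v⟩` is attained
  twice, say by `t (i+1), t (i+2)`; then `v = a • w i` (`VCell.w_unique`), and
  `⟨t i - t (i+1), v⟩ = - a ≤ 0` (`VCell.w_dt'`) shows `a ≥ 0`.  Conversely for `v = t • w i` with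
  small `t > 0` exactly the exponents of `face i` are active.
* `locallyLine_of_face`: near such a point only the four exponents of the face are active, so
  `x + v` is in the curve iff `v` is orthogonal to `u` and `dt (i+2) (i+1)`, iff `v ∈ ℝ (w i)`.
* `not_locallyLine`: a line through `x` would contain the three germs `x + t w_i`, but two of the
  `w_i` are linearly independent.
* `isVertex_iff`: `point_cases`.
-/

set_option autoImplicit false

namespace Pool.Agent.H40.TS

open Matrix Filter Topology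

/-- real direction vector of the edge number `i` -/
def VCell.rw (c : VCell) (i : Fin 3) : Fin 3 → ℝ := fun l => (c.w i l : ℝ)

/-! ### auxiliary lemmas -/

/-- inner product of an exponent and a vector -/
def lineIp (m : Fin 3 → ℕ) (v : Fin 3 → ℝ) : ℝ := ∑ l, (m l : ℝ) * v l

theorem line_val_line (P : TPoly) (m : Fin 3 → ℕ) (x v : Fin 3 → ℝ) (t : ℝ) :
    P.val m (x + t • v) = P.val m x + t * lineIp m v := by
  simp only [TPoly.val, lineIp, Fin.sum_univ_three, Pi.add_apply, Pi.smul_apply, smul_eq_mul]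
  ring

theorem line_val_eq {P : TPoly} {m m' : Fin 3 → ℕ} {x : Fin 3 → ℝ} (h : P.Act x m)
    (h' : P.Act x m') : P.val m x = P.val m' x :=
  le_antisymm (h'.2 m h.1) (h.2 m' h'.1)

theorem line_lt_of_not_act {P : TPoly} {m f : Fin 3 → ℕ} {x : Fin 3 → ℝ} (hm : m ∈ P.supp)
    (hf : P.Act x f) (h : ¬ P.Act x m) : P.val m x < P.val f x := by
  by_contra hcon
  push Not at hcon
  exact h ⟨hm, fun m' hm' => (hf.2 m' hm').trans hcon⟩

theorem line_act_of_eq {P : TPoly} {m f : Fin 3 → ℕ} {x : Fin 3 → ℝ} (hm : m ∈ P.supp)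
    (hf : P.Act x f) (h : P.val m x = P.val f x) : P.Act x m :=
  ⟨hm, fun m' hm' => (hf.2 m' hm').trans h.ge⟩

/-- all exponents of `F` are active at `z` -/
def LineAll (p q : TPoly) (z : Fin 3 → ℝ) (F : Bool → Set (Fin 3 → ℕ)) : Prop :=
  ∀ s, ∀ m ∈ F s, (poly p q s).Act z m

theorem line_exists_act (P : TPoly) (h : P.supp.Nonempty) (x : Fin 3 → ℝ) : ∃ m, P.Act x m := by
  obtain ⟨m, hm, h2⟩ := Finset.exists_max_image P.supp (fun m => P.val m x) h
  exact ⟨m, hm, h2⟩

theorem line_bool (a b : Bool) (h : a ≠ b) : a = !b := by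
  cases a <;> cases b <;> simp_all

theorem line_face_s (c : VCell) (i : Fin 3) : c.face i c.s = Set.range c.e := by
  simp [VCell.face]

theorem line_face_ns (c : VCell) (i : Fin 3) : c.face i (!c.s) = {m | ∃ j, j ≠ i ∧ m = c.t j} := by
  simp [VCell.face]

theorem line_full_s (c : VCell) : c.full c.s = Set.range c.e := by
  simp [VCell.full]

theorem line_full_ns (c : VCell) : c.full (!c.s) = Set.range c.t := by
  simp [VCell.full]

theorem line_e_ne {c : VCell} (hc : c.Uni) : c.e 0 ≠ c.e 1 := by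
  intro h
  have hu : c.u = 0 := by
    funext l
    simp [VCell.u, h]
  have hD : c.D = 0 := by simp [VCell.D, hu]
  rcases hc with h1 | h1 <;> omega

theorem line_t_inj {c : VCell} (hc : c.Uni) : Function.Injective c.t := by
  have key : ∀ i, c.t i ≠ c.t (i + 1) := by
    intro i h
    have h1 := VCell.w_dt' c hc i
    have h2 : c.dt i (i + 1) = 0 := by
      funext l
      simp [VCell.dt, h]
    rw [h2] at h1
    simp at h1
  intro i j hij
  have k0 := key 0
  have k1 := key 1
  have k2 := key 2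
  simp only [Fin.isValue, zero_add] at k0 k1 k2
  have e2 : (1 : Fin 3) + 1 = 2 := by decide
  have e3 : (2 : Fin 3) + 1 = 0 := by decide
  rw [e2] at k1
  rw [e3] at k2
  fin_cases i <;> fin_cases j <;> simp_all

theorem line_face_pair {c : VCell} (hc : c.Uni) (i : Fin 3) (s : Bool) :
    ∃ m m', m ≠ m' ∧ c.face i s = {m, m'} := by
  by_cases hs : s = c.s
  · subst hs
    refine ⟨c.e 0, c.e 1, line_e_ne hc, ?_⟩
    rw [line_face_s]
    ext m
    simp [Fin.exists_fin_two, eq_comm]
  · obtain rfl := line_bool s c.s hs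
    have hfin : ∀ i : Fin 3, ∃ j k, j ≠ k ∧ j ≠ i ∧ k ≠ i ∧ ∀ l, l ≠ i → l = j ∨ l = k := by decide
    obtain ⟨j, k, hjk, hj, hk, hl⟩ := hfin i
    refine ⟨c.t j, c.t k, fun h => hjk (line_t_inj hc h), ?_⟩
    rw [line_face_ns]
    ext m
    constructor
    · rintro ⟨l, hl', rfl⟩
      rcases hl l hl' with rfl | rfl
      · left; rfl
      · right; rfl
    · rintro (rfl | h)
      · exact ⟨j, hj, rfl⟩
      · rw [Set.mem_singleton_iff] at h
        exact ⟨k, hk, h⟩

theorem line_face_nonempty (c : VCell) (i : Fin 3) (s : Bool) : (c.face i s).Nonempty := by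
  by_cases hs : s = c.s
  · subst hs
    rw [line_face_s]
    exact ⟨c.e 0, 0, rfl⟩
  · obtain rfl := line_bool s c.s hs
    rw [line_face_ns]
    have hfin : ∀ i : Fin 3, ∃ j, j ≠ i := by decide
    obtain ⟨j, hj⟩ := hfin i
    exact ⟨c.t j, j, hj, rfl⟩

theorem line_face_sub_full (c : VCell) (i : Fin 3) (s : Bool) : c.face i s ⊆ c.full s := by
  intro m hm
  by_cases hs : s = c.s
  · subst hs
    rw [line_face_s] at hm
    rwa [line_full_s]
  · obtain rfl := line_bool s c.s hs
    rw [line_face_ns] at hm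
    rw [line_full_ns]
    obtain ⟨j, -, rfl⟩ := hm
    exact ⟨j, rfl⟩

/-- The members of `F` have equal inner products with `v`. -/
def LinePar (F : Bool → Set (Fin 3 → ℕ)) (v : Fin 3 → ℝ) : Prop :=
  ∀ s, ∀ m ∈ F s, ∀ m' ∈ F s, lineIp m v = lineIp m' v

theorem line_ip_dt (c : VCell) (i' j j' : Fin 3) (c' : VCell) :
    lineIp (c.t j) (c'.rw i') - lineIp (c.t j') (c'.rw i') = ((c'.w i' ⬝ᵥ c.dt j j' : ℤ) : ℝ) := by
  simp only [lineIp, Fin.sum_univ_three, VCell.rw, VCell.dt, dotProduct]
  push_cast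
  ring

theorem line_ip_u (c : VCell) (i' : Fin 3) (c' : VCell) :
    lineIp (c.e 1) (c'.rw i') - lineIp (c.e 0) (c'.rw i') = ((c'.w i' ⬝ᵥ c.u : ℤ) : ℝ) := by
  simp only [lineIp, Fin.sum_univ_three, VCell.rw, VCell.u, dotProduct]
  push_cast
  ring

theorem line_fin_ne : ∀ i j : Fin 3, j ≠ i → j = i + 1 ∨ j = i + 2 := by decide

theorem line_par_face {c : VCell} (hc : c.Uni) (i : Fin 3) : LinePar (c.face i) (c.rw i) := by
  intro s m hm m' hm'
  by_cases hs : s = c.s
  · subst hs
    rw [line_face_s] at hm hm'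
    have h1 := line_ip_u c i c
    rw [VCell.w_u] at h1
    simp only [Int.cast_zero] at h1
    obtain ⟨a, rfl⟩ := hm
    obtain ⟨b, rfl⟩ := hm'
    fin_cases a <;> fin_cases b <;> simp <;> linarith
  · obtain rfl := line_bool s c.s hs
    rw [line_face_ns] at hm hm'
    have h1 := line_ip_dt c i (i + 2) (i + 1) c
    rw [VCell.w_dt c hc] at h1
    simp only [Int.cast_zero] at h1
    obtain ⟨a, ha, rfl⟩ := hm
    obtain ⟨b, hb, rfl⟩ := hm'
    rcases line_fin_ne i a ha with rfl | rfl <;> rcases line_fin_ne i b hb with rfl | rfl <;>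
      linarith

theorem line_par_unique {c : VCell} (hc : c.Uni) (i : Fin 3) {v : Fin 3 → ℝ}
    (h : LinePar (c.face i) v) : ∃ a : ℝ, v = a • c.rw i := by
  refine VCell.w_unique c hc i v ?_ ?_
  · have h1 := h c.s (c.e 1) (by rw [line_face_s]; exact ⟨1, rfl⟩) (c.e 0)
      (by rw [line_face_s]; exact ⟨0, rfl⟩)
    simp only [lineIp, Fin.sum_univ_three] at h1
    simp only [dotProduct, Fin.sum_univ_three, VCell.u]
    push_cast
    linarith
  · have hfin : ∀ i : Fin 3, i + 2 ≠ i ∧ i + 1 ≠ i := by decide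
    have h1 := h (!c.s) (c.t (i + 2)) (by rw [line_face_ns]; exact ⟨i + 2, (hfin i).1, rfl⟩)
      (c.t (i + 1)) (by rw [line_face_ns]; exact ⟨i + 1, (hfin i).2, rfl⟩)
    simp only [lineIp, Fin.sum_univ_three] at h1
    simp only [dotProduct, Fin.sum_univ_three, VCell.dt]
    push_cast
    linarith

theorem line_rw_ne {c : VCell} (hc : c.Uni) (i : Fin 3) : c.rw i ≠ 0 := by
  intro h
  have h1 := line_ip_dt c i i (i + 1) c
  rw [VCell.w_dt' c hc, h] at h1
  simp [lineIp] at h1


theorem line_continuous (P : TPoly) (m : Fin 3 → ℕ) : Continuous (fun x => P.val m x) := by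
  unfold TPoly.val
  fun_prop

/-- Exponents active near `x` are active at `x`. -/
theorem act_near (p q : TPoly) (x : Fin 3 → ℝ) :
    ∃ ε > 0, ∀ z, dist z x < ε → ∀ s m, (poly p q s).Act z m → (poly p q s).Act x m := by
  have key : ∀ P : TPoly, ∀ᶠ z in 𝓝 x, ∀ m ∈ P.supp, P.Act z m → P.Act x m := by
    intro P
    rw [Filter.eventually_all_finset]
    intro m hm
    by_cases hact : P.Act x m
    · exact Filter.Eventually.of_forall (fun _ _ => hact)
    · have : ∃ m' ∈ P.supp, P.val m x < P.val m' x := by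
        by_contra hcon
        push Not at hcon
        exact hact ⟨hm, hcon⟩
      obtain ⟨m', hm', hlt⟩ := this
      have h1 : ∀ᶠ z in 𝓝 x, P.val m z < P.val m' z :=
        (line_continuous P m).continuousAt.eventually_lt (line_continuous P m').continuousAt hlt
      filter_upwards [h1] with z hz hz2
      exact absurd (hz2.2 m' hm') (not_le.2 hz)
  have h2 : ∀ᶠ z in 𝓝 x, ∀ s m, (poly p q s).Act z m → (poly p q s).Act x m := by
    filter_upwards [key p, key q] with z h1 h2 s m hm
    cases s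
    · exact h1 m hm.1 hm
    · exact h2 m hm.1 hm
  obtain ⟨ε, hε, h3⟩ := Metric.eventually_nhds_iff.1 h2
  exact ⟨ε, hε, fun z hz => h3 hz⟩

theorem line_sub (x y : Fin 3 → ℝ) : y = x + (1 : ℝ) • (y - x) := by
  rw [one_smul]; abel

theorem line_curve_two {p q : TPoly} {z : Fin 3 → ℝ} (hz : z ∈ curve p q) (s : Bool) :
    ∃ m m', m ≠ m' ∧ (poly p q s).Act z m ∧ (poly p q s).Act z m' := by
  cases s
  · exact hz.1
  · exact hz.2

theorem line_curve_of_two {p q : TPoly} {z : Fin 3 → ℝ}
    (h : ∀ s, ∃ m m', m ≠ m' ∧ (poly p q s).Act z m ∧ (poly p q s).Act z m') :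
    z ∈ curve p q := ⟨h false, h true⟩

theorem line_pair_eq {α : Type} {a b c d : α} (hab : a ≠ b) (h1 : a ∈ ({c, d} : Set α))
    (h2 : b ∈ ({c, d} : Set α)) : (a = c ∧ b = d) ∨ (a = d ∧ b = c) := by
  have ha : a = c ∨ a = d := by simpa using h1
  have hb : b = c ∨ b = d := by simpa using h2
  rcases ha with rfl | rfl <;> rcases hb with rfl | rfl
  · exact absurd rfl hab
  · exact Or.inl ⟨rfl, rfl⟩
  · exact Or.inr ⟨rfl, rfl⟩
  · exact absurd rfl hab

/-- if `a`, `b` are active at `x` and at `x + v` then they have the same inner product with `v` -/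
theorem line_ip_eq {P : TPoly} {a b : Fin 3 → ℕ} {x y : Fin 3 → ℝ} (h1 : P.Act x a)
    (h2 : P.Act x b) (h3 : P.Act y a) (h4 : P.Act y b) :
    lineIp a (y - x) = lineIp b (y - x) := by
  have e1 := line_val_eq h1 h2
  have e2 := line_val_eq h3 h4
  rw [line_sub x y, line_val_line, line_val_line] at e2
  linarith

theorem line_ip_le {P : TPoly} {a b : Fin 3 → ℕ} {x y : Fin 3 → ℝ} (h1 : P.Act x a)
    (h2 : P.Act x b) (h4 : P.Act y b) :
    lineIp a (y - x) ≤ lineIp b (y - x) := by
  have e1 := line_val_eq h1 h2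
  have e2 := h4.2 a h1.1
  rw [line_sub x y, line_val_line, line_val_line] at e2
  linarith

/-- A point with four active exponents is a point near which the curve is a line. -/
theorem locallyLine_of_face {p q : TPoly} {x : Fin 3 → ℝ} {c : VCell} {i : Fin 3}
    (hc : c.Uni) (h : ActIs p q x (c.face i)) : LocallyLine (curve p q) x := by
  obtain ⟨ε, hε, hnear⟩ := act_near p q x
  refine ⟨c.rw i, line_rw_ne hc i, ε, hε, fun y hy => ⟨fun hyC => ?_, ?_⟩⟩
  · have hpar : LinePar (c.face i) (y - x) := by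
      intro s m hm m' hm'
      obtain ⟨a, b, hab, hF⟩ := line_face_pair hc i s
      obtain ⟨m1, m2, hne, hm1, hm2⟩ := line_curve_two hyC s
      have h1 := (h s m1).1 (hnear y hy s m1 hm1)
      have h2 := (h s m2).1 (hnear y hy s m2 hm2)
      have hboth : (poly p q s).Act y a ∧ (poly p q s).Act y b := by
        rw [hF] at h1 h2
        rcases line_pair_eq hne h1 h2 with ⟨rfl, rfl⟩ | ⟨rfl, rfl⟩
        · exact ⟨hm1, hm2⟩
        · exact ⟨hm2, hm1⟩
      have hall : ∀ m ∈ c.face i s, (poly p q s).Act y m := by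
        intro m hm
        rw [hF] at hm
        rcases hm with rfl | hm
        · exact hboth.1
        · rw [Set.mem_singleton_iff] at hm
          rw [hm]; exact hboth.2
      exact line_ip_eq ((h s m).2 hm) ((h s m').2 hm') (hall m hm) (hall m' hm')
    obtain ⟨a, ha⟩ := line_par_unique hc i hpar
    refine ⟨a, ?_⟩
    rw [← ha]; abel
  · rintro ⟨t, rfl⟩
    apply line_curve_of_two
    intro s
    obtain ⟨a, b, hab, hF⟩ := line_face_pair hc i s
    have haF : a ∈ c.face i s := by rw [hF]; simp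
    have hbF : b ∈ c.face i s := by rw [hF]; simp
    have ha := (h s a).2 haF
    have hb := (h s b).2 hbF
    obtain ⟨m, hm⟩ := line_exists_act (poly p q s) ⟨a, ha.1⟩ (x + t • c.rw i)
    have hmF := (h s m).1 (hnear _ hy s m hm)
    have hval : ∀ f ∈ c.face i s, (poly p q s).Act (x + t • c.rw i) f := by
      intro f hf
      refine line_act_of_eq ((h s f).2 hf).1 hm ?_
      rw [line_val_line, line_val_line, line_par_face hc i s f hf m hmF,
        line_val_eq ((h s f).2 hf) ((h s m).2 hmF)]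
    exact ⟨a, b, hab, hval a haF, hval b hbF⟩

theorem line_norm_dist (x v : Fin 3 → ℝ) (t : ℝ) : dist (x + t • v) x = |t| * ‖v‖ := by
  rw [dist_eq_norm, add_sub_cancel_left, norm_smul, Real.norm_eq_abs]

theorem line_third : ∀ j k : Fin 3, j ≠ k →
    ∃ i, (j = i + 1 ∧ k = i + 2) ∨ (j = i + 2 ∧ k = i + 1) := by decide

theorem line_fin_all : ∀ i j : Fin 3, j = i ∨ j = i + 1 ∨ j = i + 2 := by decide

theorem line_fin_facts : ∀ i : Fin 3, i + 1 ≠ i ∧ i + 2 ≠ i := by decide

theorem line_ip_t {c : VCell} (hc : c.Uni) (i : Fin 3) :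
    lineIp (c.t i) (c.rw i) = lineIp (c.t (i + 1)) (c.rw i) - 1 := by
  have h1 := line_ip_dt c i i (i + 1) c
  rw [VCell.w_dt' c hc] at h1
  push_cast at h1
  linarith

theorem line_t_mem_face {c : VCell} {i j : Fin 3} (h : j ≠ i) : c.t j ∈ c.face i (!c.s) := by
  rw [line_face_ns]; exact ⟨j, h, rfl⟩

theorem line_t_notMem_face {c : VCell} (hc : c.Uni) (i : Fin 3) : c.t i ∉ c.face i (!c.s) := by
  rw [line_face_ns]
  rintro ⟨j, hj, hj2⟩
  exact hj (line_t_inj hc hj2).symm

/-- Near a point `x` with cell `c`, the curve consists of the three germs `x + t w_i`. -/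
theorem near_vertex {p q : TPoly} {x : Fin 3 → ℝ} {c : VCell} (h : IsCell p q x c) :
    ∃ ε : ℝ, 0 < ε ∧
      (∀ i, ∀ t : ℝ, 0 < t → t < ε → ActIs p q (x + t • c.rw i) (c.face i)) ∧
      (∀ z ∈ curve p q, dist z x < ε → z = x ∨ ∃ i, ∃ t : ℝ, 0 < t ∧ z = x + t • c.rw i) := by
  obtain ⟨ε, hε, hnear⟩ := act_near p q x
  have hfull : ∀ z, dist z x < ε → ∀ s m, (poly p q s).Act z m → m ∈ c.full s :=
    fun z hz s m hm => (h.1 s m).1 (hnear z hz s m hm)
  set N : ℝ := 1 + ∑ i, ‖c.rw i‖ with hN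
  have hNpos : 1 ≤ N := by
    rw [hN]
    have : 0 ≤ ∑ i, ‖c.rw i‖ := Finset.sum_nonneg fun i _ => norm_nonneg _
    linarith
  have hNi : ∀ i, ‖c.rw i‖ ≤ N := by
    intro i
    have := Finset.single_le_sum (f := fun i => ‖c.rw i‖) (fun i _ => norm_nonneg _)
      (Finset.mem_univ i)
    rw [hN]
    linarith
  refine ⟨ε / N, by positivity, ?_, ?_⟩
  · intro i t ht htε
    have hd : dist (x + t • c.rw i) x < ε := by
      rw [line_norm_dist, abs_of_pos ht]
      rw [lt_div_iff₀ (by linarith)] at htε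
      calc t * ‖c.rw i‖ ≤ t * N := mul_le_mul_of_nonneg_left (hNi i) ht.le
        _ < ε := htε
    have hf := hfull _ hd
    intro s m
    by_cases hs : s = c.s
    · subst hs
      have hsup : ∀ f ∈ Set.range c.e, (poly p q c.s).Act x f := by
        intro f hf
        rw [h.1, line_full_s]; exact hf
      obtain ⟨m0, hm0⟩ := line_exists_act (poly p q c.s) ⟨c.e 0, (hsup _ ⟨0, rfl⟩).1⟩
        (x + t • c.rw i)
      have hm0F := hf _ _ hm0
      rw [line_full_s] at hm0F
      constructor
      · intro hm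
        have := hf _ _ hm
        rw [line_full_s] at this
        rwa [line_face_s]
      · intro hm
        have hm' := hm
        rw [line_face_s] at hm'
        refine line_act_of_eq (hsup m hm').1 hm0 ?_
        have hm0F' : m0 ∈ c.face i c.s := by rw [line_face_s]; exact hm0F
        rw [line_val_line, line_val_line, line_par_face h.2 i c.s m hm m0 hm0F',
          line_val_eq (hsup m hm') (hsup m0 hm0F)]
    · obtain rfl := line_bool s c.s hs
      have hsup : ∀ j, (poly p q (!c.s)).Act x (c.t j) := by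
        intro j
        rw [h.1, line_full_ns]; exact ⟨j, rfl⟩
      have hmemF : ∀ j, j ≠ i → c.t j ∈ c.face i (!c.s) := fun j hj => line_t_mem_face hj
      obtain ⟨m0, hm0⟩ := line_exists_act (poly p q (!c.s)) ⟨c.t 0, (hsup 0).1⟩
        (x + t • c.rw i)
      have hnoti : ¬ (poly p q (!c.s)).Act (x + t • c.rw i) (c.t i) := by
        intro hcon
        have h1 := hcon.2 _ (hsup (i + 1)).1
        rw [line_val_line, line_val_line, line_val_eq (hsup (i + 1)) (hsup i),
          line_ip_t h.2 i] at h1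
        nlinarith
      have hsubF : ∀ m, (poly p q (!c.s)).Act (x + t • c.rw i) m → m ∈ c.face i (!c.s) := by
        intro m hm
        have h1 := hf _ _ hm
        rw [line_full_ns] at h1
        obtain ⟨j, rfl⟩ := h1
        apply hmemF
        rintro rfl
        exact hnoti hm
      constructor
      · exact hsubF m
      · intro hm
        have hm' := hm
        rw [line_face_ns] at hm'
        obtain ⟨j, hj, rfl⟩ := hm'
        have hm0F := hsubF m0 hm0
        have hm0F' := hm0F
        rw [line_face_ns] at hm0F'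
        obtain ⟨k, hk, rfl⟩ := hm0F'
        refine line_act_of_eq (hsup j).1 hm0 ?_
        rw [line_val_line, line_val_line, line_par_face h.2 i (!c.s) _ hm _ hm0F,
          line_val_eq (hsup j) (hsup k)]
  · intro z hz hd
    have hd' : dist z x < ε := by
      rw [lt_div_iff₀ (by linarith)] at hd
      nlinarith [dist_nonneg (x := z) (y := x)]
    have hf := hfull z hd'
    -- the kind with two members
    have hE : lineIp (c.e 1) (z - x) = lineIp (c.e 0) (z - x) := by
      obtain ⟨m1, m2, hne, hm1, hm2⟩ := line_curve_two hz c.s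
      have h1 := hf _ _ hm1
      have h2 := hf _ _ hm2
      have heq := line_ip_eq ((h.1 _ _).2 h1) ((h.1 _ _).2 h2) hm1 hm2
      rw [line_full_s] at h1 h2
      obtain ⟨a, rfl⟩ := h1
      obtain ⟨b, rfl⟩ := h2
      fin_cases a <;> fin_cases b
      · exact absurd rfl hne
      · exact heq.symm
      · exact heq
      · exact absurd rfl hne
    obtain ⟨m1, m2, hne, hm1, hm2⟩ := line_curve_two hz (!c.s)
    have h1 := hf _ _ hm1
    have h2 := hf _ _ hm2
    have heq := line_ip_eq ((h.1 _ _).2 h1) ((h.1 _ _).2 h2) hm1 hm2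
    rw [line_full_ns] at h1 h2
    obtain ⟨j, rfl⟩ := h1
    obtain ⟨k, rfl⟩ := h2
    have hjk : j ≠ k := fun h => hne (by rw [h])
    have hsup : ∀ j, (poly p q (!c.s)).Act x (c.t j) := by
      intro j
      rw [h.1, line_full_ns]; exact ⟨j, rfl⟩
    obtain ⟨i, hi⟩ := line_third j k hjk
    have hT : lineIp (c.t (i + 2)) (z - x) = lineIp (c.t (i + 1)) (z - x) := by
      rcases hi with ⟨rfl, rfl⟩ | ⟨rfl, rfl⟩
      · exact heq.symm
      · exact heq
    have hact1 : (poly p q (!c.s)).Act z (c.t (i + 1)) := by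
      rcases hi with ⟨rfl, rfl⟩ | ⟨rfl, rfl⟩
      · exact hm1
      · exact hm2
    have hle := line_ip_le (hsup i) (hsup (i + 1)) hact1
    have hpar : LinePar (c.face i) (z - x) := by
      intro s m hm m' hm'
      by_cases hs : s = c.s
      · subst hs
        rw [line_face_s] at hm hm'
        obtain ⟨a, rfl⟩ := hm
        obtain ⟨b, rfl⟩ := hm'
        fin_cases a <;> fin_cases b <;> simp <;> linarith
      · obtain rfl := line_bool s c.s hs
        rw [line_face_ns] at hm hm'
        obtain ⟨a, ha, rfl⟩ := hm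
        obtain ⟨b, hb, rfl⟩ := hm'
        rcases line_fin_ne i a ha with rfl | rfl <;> rcases line_fin_ne i b hb with rfl | rfl <;>
          linarith
    obtain ⟨a, ha⟩ := line_par_unique h.2 i hpar
    have ha0 : 0 ≤ a := by
      rw [ha] at hle
      have h3 := line_ip_t h.2 i
      simp only [lineIp, Fin.sum_univ_three, Pi.smul_apply, smul_eq_mul] at hle h3
      nlinarith
    have hzx : z = x + a • c.rw i := by
      rw [← ha]; abel
    rcases ha0.eq_or_lt with h0 | h0
    · left
      rw [hzx, ← h0, zero_smul, add_zero]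
    · right
      exact ⟨i, a, h0, hzx⟩

theorem not_locallyLine {p q : TPoly} {x : Fin 3 → ℝ} {c : VCell} (h : IsCell p q x c) :
    ¬ LocallyLine (curve p q) x := by
  rintro ⟨u, hu, ε, hε, hiff⟩
  obtain ⟨ε', hε', hgerm, -⟩ := near_vertex h
  have key : ∀ i, ∃ a : ℝ, c.rw i = a • u := by
    intro i
    have hn : 0 < ‖c.rw i‖ + 1 := by positivity
    set t : ℝ := min (ε' / 2) (ε / 2 / (‖c.rw i‖ + 1)) with ht
    have ht0 : 0 < t := by positivity
    have ht1 : t < ε' := lt_of_le_of_lt (min_le_left _ _) (by linarith)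
    have hd : dist (x + t • c.rw i) x < ε := by
      rw [line_norm_dist, abs_of_pos ht0]
      have h1 : t ≤ ε / 2 / (‖c.rw i‖ + 1) := min_le_right _ _
      calc t * ‖c.rw i‖ ≤ ε / 2 / (‖c.rw i‖ + 1) * ‖c.rw i‖ :=
            mul_le_mul_of_nonneg_right h1 (norm_nonneg _)
        _ < ε := by
            rw [div_mul_eq_mul_div, div_lt_iff₀ hn]
            nlinarith [norm_nonneg (c.rw i)]
    have hC : x + t • c.rw i ∈ curve p q := mem_curve_of_face h.2 (hgerm i t ht0 ht1)
    obtain ⟨s, hs⟩ := (hiff _ hd).1 hC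
    have h2 : t • c.rw i = s • u := add_left_cancel hs
    refine ⟨s / t, ?_⟩
    rw [div_eq_inv_mul, mul_smul, ← h2, ← mul_smul, inv_mul_cancel₀ ht0.ne', one_smul]
  obtain ⟨a, ha⟩ := key 0
  obtain ⟨b, hb⟩ := key 1
  have ha0 : a ≠ 0 := by
    rintro rfl
    rw [zero_smul] at ha
    exact line_rw_ne h.2 0 ha
  have e0 := line_ip_t h.2 0
  have p0 := line_par_face h.2 0 (!c.s) _ (line_t_mem_face (by decide : (1 : Fin 3) ≠ 0)) _
    (line_t_mem_face (by decide : (2 : Fin 3) ≠ 0))
  have p1 := line_par_face h.2 1 (!c.s) _ (line_t_mem_face (by decide : (0 : Fin 3) ≠ 1)) _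
    (line_t_mem_face (by decide : (2 : Fin 3) ≠ 1))
  simp only [zero_add] at e0
  rw [ha] at e0 p0
  rw [hb] at p1
  have hb0 : b = 0 := by
    simp only [lineIp, Fin.sum_univ_three, Pi.smul_apply, smul_eq_mul] at e0 p0 p1
    have h3 : a * ((c.t 0 0 : ℝ) * u 0 + c.t 0 1 * u 1 + c.t 0 2 * u 2 -
        (c.t 2 0 * u 0 + c.t 2 1 * u 1 + c.t 2 2 * u 2)) = -1 := by linarith
    have h4 : b * ((c.t 0 0 : ℝ) * u 0 + c.t 0 1 * u 1 + c.t 0 2 * u 2 -
        (c.t 2 0 * u 0 + c.t 2 1 * u 1 + c.t 2 2 * u 2)) = 0 := by linarith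
    rcases mul_eq_zero.1 h4 with h5 | h5
    · exact h5
    · rw [h5, mul_zero] at h3
      norm_num at h3
  rw [hb0, zero_smul] at hb
  exact line_rw_ne h.2 1 hb

theorem isVertex_iff (p q : TPoly) (hp : p.HasDegree 2) (hq : q.HasDegree 3)
    (hS : Smooth p q) (x : Fin 3 → ℝ) : IsVertex (curve p q) x ↔ ∃ c, IsCell p q x c := by
  constructor
  · rintro ⟨hx, hnl⟩
    rcases point_cases p q hp hq hS x hx with ⟨c, hc, -⟩ | ⟨c, i, hact, hu, -⟩
    · exact ⟨c, hc⟩
    · exact absurd (locallyLine_of_face hu hact) hnl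
  · rintro ⟨c, hc⟩
    exact ⟨mem_curve_of_full hc, not_locallyLine hc⟩

end Pool.Agent.H40.TS
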