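import Pool.Agent.H40.TS.Defs

/-!
# A sprawling vertex has three sides containing cycles (job TS-SIDES)

Let `w`, `f` be as in `Sprawling`, `A_i = {u ≠ w | f u = i}`.  By `hconn` each `A_i` contains a vertex
joined to `w` by an edge `e_i` of `M`.  Put `K = core G`, `v = φ w`, and let `y_i` be the neighbour of
`v` on the path of `e_i`.  The `y_i` are distinct (`once`), so `v` has no other neighbour in `G`
(`hdeg`).  `S_i` is the set of the vertices which can be reached from `y_i` by a walk in `G` avoiding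
`v` (finite by `hfin`).
(a) `y_j ∉ S_i` for `j ≠ i`: otherwise there is a cycle of `G` through `v`, `y_i`, `y_j`, it is
contained in `K`, and the set of all vertices on the paths of the edges on the side `i` except `v` is
closed under `K`-neighbours different from `v`, and does not contain `y_j`.
(b) Closedness follows.
(c) Counting: let `T` be the set of the vertices reached from `y_i` in `K` avoiding `v`.  Every
`x ∈ T` has at least two neighbours in `T`, except for `y_i`, which has at least one.  The number of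
ordered adjacent pairs in `T` is even, so it is at least `2 |T|`.  Now add the other vertices of `S_i`
one by one.
-/

set_option autoImplicit false

namespace Pool.Agent.H40.TS

theorem sides_core_le {V : Type} (G : SimpleGraph V) : core G ≤ G := by
  unfold core
  exact sSup_le (fun H hH => hH.1)

theorem sides_core_leafless {V : Type} (G : SimpleGraph V) : Leafless (core G) := by
  intro x y h
  unfold core at h ⊢
  rw [SimpleGraph.sSup_adj] at h
  obtain ⟨H, hH, hxy⟩ := h
  obtain ⟨z, hz, hyz⟩ := hH.2 x y hxy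
  exact ⟨z, hz, SimpleGraph.sSup_adj.2 ⟨H, hH, hyz⟩⟩

theorem sides_le_core {V : Type} (G H : SimpleGraph V) (h1 : H ≤ G) (h2 : Leafless H) :
    H ≤ core G :=
  le_sSup ⟨h1, h2⟩

theorem sides_cycle_core {V : Type} (G : SimpleGraph V) {v : V} (c : G.Walk v v)
    (hc : c.IsCycle) (a b : V) (hab : s(a, b) ∈ c.edges) : (core G).Adj a b := by
  classical
  have h := sides_le_core G c.toSubgraph.spanningCoe (SimpleGraph.Subgraph.spanningCoe_le _) (by
    intro x y hxy
    rw [SimpleGraph.Subgraph.spanningCoe_adj] at hxy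
    have hy : y ∈ c.support := by
      rw [← SimpleGraph.Walk.mem_verts_toSubgraph]
      exact c.toSubgraph.edge_vert hxy.symm
    have h2 := hc.ncard_neighborSet_toSubgraph_eq_two hy
    obtain ⟨z, hz, hzx⟩ := Set.exists_ne_of_one_lt_ncard (by omega : 1 < (c.toSubgraph.neighborSet y).ncard) x
    exact ⟨z, hzx, by rw [SimpleGraph.Subgraph.spanningCoe_adj]; exact hz⟩)
  apply h
  rw [SimpleGraph.Subgraph.spanningCoe_adj]
  rw [← SimpleGraph.Subgraph.mem_edgeSet, SimpleGraph.Walk.mem_edges_toSubgraph]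
  exact hab

/-- a walk avoiding `v` from a reachability relation -/
theorem sides_walk {V : Type} (G : SimpleGraph V) (v y : V) (hy : y ≠ v) (x : V)
    (h : Relation.ReflTransGen (fun a b => a ≠ v ∧ b ≠ v ∧ G.Adj a b) y x) :
    ∃ p : G.Walk y x, v ∉ p.support := by
  induction h with
  | refl => exact ⟨SimpleGraph.Walk.nil, by simpa using hy.symm⟩
  | tail h1 h2 ih =>
    obtain ⟨p, hp⟩ := ih
    refine ⟨p.concat h2.2.2, ?_⟩
    rw [SimpleGraph.Walk.support_concat]
    simp [hp, h2.2.1.symm]

theorem sides_closed {V : Type} (G K : SimpleGraph V) (v : V) (P : V → Prop)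
    (hP : ∀ x y, P x → K.Adj x y → y ≠ v → P y) (a b : V) (p : G.Walk a b) (hv : v ∉ p.support)
    (hp : ∀ x y, s(x, y) ∈ p.edges → K.Adj x y) (ha : P a) : P b := by
  induction p with
  | nil => exact ha
  | cons h q ih =>
    rw [SimpleGraph.Walk.support_cons, List.mem_cons, not_or] at hv
    refine ih hv.2 (fun x y hxy => hp x y ?_) (hP _ _ ha (hp _ _ ?_) ?_)
    · rw [SimpleGraph.Walk.edges_cons]; exact List.mem_cons_of_mem _ hxy
    · rw [SimpleGraph.Walk.edges_cons]; exact List.mem_cons_self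
    · rintro rfl; exact hv.2 (SimpleGraph.Walk.start_mem_support _)

/-- if `y1`, `y2` are distinct neighbours of `v` connected in `G - v`, then they are connected by a
walk in `G` avoiding `v`, all of whose edges are in the core -/
theorem sides_core_walk {V : Type} (G : SimpleGraph V) (v y1 y2 : V) (h1 : G.Adj v y1)
    (h2 : G.Adj v y2) (hne : y1 ≠ y2)
    (h : Relation.ReflTransGen (fun a b => a ≠ v ∧ b ≠ v ∧ G.Adj a b) y1 y2) :
    ∃ p : G.Walk y1 y2, v ∉ p.support ∧ ∀ x y, s(x, y) ∈ p.edges → (core G).Adj x y := by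
  classical
  obtain ⟨p0, hp0⟩ := sides_walk G v y1 h1.ne.symm y2 h
  have hp : v ∉ p0.bypass.support := fun hh => hp0 (p0.support_bypass_subset_support hh)
  have hpp : p0.bypass.IsPath := p0.bypass_isPath
  refine ⟨p0.bypass, hp, ?_⟩
  have hq : (p0.bypass.concat h2.symm).IsPath := by
    rw [SimpleGraph.Walk.concat_isPath_iff]
    exact ⟨hpp, hp⟩
  have hc : (SimpleGraph.Walk.cons h1 (p0.bypass.concat h2.symm)).IsCycle := by
    rw [SimpleGraph.Walk.cons_isCycle_iff]
    refine ⟨hq, ?_⟩
    rw [SimpleGraph.Walk.edges_concat]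
    intro hmem
    rw [List.concat_eq_append, List.mem_append, List.mem_singleton] at hmem
    rcases hmem with hmem | hmem
    · exact hp (SimpleGraph.Walk.fst_mem_support_of_mem_edges _ hmem)
    · rw [Sym2.eq_iff] at hmem
      rcases hmem with ⟨h3, h4⟩ | ⟨h3, h4⟩
      · exact h2.ne h3
      · exact hne h4
  intro x y hxy
  refine sides_cycle_core G _ hc x y ?_
  rw [SimpleGraph.Walk.edges_cons, SimpleGraph.Walk.edges_concat, List.concat_eq_append]
  exact List.mem_cons_of_mem _ (List.mem_append_left _ hxy)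

open Classical in
/-- ordered adjacent pairs in `T` -/
noncomputable def sidesPairs {V : Type} (G : SimpleGraph V) (T : Finset V) : Finset (V × V) :=
  (T ×ˢ T).filter (fun z => G.Adj z.1 z.2)

theorem sides_even {V : Type} (G : SimpleGraph V) (T : Finset V) :
    Even (sidesPairs G T).card := by
  classical
  have h : ∑ z ∈ sidesPairs G T, (1 : ZMod 2) = 0 := by
    refine Finset.sum_involution (fun z _ => (z.2, z.1)) ?_ ?_ ?_ ?_
    · intro a _; decide
    · rintro ⟨a, b⟩ h _ hab
      simp only [sidesPairs, Finset.mem_filter, Finset.mem_product] at h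
      simp only [Prod.mk.injEq] at hab
      exact h.2.ne hab.2
    · rintro ⟨a, b⟩ h
      simp only [sidesPairs, Finset.mem_filter, Finset.mem_product] at h ⊢
      exact ⟨⟨h.1.2, h.1.1⟩, h.2.symm⟩
    · rintro ⟨a, b⟩ _; rfl
  rw [Finset.sum_const, nsmul_eq_mul, mul_one, ZMod.natCast_eq_zero_iff] at h
  exact (even_iff_two_dvd).2 h

open Classical in
theorem sides_card_pairs {V : Type} (G : SimpleGraph V) (T : Finset V) :
    (sidesPairs G T).card = ∑ x ∈ T, (T.filter (fun z => G.Adj x z)).card := by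
  unfold sidesPairs
  rw [Finset.card_filter, Finset.sum_product]
  refine Finset.sum_congr rfl (fun x _ => ?_)
  rw [Finset.card_filter]

theorem sides_base {V : Type} (G : SimpleGraph V) (T : Finset V) (y : V) (hy : y ∈ T)
    (h1 : ∃ z ∈ T, G.Adj y z)
    (h2 : ∀ x ∈ T, x ≠ y → ∃ z1 ∈ T, ∃ z2 ∈ T, z1 ≠ z2 ∧ G.Adj x z1 ∧ G.Adj x z2) :
    2 * T.card ≤ (sidesPairs G T).card := by
  classical
  have hle : ∑ x ∈ T, (if x = y then 1 else 2) ≤ (sidesPairs G T).card := by
    rw [sides_card_pairs]
    refine Finset.sum_le_sum (fun x hx => ?_)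
    split_ifs with hxy
    · subst hxy
      obtain ⟨z, hz, hxz⟩ := h1
      exact Finset.card_pos.2 ⟨z, Finset.mem_filter.2 ⟨hz, hxz⟩⟩
    · obtain ⟨z1, hz1, z2, hz2, hne, ha1, ha2⟩ := h2 x hx hxy
      have : ({z1, z2} : Finset V) ⊆ T.filter (fun z => G.Adj x z) := by
        intro z hz
        simp only [Finset.mem_insert, Finset.mem_singleton] at hz
        rcases hz with rfl | rfl
        · exact Finset.mem_filter.2 ⟨hz1, ha1⟩
        · exact Finset.mem_filter.2 ⟨hz2, ha2⟩
      have h3 := Finset.card_le_card this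
      rwa [Finset.card_pair hne] at h3
  have hsum : ∑ x ∈ T, (if x = y then 1 else 2) + 1 = 2 * T.card := by
    have : ∀ x ∈ T, (if x = y then 1 else 2) + (if x = y then 1 else 0) = 2 := by
      intro x _; split_ifs <;> rfl
    have h4 := Finset.sum_congr rfl this
    rw [Finset.sum_add_distrib, Finset.sum_ite_eq' T y, if_pos hy, Finset.sum_const, smul_eq_mul] at h4
    omega
  obtain ⟨k, hk⟩ := sides_even G T
  omega

theorem sides_ext {V : Type} (G : SimpleGraph V) (S : Finset V) (y : V)
    (hS : ∀ x ∈ S, Relation.ReflTransGen (fun a b => a ∈ S ∧ b ∈ S ∧ G.Adj a b) y x) :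
    ∀ (n : ℕ) (T : Finset V), T ⊆ S → y ∈ T → S.card = T.card + n →
      2 * T.card ≤ (sidesPairs G T).card → 2 * S.card ≤ (sidesPairs G S).card := by
  classical
  intro n
  induction n with
  | zero =>
    intro T hTS _ hc h
    have : T = S := Finset.eq_of_subset_of_card_le hTS (by omega)
    rwa [← this]
  | succ n ih =>
    intro T hTS hy hc h
    -- an edge from T to S \ T
    have hstep : ∃ a b, a ∈ T ∧ b ∉ T ∧ b ∈ S ∧ G.Adj a b := by
      by_contra hcon
      push Not at hcon
      have hall : ∀ x, Relation.ReflTransGen (fun a b => a ∈ S ∧ b ∈ S ∧ G.Adj a b) y x → x ∈ T := by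
        intro x hx
        induction hx with
        | refl => exact hy
        | tail _ h2 ih2 =>
          by_contra hb
          exact hcon _ _ ih2 hb h2.2.1 h2.2.2
      have : S ⊆ T := fun x hx => hall x (hS x hx)
      have := Finset.card_le_card this
      omega
    obtain ⟨a, b, ha, hb, hbS, hab⟩ := hstep
    have hcard : (insert b T).card = T.card + 1 := Finset.card_insert_of_notMem hb
    refine ih (insert b T) (Finset.insert_subset hbS hTS) (Finset.mem_insert_of_mem hy) (by omega) ?_
    have hsub : insert (a, b) (insert (b, a) (sidesPairs G T)) ⊆ sidesPairs G (insert b T) := by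
      intro z hz
      simp only [Finset.mem_insert] at hz
      simp only [sidesPairs, Finset.mem_filter, Finset.mem_product, Finset.mem_insert] at hz ⊢
      rcases hz with rfl | rfl | hz
      · exact ⟨⟨Or.inr ha, Or.inl rfl⟩, hab⟩
      · exact ⟨⟨Or.inl rfl, Or.inr ha⟩, hab.symm⟩
      · exact ⟨⟨Or.inr hz.1.1, Or.inr hz.1.2⟩, hz.2⟩
    have h5 := Finset.card_le_card hsub
    rw [Finset.card_insert_of_notMem, Finset.card_insert_of_notMem] at h5
    · omega
    · simp [sidesPairs, hb]
    · rw [Finset.mem_insert, not_or]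
      refine ⟨fun h6 => hab.ne (Prod.mk.inj h6).1, ?_⟩
      simp [sidesPairs, hb]

/-- positions on a path of a subdivision -/
theorem sides_pos {V : Type} {K : SimpleGraph V} {M : MGraph} (D : Subdivision K M) (e : Fin M.m)
    (k : ℕ) (x : V) (h : (D.path e)[k]? = some x) :
    x = D.φ (M.fst e) ∨ x = D.φ (M.snd e) ∨ (0 < k ∧ k + 1 < (D.path e).length) := by
  have hk : k < (D.path e).length := by
    by_contra hk
    rw [List.getElem?_eq_none (by omega)] at h
    exact absurd h (by simp)
  rcases Nat.eq_zero_or_pos k with rfl | hk0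
  · left
    rw [D.head] at h
    exact (Option.some.inj h).symm
  · by_cases hk1 : k + 1 < (D.path e).length
    · exact Or.inr (Or.inr ⟨hk0, hk1⟩)
    · right; left
      have : k = (D.path e).length - 1 := by omega
      rw [this, D.last] at h
      exact (Option.some.inj h).symm

/-- being on a path on the side `i` -/
def sidesOn {V : Type} {K : SimpleGraph V} {M : MGraph} (D : Subdivision K M) (w : Fin M.n)
    (f : Fin M.n → Fin 3) (i : Fin 3) (x : V) : Prop :=
  x ≠ D.φ w ∧ ∃ (e : Fin M.m) (k : ℕ), (if M.fst e = w then f (M.snd e) else f (M.fst e)) = i ∧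
    (D.path e)[k]? = some x

theorem sides_on_unique {V : Type} {K : SimpleGraph V} {M : MGraph} (D : Subdivision K M)
    (w : Fin M.n) (f : Fin M.n → Fin 3)
    (hf : ∀ u v, u ≠ w → v ≠ w →
      (f u = f v ↔ Relation.ReflTransGen (fun a b => a ≠ w ∧ b ≠ w ∧ M.Step a b) u v))
    (i j : Fin 3) (x : V) (hi : sidesOn D w f i x) (hj : sidesOn D w f j x) : i = j := by
  obtain ⟨hx, e, k, hei, hk⟩ := hi
  obtain ⟨-, e', k', hej, hk'⟩ := hj
  -- the value of `f` at an end of an edge
  have hend : ∀ (e : Fin M.m) (u : Fin M.n), u ≠ w → (u = M.fst e ∨ u = M.snd e) →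
      f u = if M.fst e = w then f (M.snd e) else f (M.fst e) := by
    intro e u hu hue
    split_ifs with h1
    · rcases hue with rfl | rfl
      · exact absurd h1 hu
      · rfl
    · rcases hue with rfl | rfl
      · rfl
      · rw [hf _ _ hu h1]
        exact Relation.ReflTransGen.single ⟨hu, h1, e, Or.inr ⟨rfl, rfl⟩⟩
  have hvert : ∀ (e : Fin M.m) (k : ℕ), (D.path e)[k]? = some x →
      ((∃ u, u ≠ w ∧ (u = M.fst e ∨ u = M.snd e) ∧ x = D.φ u) ∨
        (0 < k ∧ k + 1 < (D.path e).length)) := by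
    intro e k hk
    rcases sides_pos D e k x hk with h | h | h
    · exact Or.inl ⟨_, fun h2 => hx (by rw [h, h2]), Or.inl rfl, h⟩
    · exact Or.inl ⟨_, fun h2 => hx (by rw [h, h2]), Or.inr rfl, h⟩
    · exact Or.inr h
  rcases hvert e k hk with ⟨u, hu, hue, hxu⟩ | ⟨h1, h2⟩
  · rcases hvert e' k' hk' with ⟨u', hu', hue', hxu'⟩ | ⟨h1', h2'⟩
    · have : u = u' := D.φ_inj (by rw [← hxu, hxu'])
      subst this
      rw [← hei, ← hej, ← hend e u hu hue, ← hend e' u hu hue']
    · exact absurd (by rw [hk', hxu]) (D.inner_φ e' k' u h1' h2')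
  · rcases hvert e' k' hk' with ⟨u', hu', hue', hxu'⟩ | ⟨h1', h2'⟩
    · exact absurd (by rw [hk, hxu']) (D.inner_φ e k u' h1 h2)
    · obtain ⟨rfl, -⟩ := D.inner e k e' k' x h1 h2 h1' h2' hk hk'
      rw [← hei, ← hej]

theorem sides_on_closed {V : Type} {K : SimpleGraph V} {M : MGraph} (D : Subdivision K M)
    (w : Fin M.n) (f : Fin M.n → Fin 3)
    (hf : ∀ u v, u ≠ w → v ≠ w →
      (f u = f v ↔ Relation.ReflTransGen (fun a b => a ≠ w ∧ b ≠ w ∧ M.Step a b) u v))
    (i : Fin 3) (x z : V) (hi : sidesOn D w f i x) (hxz : K.Adj x z) (hz : z ≠ D.φ w) :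
    sidesOn D w f i z := by
  obtain ⟨e, k, h⟩ := D.cover x z hxz
  have hx : ∃ k : ℕ, (D.path e)[k]? = some x := by
    rcases h with h | h
    · exact ⟨_, h.1⟩
    · exact ⟨_, h.2⟩
  have hz' : ∃ k : ℕ, (D.path e)[k]? = some z := by
    rcases h with h | h
    · exact ⟨_, h.2⟩
    · exact ⟨_, h.1⟩
  obtain ⟨k1, hk1⟩ := hx
  obtain ⟨k2, hk2⟩ := hz'
  have h1 : sidesOn D w f (if M.fst e = w then f (M.snd e) else f (M.fst e)) x :=
    ⟨hi.1, e, k1, rfl, hk1⟩
  have h2 := sides_on_unique D w f hf _ _ x hi h1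
  exact ⟨hz, e, k2, h2.symm, hk2⟩

/-- the edges of `M` at the sprawling vertex -/
theorem sides_edge {M : MGraph} (hconn : M.Connected) (w : Fin M.n) (f : Fin M.n → Fin 3)
    (hne : ∀ i, ∃ u, u ≠ w ∧ f u = i)
    (hf : ∀ u v, u ≠ w → v ≠ w →
      (f u = f v ↔ Relation.ReflTransGen (fun a b => a ≠ w ∧ b ≠ w ∧ M.Step a b) u v))
    (i : Fin 3) : ∃ e, (M.fst e = w ∧ M.snd e ≠ w ∧ f (M.snd e) = i) ∨
      (M.snd e = w ∧ M.fst e ≠ w ∧ f (M.fst e) = i) := by
  by_contra hcon
  push Not at hcon
  obtain ⟨u, hu, hui⟩ := hne i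
  have hall : ∀ x, Relation.ReflTransGen M.Step u x → x ≠ w ∧ f x = i := by
    intro x hx
    induction hx with
    | refl => exact ⟨hu, hui⟩
    | @tail b c _ h2 ih =>
      have hcw : c ≠ w := by
        rintro rfl
        obtain ⟨e, he⟩ := h2
        rcases he with ⟨h3, h4⟩ | ⟨h3, h4⟩
        · exact (hcon e).2 h4 (by rw [h3]; exact ih.1) (by rw [h3]; exact ih.2)
        · exact (hcon e).1 h3 (by rw [h4]; exact ih.1) (by rw [h4]; exact ih.2)
      refine ⟨hcw, ?_⟩
      rw [← ih.2]
      exact ((hf b c ih.1 hcw).2 (Relation.ReflTransGen.single ⟨ih.1, hcw, h2⟩)).symm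
  exact (hall w (hconn.2 u w)).1 rfl

open Classical in
theorem sprawl_sides {V : Type} (G : SimpleGraph V) (hfin : {x | ∃ y, G.Adj x y}.Finite)
    (hdeg : ∀ x y0 y1 y2 y3, G.Adj x y0 → G.Adj x y1 → G.Adj x y2 → G.Adj x y3 →
      ¬ [y0, y1, y2, y3].Nodup)
    (M : MGraph) (htri : M.Trivalent) (hconn : M.Connected) (hs : M.Sprawling)
    (D : Subdivision (core G) M) :
    ∃ (v : V) (y : Fin 3 → V) (S : Fin 3 → Finset V), Function.Injective y ∧
      (∀ i, G.Adj v (y i)) ∧ (∀ u, G.Adj v u → ∃ i, u = y i) ∧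
      ∀ i, y i ∈ S i ∧ v ∉ S i ∧
        (∀ x ∈ S i, ∀ u, G.Adj x u → u ∈ S i ∨ (x = y i ∧ u = v)) ∧
        (∀ x ∈ S i, Relation.ReflTransGen (fun a b => a ∈ S i ∧ b ∈ S i ∧ G.Adj a b) (y i) x) ∧
        2 * (S i).card ≤ ((S i ×ˢ S i).filter (fun z => G.Adj z.1 z.2)).card := by
  obtain ⟨w, f, hne, hf⟩ := hs
  choose e he using sides_edge hconn w f hne hf
  have hK := sides_core_le G
  have hL := sides_core_leafless G
  -- the neighbours of `v`
  have hy : ∀ i, ∃ y k, Consec (D.path (e i)) k (D.φ w) y ∨ Consec (D.path (e i)) k y (D.φ w) := by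
    intro i
    have hlen := D.len (e i)
    rcases he i with ⟨h1, -, -⟩ | ⟨h1, -, -⟩
    · refine ⟨(D.path (e i))[1], 0, Or.inl ⟨?_, ?_⟩⟩
      · rw [D.head, h1]
      · rw [List.getElem?_eq_getElem]
    · refine ⟨(D.path (e i))[(D.path (e i)).length - 2], (D.path (e i)).length - 2, Or.inr ⟨?_, ?_⟩⟩
      · rw [List.getElem?_eq_getElem]
      · rw [show (D.path (e i)).length - 2 + 1 = (D.path (e i)).length - 1 by omega, D.last, h1]
  choose y k hyk using hy
  have hKy : ∀ i, (core G).Adj (D.φ w) (y i) := by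
    intro i
    rcases hyk i with h | h
    · exact D.adj _ _ _ _ h
    · exact (D.adj _ _ _ _ h).symm
  have hGy : ∀ i, G.Adj (D.φ w) (y i) := fun i => hK (hKy i)
  -- the edge `e i` is on the side `i`
  have hside : ∀ i, (if M.fst (e i) = w then f (M.snd (e i)) else f (M.fst (e i))) = i := by
    intro i
    rcases he i with ⟨h1, -, h3⟩ | ⟨h1, h2, h3⟩
    · rw [if_pos h1, h3]
    · rw [if_neg h2, h3]
  have hyon : ∀ i, sidesOn D w f i (y i) := by
    intro i
    refine ⟨(hKy i).ne.symm, e i, ?_⟩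
    rcases hyk i with h | h
    · exact ⟨_, hside i, h.2⟩
    · exact ⟨_, hside i, h.1⟩
  have hinj : Function.Injective y := by
    intro i j hij
    have h1 := hyon i
    rw [hij] at h1
    exact sides_on_unique D w f hf i j _ h1 (hyon j)
  have hnb : ∀ u, G.Adj (D.φ w) u → ∃ i, u = y i := by
    intro u hu
    by_contra hcon
    push Not at hcon
    refine hdeg _ (y 0) (y 1) (y 2) u (hGy 0) (hGy 1) (hGy 2) hu ?_
    have h01 : y 0 ≠ y 1 := fun h => absurd (hinj h) (by decide)
    have h02 : y 0 ≠ y 2 := fun h => absurd (hinj h) (by decide)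
    have h12 : y 1 ≠ y 2 := fun h => absurd (hinj h) (by decide)
    simp [h01, h02, h12, (hcon 0).symm, (hcon 1).symm, (hcon 2).symm]
  -- the sides
  set v := D.φ w with hv
  set R : V → V → Prop := fun a b => a ≠ v ∧ b ≠ v ∧ G.Adj a b with hR
  have hfinS : ∀ i, {x | Relation.ReflTransGen R (y i) x}.Finite := by
    intro i
    refine hfin.subset ?_
    intro x hx
    rcases Relation.ReflTransGen.cases_tail hx with h | ⟨c, -, h⟩
    · exact ⟨v, by rw [h]; exact (hGy i).symm⟩
    · exact ⟨c, h.2.2.symm⟩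
  have hyv : ∀ i, y i ≠ v := fun i => (hGy i).ne.symm
  have hmem : ∀ i x, x ∈ (hfinS i).toFinset ↔ Relation.ReflTransGen R (y i) x := by
    intro i x
    rw [Set.Finite.mem_toFinset]; rfl
  have hvS : ∀ i x, Relation.ReflTransGen R (y i) x → x ≠ v := by
    intro i x hx
    rcases Relation.ReflTransGen.cases_tail hx with h | ⟨c, -, h⟩
    · rw [h]; exact hyv i
    · exact h.2.1
  have hsep : ∀ i j, Relation.ReflTransGen R (y i) (y j) → j = i := by
    intro i j hij
    by_contra hne'
    obtain ⟨p, hp1, hp2⟩ := sides_core_walk G v (y i) (y j) (hGy i) (hGy j)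
      (fun h => hne' (hinj h).symm) hij
    have h3 := sides_closed G (core G) v (sidesOn D w f i)
      (fun x z hx hxz hz => sides_on_closed D w f hf i x z hx hxz hz) _ _ p hp1 hp2 (hyon i)
    exact hne' (sides_on_unique D w f hf j i _ (hyon j) h3)
  have hclosed : ∀ i x, Relation.ReflTransGen R (y i) x → ∀ u, G.Adj x u →
      Relation.ReflTransGen R (y i) u ∨ (x = y i ∧ u = v) := by
    intro i x hx u hxu
    by_cases huv : u = v
    · right
      refine ⟨?_, huv⟩
      subst huv
      obtain ⟨j, hj⟩ := hnb x hxu.symm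
      rw [hj] at hx
      rw [hj, hsep i j hx]
    · left
      exact hx.tail ⟨hvS i x hx, huv, hxu⟩
  refine ⟨v, y, fun i => (hfinS i).toFinset, hinj, hGy, hnb, ?_⟩
  intro i
  have hconnS : ∀ x ∈ (hfinS i).toFinset, Relation.ReflTransGen
      (fun a b => a ∈ (hfinS i).toFinset ∧ b ∈ (hfinS i).toFinset ∧ G.Adj a b) (y i) x := by
    intro x hx
    rw [hmem] at hx
    induction hx with
    | refl => exact Relation.ReflTransGen.refl
    | tail h1 h2 ih =>
      exact ih.tail ⟨(hmem _ _).2 h1, (hmem _ _).2 (h1.tail h2), h2.2.2⟩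
  refine ⟨(hmem _ _).2 Relation.ReflTransGen.refl, fun h => hvS i v ((hmem _ _).1 h) rfl, ?_,
    hconnS, ?_⟩
  · intro x hx u hxu
    rw [hmem] at hx ⊢
    exact hclosed i x hx u hxu
  · -- counting
    have hKR : ∀ x, Relation.ReflTransGen (fun a b => a ≠ v ∧ b ≠ v ∧ (core G).Adj a b) (y i) x →
        Relation.ReflTransGen R (y i) x := by
      intro x hx
      induction hx with
      | refl => exact Relation.ReflTransGen.refl
      | tail _ h2 ih => exact ih.tail ⟨h2.1, h2.2.1, hK h2.2.2⟩
    have hfinT : {x | Relation.ReflTransGen (fun a b => a ≠ v ∧ b ≠ v ∧ (core G).Adj a b)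
        (y i) x}.Finite := (hfinS i).subset (fun x hx => hKR x hx)
    have hmemT : ∀ x, x ∈ hfinT.toFinset ↔ Relation.ReflTransGen
        (fun a b => a ≠ v ∧ b ≠ v ∧ (core G).Adj a b) (y i) x := by
      intro x
      rw [Set.Finite.mem_toFinset]; rfl
    have hTS : hfinT.toFinset ⊆ (hfinS i).toFinset := by
      intro x hx
      rw [hmem]
      exact hKR x ((hmemT x).1 hx)
    have hbase : 2 * hfinT.toFinset.card ≤ (sidesPairs G hfinT.toFinset).card := by
      refine sides_base G _ (y i) ((hmemT _).2 Relation.ReflTransGen.refl) ?_ ?_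
      · obtain ⟨z, hz, hyz⟩ := hL _ _ (hKy i)
        refine ⟨z, (hmemT _).2 (Relation.ReflTransGen.single ⟨hyv i, hz, hyz⟩), hK hyz⟩
      · intro x hx hxy
        have hx' := (hmemT x).1 hx
        rcases Relation.ReflTransGen.cases_tail hx' with h | ⟨c, hc1, hc2⟩
        · exact absurd h hxy
        · obtain ⟨z, hz, hxz⟩ := hL _ _ hc2.2.2
          have hzv : z ≠ v := by
            intro hzv
            rcases hclosed i x (hKR x hx') z (hK hxz) with h | h
            · exact hvS i z h hzv
            · exact hxy h.1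
          exact ⟨c, (hmemT _).2 hc1, z, (hmemT _).2 (hx'.tail ⟨hc2.2.1, hzv, hxz⟩), hz.symm,
            hK hc2.2.2.symm, hK hxz⟩
    have hn : hfinT.toFinset.card ≤ (hfinS i).toFinset.card := Finset.card_le_card hTS
    have := sides_ext G (hfinS i).toFinset (y i) hconnS
      ((hfinS i).toFinset.card - hfinT.toFinset.card) hfinT.toFinset hTS
      ((hmemT _).2 Relation.ReflTransGen.refl) (by omega) hbase
    unfold sidesPairs at this
    exact this

end Pool.Agent.H40.TS
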